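import Mathlib
import Pool.Graph.R_seed8.H335R2.Obs.Obs2
import Pool.Graph.R_pool_sql_team_seeded_1acbe0a2.Y928.QN.Upper
import Pool.Graph.R_pool_sql_team_seeded_1acbe0a2.Y928.QN.Pert

/-!
# Quantitative obstruction theorem, part 1: perturbed entries and growth

The entries of the interpolation matrices of the parametric linear subgroup theorem
(`Pool.Agent.H301R2.TR.entG`), when the algebraic numbers are only near to the values of the
exponential function.
-/

set_option autoImplicit false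

namespace Pool.Agent.H12

open Finset Pool.Agent.H301R2.TR Pool.Agent.Y928.QN

theorem Near.prod {ι : Type*} (s : Finset ι) (x y : ι → ℂ) (B δ : ι → ℝ)
    (h : ∀ i ∈ s, Near (B i) (δ i) (x i) (y i)) :
    Near (∏ i ∈ s, B i) (∑ i ∈ s, δ i) (∏ i ∈ s, x i) (∏ i ∈ s, y i) := by
  classical
  induction s using Finset.induction_on with
  | empty => simpa using (Near.refl (B := 1) (x := 1) (by simp))
  | insert i s hi ih =>
    rw [prod_insert hi, sum_insert hi, prod_insert hi, prod_insert hi]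
    exact (h i (mem_insert_self i s)).mul (ih fun j hj => h j (mem_insert_of_mem hj))

/-- the entries depend continuously on the `χ j p` -/
theorem entG_near {w b l : ℕ}
    {γ : Fin w → Fin b → ℂ} {α : Fin w → Fin l → ℂ} {χ χ' : Fin b → Fin l → ℂ} {R0 ε : ℝ}
    (hR0 : 1 ≤ R0) (hε : 0 ≤ ε) (hγ : ∀ i j, ‖γ i j‖ ≤ R0) (hα : ∀ i p, ‖α i p‖ ≤ R0)
    (hχ : ∀ j p, Near R0 ε (χ j p) (χ' j p))
    (K0 M T S : ℕ) {k : Fin w → ℕ} {m : Fin b → ℕ} {t : Fin w → ℕ} {s : Fin l → ℕ}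
    (hk : ∀ i, k i ≤ K0) (hm : ∀ j, m j ≤ M) (ht : ∀ i, t i ≤ T) (hs : ∀ p, s p ≤ S) :
    ‖entG γ α χ k m t s - entG γ α χ' k m t s‖ ≤
      (((1 + b * R0 * M + K0) ^ T * (1 + l * R0 * S) ^ K0) ^ w *
      (R0 ^ (l * (S * M))) ^ b) * (b * (l * (S * M)) * ε) := by
  have hR0' : 0 ≤ R0 := by linarith
  have h1 : ‖∏ i, LamF (∑ j, γ i j * (m j : ℂ)) (k i) (t i) (∑ p, α i p * (s p : ℂ))‖ ≤
      ((1 + b * R0 * M + K0) ^ T * (1 + l * R0 * S) ^ K0) ^ w := by
    rw [norm_prod]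
    have : ∀ i ∈ (Finset.univ : Finset (Fin w)),
        ‖LamF (∑ j, γ i j * (m j : ℂ)) (k i) (t i) (∑ p, α i p * (s p : ℂ))‖ ≤
        ((1 + b * R0 * M + K0) ^ T * (1 + l * R0 * S) ^ K0) := by
      intro i _
      have g1 := norm_natsum_le R0 M (γ i) m (hγ i) hm
      have g2 := norm_natsum_le R0 S (α i) s (hα i) hs
      have hX : (1 : ℝ) ≤ 1 + l * R0 * S := by
        have : 0 ≤ l * R0 * (S : ℝ) := by positivity
        linarith
      refine (norm_LamF_le _ (k i) (t i) _ (b * R0 * M) (1 + l * R0 * S) g1 hX (by linarith)).trans ?_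
      have hki : (k i : ℝ) ≤ K0 := by exact_mod_cast hk i
      have hb : 0 ≤ b * R0 * (M : ℝ) := by positivity
      have a1 : (b * R0 * M + k i) ^ (t i) ≤ (1 + b * R0 * M + K0) ^ T := by
        calc (b * R0 * M + k i : ℝ) ^ (t i) ≤ (1 + b * R0 * M + K0) ^ (t i) := by
              apply pow_le_pow_left₀ (by positivity)
              linarith
          _ ≤ _ := pow_le_pow_right₀ (by have : (0 : ℝ) ≤ K0 := Nat.cast_nonneg _
                                         linarith) (ht i)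
      have a2 : (1 + l * R0 * (S : ℝ)) ^ (k i) ≤ (1 + l * R0 * S) ^ K0 :=
        pow_le_pow_right₀ hX (hk i)
      gcongr
    refine (Finset.prod_le_prod (fun i _ => norm_nonneg _) this).trans ?_
    simp
  have h2 : Near ((R0 ^ (l * (S * M))) ^ b) (b * (l * (S * M)) * ε)
      (∏ j, (∏ p, χ j p ^ s p) ^ m j) (∏ j, (∏ p, χ' j p ^ s p) ^ m j) := by
    have e1 : ∀ j ∈ (Finset.univ : Finset (Fin b)),
        Near (R0 ^ (l * (S * M))) (l * (S * M) * ε) ((∏ p, χ j p ^ s p) ^ m j)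
          ((∏ p, χ' j p ^ s p) ^ m j) := by
      intro j _
      have g1 : Near (∏ p : Fin l, R0 ^ s p) (∑ p : Fin l, (s p : ℝ) * ε) (∏ p, χ j p ^ s p)
          (∏ p, χ' j p ^ s p) :=
        Near.prod _ _ _ _ _ fun p _ => (hχ j p).pow (s p)
      have g2 : Near (R0 ^ (l * S)) ((l * S : ℕ) * ε) (∏ p, χ j p ^ s p) (∏ p, χ' j p ^ s p) := by
        refine g1.mono (Finset.sum_nonneg fun p _ => by positivity) ?_ ?_
        · rw [Finset.prod_pow_eq_pow_sum]
          apply pow_le_pow_right₀ hR0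
          calc ∑ p, s p ≤ ∑ _p : Fin l, S := Finset.sum_le_sum fun p _ => hs p
            _ = l * S := by simp
        · rw [← Finset.sum_mul]
          apply mul_le_mul_of_nonneg_right _ hε
          push_cast
          calc ∑ p, (s p : ℝ) ≤ ∑ _p : Fin l, (S : ℝ) :=
                Finset.sum_le_sum fun p _ => by exact_mod_cast hs p
            _ = l * S := by simp
      have g3 := g2.pow (m j)
      refine g3.mono (by positivity) ?_ ?_
      · rw [← pow_mul]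
        apply pow_le_pow_right₀ hR0
        calc l * S * m j ≤ l * S * M := Nat.mul_le_mul_left _ (hm j)
          _ = _ := by ring
      · have hmj : (m j : ℝ) ≤ M := by exact_mod_cast hm j
        push_cast
        calc (m j : ℝ) * (l * S * ε) ≤ M * (l * S * ε) :=
              mul_le_mul_of_nonneg_right hmj (by positivity)
          _ = _ := by ring
    have e2 := Near.prod _ _ _ _ _ e1
    rw [Finset.prod_const, Finset.sum_const, Finset.card_univ, Fintype.card_fin, nsmul_eq_mul] at e2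
    have e3 : (b : ℝ) * (l * (S * M) * ε) = b * (l * (S * M)) * ε := by ring
    rwa [e3] at e2
  unfold entG
  rw [← mul_sub, norm_mul]
  have h3 : (0 : ℝ) ≤ ((1 + b * R0 * M + K0) ^ T * (1 + l * R0 * S) ^ K0) ^ w := by positivity
  calc _ ≤ ((1 + b * R0 * M + K0) ^ T * (1 + l * R0 * S) ^ K0) ^ w *
        ((R0 ^ (l * (S * M))) ^ b * (b * (l * (S * M)) * ε)) :=
        mul_le_mul h1 h2.2.2 (norm_nonneg _) h3
    _ = _ := by ring

/-- the part of the size of the entries that does not depend on the heights -/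
noncomputable def BB (w b l κ μ σ c n : ℕ) : ℝ :=
  ((1 + b * ((n ^ μ : ℕ) : ℝ) + ((n ^ κ : ℕ) : ℝ)) ^ (c * n ^ κ)
          * (1 + l * ((c * n ^ σ : ℕ) : ℝ)) ^ (n ^ κ)) ^ w

/-- the number of monomials -/
noncomputable def NN {w : ℕ} (b μ : ℕ) (Kc : ℕ → Fin w → ℕ) (n : ℕ) : ℝ :=
  (((∏ i, (Kc n i + 1)) * (n ^ μ + 1) ^ b : ℕ) : ℝ)

/-- the analytic bound -/
noncomputable def CC (w r κ c : ℕ) (C2 : ℝ) (n : ℕ) : ℝ :=
  (((r + w : ℕ) + 1) * (2 * E1 (n ^ κ + c * n ^ κ) (C2 * (c * (n : ℝ) ^ κ))) ^ (r + w))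

theorem good_NN {w : ℕ} (b κ μ : ℕ) (Kc : ℕ → Fin w → ℕ) (hKc : ∀ n i, Kc n i ≤ n ^ κ) :
    Good κ (NN b μ Kc) := by
  have h1 : Good κ (fun n : ℕ => ((2 : ℝ) * (n : ℝ) ^ κ) ^ w * ((2 : ℝ) * (n : ℝ) ^ μ) ^ b) :=
    (((Good.const 2 (by norm_num)).mul (Good.natPow κ)).pow w).mul
      (((Good.const 2 (by norm_num)).mul (Good.natPow μ)).pow b)
  refine h1.mono (fun n hn => ?_) (fun n hn => ?_)
  · unfold NN
    have : 1 ≤ (∏ i, (Kc n i + 1)) * (n ^ μ + 1) ^ b := by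
      apply Nat.succ_le_of_lt
      apply Nat.mul_pos
      · exact Finset.prod_pos (fun i _ => Nat.succ_pos _)
      · positivity
    exact_mod_cast this
  · unfold NN
    have hn1 : (1 : ℝ) ≤ n := by exact_mod_cast hn
    have a1 : (1 : ℝ) ≤ (n : ℝ) ^ κ := one_le_pow₀ hn1
    have a2 : (1 : ℝ) ≤ (n : ℝ) ^ μ := one_le_pow₀ hn1
    push_cast
    have b1 : ∏ i : Fin w, ((Kc n i : ℝ) + 1) ≤ (2 * (n : ℝ) ^ κ) ^ w := by
      have : ∀ i ∈ (Finset.univ : Finset (Fin w)), ((Kc n i : ℝ) + 1) ≤ 2 * (n : ℝ) ^ κ := by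
        intro i _
        have : (Kc n i : ℝ) ≤ (n : ℝ) ^ κ := by exact_mod_cast hKc n i
        linarith
      refine (Finset.prod_le_prod (fun i _ => by positivity) this).trans ?_
      simp
    have b2 : ((n : ℝ) ^ μ + 1) ^ b ≤ (2 * (n : ℝ) ^ μ) ^ b :=
      pow_le_pow_left₀ (by positivity) (by linarith) _
    exact mul_le_mul b1 b2 (by positivity) (by positivity)

theorem good_CC (w r κ c : ℕ) (C2 : ℝ) (hC2 : 1 ≤ C2) : Good κ (CC w r κ c C2) := by
  have hE : Good κ (fun n : ℕ => E1 (n ^ κ + c * n ^ κ) (C2 * (c * (n : ℝ) ^ κ))) := by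
    unfold E1
    apply Good.mul
    · refine Good.factorial (fun n => n ^ κ + c * n ^ κ) (1 + c) ?_ ?_
      · intro n hn
        have : 1 ≤ n ^ κ := Nat.one_le_pow _ _ hn
        omega
      · intro n _
        push_cast
        apply le_of_eq; ring
    · refine Good.exp _ (6 * C2 * c) ?_ ?_
      · intro n _; positivity
      · intro n _; apply le_of_eq; ring
  have hrw : (1 : ℝ) ≤ ((r + w : ℕ) : ℝ) + 1 := by
    have : (0 : ℝ) ≤ ((r + w : ℕ) : ℝ) := Nat.cast_nonneg _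
    linarith
  exact (Good.const (u := κ) (((r + w : ℕ) : ℝ) + 1) hrw).mul
      (((Good.const (u := κ) 2 (by norm_num)).mul hE).pow (r + w))

theorem good_BB (w b l κ μ σ c : ℕ) (hκ : μ + σ = κ) : Good κ (BB w b l κ μ σ c) := by
  have hB1 : Good κ (fun n : ℕ => (1 + b * ((n ^ μ : ℕ) : ℝ) + ((n ^ κ : ℕ) : ℝ)) ^ (c * n ^ κ)) := by
    refine Good.powVar (f := fun n : ℕ => (1 + b * ((n ^ μ : ℕ) : ℝ) + ((n ^ κ : ℕ) : ℝ))) ?_
      (fun n => c * n ^ κ) c ?_
    · have h1 : Good 0 (fun n : ℕ => (2 + b : ℝ) * (n : ℝ) ^ κ) :=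
        (Good.const (2 + b : ℝ) (by
          have : (0 : ℝ) ≤ b := Nat.cast_nonneg _
          linarith)).mul (Good.natPow κ)
      refine h1.mono (fun n hn => ?_) (fun n hn => ?_)
      · have : (0 : ℝ) ≤ b * ((n ^ μ : ℕ) : ℝ) := by positivity
        have : (0 : ℝ) ≤ ((n ^ κ : ℕ) : ℝ) := by positivity
        linarith
      · have hn1 : (1 : ℝ) ≤ n := by exact_mod_cast hn
        have a1 : (n : ℝ) ^ μ ≤ (n : ℝ) ^ κ := pow_le_pow_right₀ hn1 (by omega)
        have a2 : (1 : ℝ) ≤ (n : ℝ) ^ κ := one_le_pow₀ hn1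
        have a3 : b * (n : ℝ) ^ μ ≤ b * (n : ℝ) ^ κ :=
          mul_le_mul_of_nonneg_left a1 (by positivity)
        push_cast
        nlinarith
    · intro n _
      push_cast
      apply le_of_eq; ring
  have hB2 : Good κ (fun n : ℕ => (1 + l * ((c * n ^ σ : ℕ) : ℝ)) ^ (n ^ κ)) := by
    refine Good.powVar (f := fun n : ℕ => (1 + l * ((c * n ^ σ : ℕ) : ℝ))) ?_
      (fun n => n ^ κ) 1 ?_
    · have h1 : Good 0 (fun n : ℕ => (1 + l * c : ℝ) * (n : ℝ) ^ σ) :=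
        (Good.const (1 + l * c : ℝ) (by
          have : (0 : ℝ) ≤ l * c := by positivity
          linarith)).mul (Good.natPow σ)
      refine h1.mono (fun n hn => ?_) (fun n hn => ?_)
      · have : (0 : ℝ) ≤ l * ((c * n ^ σ : ℕ) : ℝ) := by positivity
        linarith
      · have hn1 : (1 : ℝ) ≤ n := by exact_mod_cast hn
        have a1 : (1 : ℝ) ≤ (n : ℝ) ^ σ := one_le_pow₀ hn1
        push_cast
        nlinarith
    · intro n _
      push_cast
      apply le_of_eq; ring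
  exact (hB1.mul hB2).pow w

/-- the growth of the parameters -/
theorem growthQ {w : ℕ} (b l r κ μ σ c Dg : ℕ) (hκ : μ + σ = κ) (C2 : ℝ)
    (hC2 : 1 ≤ C2) (Kc : ℕ → Fin w → ℕ) (hKc : ∀ n i, Kc n i ≤ n ^ κ) :
    ∃ n0 : ℕ, ∀ n ≥ n0, 1 ≤ n →
      ((2 * NN b μ Kc n * CC w r κ c C2 n * (NN b μ Kc n * BB w b l κ μ σ c n) ^ Dg) ^ 2) ^ 2 <
        2 ^ (n ^ (κ + 1)) ∧
      (BB w b l κ μ σ c n * (1 + b * (l * (((c * n ^ σ : ℕ) : ℝ) * ((n ^ μ : ℕ) : ℝ))))) ^ 2 <
        2 ^ (n ^ (κ + 1)) := by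
  have hN := good_NN b κ μ Kc hKc
  have hB := good_BB w b l κ μ σ c hκ
  have hC := good_CC w r κ c C2 hC2
  obtain ⟨n1, hn1⟩ := (((((Good.const (u := κ) 2 (by norm_num)).mul hN).mul hC).mul
    ((hN.mul hB).pow Dg)).pow 2).eventually_lt
  have hK : Good κ (fun n : ℕ => (1 + b * (l * (((c * n ^ σ : ℕ) : ℝ) * ((n ^ μ : ℕ) : ℝ))) : ℝ)) := by
    have h1 : Good κ (fun n : ℕ => (1 + b * (l * c) : ℝ) * (n : ℝ) ^ κ) :=
      (Good.const _ (by
        have : (0 : ℝ) ≤ b * (l * c) := by positivity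
        linarith)).mul (Good.natPow _)
    refine h1.mono (fun n hn => ?_) (fun n hn => ?_)
    · have : (0 : ℝ) ≤ b * (l * (((c * n ^ σ : ℕ) : ℝ) * ((n ^ μ : ℕ) : ℝ))) := by positivity
      linarith
    · have hn1 : (1 : ℝ) ≤ n := by exact_mod_cast hn
      have a1 : (1 : ℝ) ≤ (n : ℝ) ^ κ := one_le_pow₀ hn1
      have e1 : (n : ℝ) ^ κ = (n : ℝ) ^ μ * (n : ℝ) ^ σ := by rw [← pow_add, hκ]
      push_cast
      calc 1 + (b : ℝ) * (l * (c * (n : ℝ) ^ σ * (n : ℝ) ^ μ)) = 1 + b * (l * c) * (n : ℝ) ^ κ := by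
            rw [e1]; ring
        _ ≤ (n : ℝ) ^ κ + b * (l * c) * (n : ℝ) ^ κ := by linarith
        _ = _ := by ring
  obtain ⟨n2, hn2⟩ := (hB.mul hK).eventually_lt
  refine ⟨max n1 n2, fun n hn hn0 => ⟨?_, ?_⟩⟩
  · exact hn1 n ((le_max_left _ _).trans hn) hn0
  · exact hn2 n ((le_max_right _ _).trans hn) hn0

end Pool.Agent.H12
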