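import Pool.Agent.H12.QA

/-!
# Quantitative obstruction theorem, part 2: the auxiliary polynomial
-/

set_option autoImplicit false

namespace Pool.Agent.H12

open Finset Matrix Pool.Agent.H301R2.TR Pool.Agent.Y928.QN

theorem aux_a {a b X : ℝ} (ha : a ^ 2 ≤ X) (hb : b ^ 2 ≤ X) : a * b ≤ X := by
  nlinarith [sq_nonneg (a - b)]

theorem aux_b {a b X : ℝ} (ha : (a ^ 2) ^ 2 < X) (hb : (b ^ 2) ^ 2 ≤ X) : a ^ 2 * b ^ 2 < X := by
  nlinarith [sq_nonneg (a ^ 2 - b ^ 2)]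

theorem aux_c {b R M K : ℝ} (hR : 1 ≤ R) (hK : 0 ≤ K) : 1 + b * R * M + K ≤ R * (1 + b * M + K) := by
  nlinarith

theorem aux_d {l R S : ℝ} (hR : 1 ≤ R) : 1 + l * R * S ≤ R * (1 + l * S) := by
  nlinarith

theorem aux_f {b C M : ℝ} (h : 0 ≤ C * M) : b * C * M ≤ (1 + b) * C * M := by
  nlinarith

theorem aux_g {a b : ℝ} (ha : 1 ≤ a) (hb : 0 ≤ b) : b ≤ a * b := by
  nlinarith

/-- The data of the quantitative theorem: `χ j p` is near to the exponential of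
`∑ ρ, x ρ j * y ρ p + ∑ i, γ i j * ω i p`, with `ω i p = α i p` for `i ∈ A`. -/
structure QData {w b l r : ℕ} (A : Finset (Fin w)) (Cx : ℝ) {F : Type} [Field F] [NumberField F]
    (φ : F →ₐ[ℚ] ℂ) (γ : Fin w → Fin b → F) (α : Fin w → Fin l → F) (χ : Fin b → Fin l → F)
    (x : Fin r → Fin b → ℂ) (y : Fin r → Fin l → ℂ) (ω : Fin w → Fin l → ℂ) (d : ℕ) (R0 ε : ℝ) :
    Prop where
  hd : 0 < d
  hR0 : 1 ≤ R0
  dγ : ∀ i j, IntD d 1 (γ i j)
  dα : ∀ i j, IntD d 1 (α i j)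
  dχ : ∀ i j, IntD d 1 (χ i j)
  bd : ∀ τ : F →ₐ[ℚ] ℂ,
      (∀ i j, ‖τ (γ i j)‖ ≤ R0) ∧ (∀ i j, ‖τ (α i j)‖ ≤ R0) ∧ (∀ i j, ‖τ (χ i j)‖ ≤ R0)
  hx : ∀ ρ j, ‖x ρ j‖ ≤ Cx
  hy : ∀ ρ p, ‖y ρ p‖ ≤ Cx
  hω : ∀ i p, ‖ω i p‖ ≤ Cx
  hγ : ∀ i j, ‖φ (γ i j)‖ ≤ Cx
  hα : ∀ i ∈ A, ∀ p, φ (α i p) = ω i p
  hχ : ∀ j p, ‖φ (χ j p) - Complex.exp (∑ ρ, x ρ j * y ρ p + ∑ i, φ (γ i j) * ω i p)‖ ≤ ε

/-- **Existence of an auxiliary polynomial with many zeros**, for perturbed data. -/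
theorem exists_auxQ {w b l r : ℕ} (A : Finset (Fin w)) (κ μ σ c Dg : ℕ) (Cx : ℝ) (hCx : 1 ≤ Cx)
    (hκ : μ + σ = κ) (hcount : (κ + 1) * (r + w) + 1 ≤ A.card * κ + b * μ)
    (hc : 1 ≤ c) :
    ∃ η : ℝ, 0 < η ∧ ∃ n0 : ℕ, ∀ n ≥ n0, ∀ (F : Type) [Field F] [NumberField F]
      (φ : F →ₐ[ℚ] ℂ), Module.finrank ℚ F ≤ Dg →
      ∀ (γ : Fin w → Fin b → F) (α : Fin w → Fin l → F) (χ : Fin b → Fin l → F)
      (x : Fin r → Fin b → ℂ) (y : Fin r → Fin l → ℂ) (ω : Fin w → Fin l → ℂ) (d : ℕ) (R0 : ℝ),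
      (d : ℝ) * R0 ≤ Real.exp (η * n) →
      QData A Cx φ γ α χ x y ω d R0 ((1 / 4 : ℝ) ^ (n ^ (κ + 1))) →
      ∃ p : JG (fun i => if i ∈ A then n ^ κ else 0) b (n ^ μ) → ℂ, p ≠ 0 ∧
      ∀ (t : Fin w → ℕ) (s : Fin l → ℕ), (∀ i, t i ≤ c * n ^ κ) → (∀ q, s q ≤ c * n ^ σ) →
        ∑ j, p j * entG (fun i j => φ (γ i j)) (fun i q => φ (α i q)) (fun j q => φ (χ j q))
          (fun i => (j.1 i : ℕ)) (fun i => (j.2 i : ℕ)) t s = 0 := by
  classical
  set C1 : ℝ := (1 + b) * Cx with hC1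
  set C2 : ℝ := (1 + l) * Cx with hC2
  have hC1' : 1 ≤ C1 := by
    have : (0 : ℝ) ≤ b := Nat.cast_nonneg _
    rw [hC1]; nlinarith
  have hC2' : 1 ≤ C2 := by
    have : (0 : ℝ) ≤ l := Nat.cast_nonneg _
    rw [hC2]; nlinarith
  have hC12 : 1 ≤ C1 * C2 := one_le_mul_of_one_le_of_one_le hC1' hC2'
  -- a bound for the exponentials
  set R2 : ℝ := Real.exp ((r + w) * (Cx * Cx)) + 1 with hR2
  have hR2' : 1 ≤ R2 := by
    have := Real.exp_pos ((r + w) * (Cx * Cx))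
    rw [hR2]; linarith
  obtain ⟨n0, hn0⟩ := growthQ b l r κ μ σ c Dg hκ (C1 * C2) hC12
    (fun n i => if i ∈ A then n ^ κ else 0) (by intro n i; split_ifs <;> simp)
  -- the weight of the heights
  set hw : ℕ := w * (c + 1) + b * (l * c) with hhw
  have hlog2 : 0 < Real.log 2 := Real.log_pos (by norm_num)
  set η : ℝ := Real.log 2 / (4 * ((hw + 1) * (Dg + 1))) with hη
  have hη0 : 0 < η := by rw [hη]; positivity
  -- `R2 ≤ exp (η n)` for large `n`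
  obtain ⟨n1, hn1⟩ := exists_nat_gt (Real.log R2 / η)
  refine ⟨η / 2, by positivity, max (max n0 2) (2 * n1), fun n hn => ?_⟩
  have hn0' : n0 ≤ n := ((le_max_left _ _).trans (le_max_left _ _)).trans hn
  have hn2 : 2 ≤ n := ((le_max_right _ _).trans (le_max_left _ _)).trans hn
  have hn1' : 2 * n1 ≤ n := (le_max_right _ _).trans hn
  intro F _ _ φ hDg γ α χ x y ω d R00 hdR00 hQ00
  have hR2n : R2 ≤ Real.exp (η / 2 * n) := by
    have h1 : Real.log R2 ≤ η * n1 := by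
      rw [div_lt_iff₀ hη0] at hn1
      linarith [mul_comm η (n1 : ℝ)]
    have h2 : (n1 : ℝ) ≤ n / 2 := by
      have : ((2 * n1 : ℕ) : ℝ) ≤ n := by exact_mod_cast hn1'
      push_cast at this
      linarith
    calc R2 = Real.exp (Real.log R2) := (Real.exp_log (by linarith)).symm
      _ ≤ _ := by
        apply Real.exp_le_exp.mpr
        calc Real.log R2 ≤ η * n1 := h1
          _ ≤ η * (n / 2) := mul_le_mul_of_nonneg_left h2 hη0.le
          _ = _ := by ring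
  set R0 : ℝ := R00 * R2 with hR0def
  have hdR : (d : ℝ) * R0 ≤ Real.exp (η * n) := by
    calc (d : ℝ) * R0 = (d * R00) * R2 := by rw [hR0def]; ring
      _ ≤ Real.exp (η / 2 * n) * Real.exp (η / 2 * n) :=
        mul_le_mul hdR00 hR2n (by linarith) (Real.exp_pos _).le
      _ = _ := by rw [← Real.exp_add]; congr 1; ring
  have hR00 := hQ00.hR0
  have hR02 : R2 ≤ R0 := aux_g hR00 (by linarith)
  have hR000 : R00 ≤ R0 := by rw [hR0def, mul_comm]; exact aux_g hR2' (by linarith)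
  have hR0 : 1 ≤ R0 := hR2'.trans hR02
  have hR0' : ∀ τ : F →ₐ[ℚ] ℂ,
      (∀ i j, ‖τ (γ i j)‖ ≤ R0) ∧ (∀ i j, ‖τ (α i j)‖ ≤ R0) ∧ (∀ i j, ‖τ (χ i j)‖ ≤ R0) :=
    fun τ => ⟨fun i j => ((hQ00.bd τ).1 i j).trans hR000,
      fun i j => ((hQ00.bd τ).2.1 i j).trans hR000, fun i j => ((hQ00.bd τ).2.2 i j).trans hR000⟩
  obtain ⟨hd, -, dγ, dα, dχ, -, hCx1, hCx2, hCx3, hCx4, hα, hχ⟩ := hQ00
  obtain ⟨hgrow, hgrow2⟩ := hn0 n hn0' (by omega)
  by_contra hcon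
  push Not at hcon
  set Kc : Fin w → ℕ := fun i => if i ∈ A then n ^ κ else 0 with hKc
  have hKc' : ∀ i, Kc i ≤ n ^ κ := by intro i; simp only [hKc]; split_ifs <;> simp
  set M := n ^ μ with hM
  set S := c * n ^ σ with hS
  set T := c * n ^ κ with hT
  set Q := n ^ (κ + 1) with hQ
  have hnpos : 0 < n := by omega
  obtain ⟨cc, hcc⟩ := exists_det_ne_zero (F := F) (J := JG Kc b M) (C := CG w l T S)
    (fun j cd => entG γ α χ (fun i => (j.1 i : ℕ)) (fun i => (j.2 i : ℕ)) cd.1.1 cd.1.2) (by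
      intro p hp
      by_contra hp0
      obtain ⟨t, s, ht, hs, hts⟩ := hcon (fun j => φ (p j)) (by
        intro h
        apply hp0
        funext j
        exact (map_eq_zero φ).mp (congrFun h j))
      apply hts
      have h1 := hp ⟨(t, s), ht, hs⟩
      have h2 := congrArg φ h1
      rw [map_zero, map_sum] at h2
      rw [← h2]
      apply Finset.sum_congr rfl
      intro j _
      rw [map_mul]
      congr 1
      exact (entG_map (φ : F →+* ℂ) γ α χ _ _ t s).symm)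
  apply hcc
  have hcpos : 1 ≤ c := hc
  have hMpos : 1 ≤ M := Nat.one_le_pow _ _ hnpos
  have hSpos : 1 ≤ S := Nat.succ_le_of_lt (Nat.mul_pos hcpos (Nat.pow_pos hnpos))
  -- separation of the heights
  have hsep : (((1 + b * R0 * M + (n ^ κ : ℕ)) ^ T * (1 + l * R0 * S) ^ (n ^ κ)) ^ w *
      (R0 ^ (l * (S * M))) ^ b) ≤
      BB w b l κ μ σ c n * R0 ^ (w * (T + n ^ κ) + b * (l * (S * M))) := by
    have e1 : (1 + b * R0 * (M : ℝ) + (n ^ κ : ℕ)) ≤ R0 * (1 + b * M + (n ^ κ : ℕ)) := by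
      exact aux_c hR0 (Nat.cast_nonneg _)
    have e2 : (1 + l * R0 * (S : ℝ)) ≤ R0 * (1 + l * S) := aux_d hR0
    have p1 : (0 : ℝ) ≤ 1 + b * R0 * (M : ℝ) + (n ^ κ : ℕ) := by positivity
    have p2 : (0 : ℝ) ≤ 1 + l * R0 * (S : ℝ) := by positivity
    calc (((1 + b * R0 * M + (n ^ κ : ℕ)) ^ T * (1 + l * R0 * S) ^ (n ^ κ)) ^ w *
      (R0 ^ (l * (S * M))) ^ b)
        ≤ (((R0 * (1 + b * M + (n ^ κ : ℕ))) ^ T * (R0 * (1 + l * S)) ^ (n ^ κ)) ^ w *
      (R0 ^ (l * (S * M))) ^ b) := by gcongr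
      _ = _ := by
        unfold BB
        rw [← hM, ← hS, ← hT, mul_pow R0, mul_pow R0, pow_add R0, mul_comm w, pow_mul R0 (T + n ^ κ) w,
          mul_comm b, pow_mul R0 (l * (S * M)) b, pow_add R0 T]
        ring
  have hBB1 : 1 ≤ BB w b l κ μ σ c n := by
    unfold BB
    have b1 : (1 : ℝ) ≤ (1 + b * ((n ^ μ : ℕ) : ℝ) + ((n ^ κ : ℕ) : ℝ)) ^ (c * n ^ κ) := by
      apply one_le_pow₀
      have : (0 : ℝ) ≤ b * ((n ^ μ : ℕ) : ℝ) := by positivity
      have : (0 : ℝ) ≤ ((n ^ κ : ℕ) : ℝ) := by positivity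
      linarith
    have b2 : (1 : ℝ) ≤ (1 + l * ((c * n ^ σ : ℕ) : ℝ)) ^ (n ^ κ) := by
      apply one_le_pow₀
      have : (0 : ℝ) ≤ l * ((c * n ^ σ : ℕ) : ℝ) := by positivity
      linarith
    exact one_le_pow₀ (one_le_mul_of_one_le_of_one_le b1 b2)
  have hhh : w * (T + n ^ κ) + b * (l * (S * M)) = hw * n ^ κ := by
    have e : n ^ σ * n ^ μ = n ^ κ := by rw [← pow_add, add_comm σ μ, hκ]
    have e1 : S * M = c * n ^ κ := by rw [hS, hM, mul_assoc, e]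
    rw [e1, hT, hhw]
    ring
  set hh := w * (T + n ^ κ) + b * (l * (S * M)) with hhdef
  have hd1 : (1 : ℝ) ≤ (d : ℝ) := by exact_mod_cast hd
  have hdR1 : 1 ≤ (d : ℝ) * R0 := one_le_mul_of_one_le_of_one_le hd1 hR0
  -- the factor with the heights
  have hheight : ∀ e : ℕ, e ≤ 4 * ((hw + 1) * (Dg + 1)) → ((d : ℝ) * R0) ^ (n ^ κ * e) ≤ 2 ^ Q := by
    intro e he
    have e3 : (2 : ℝ) ^ Q = Real.exp (Real.log 2 * (n : ℝ) ^ (κ + 1)) := by
      rw [Real.exp_mul, Real.exp_log (by norm_num)]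
      have : ((n : ℝ) ^ (κ + 1)) = ((n ^ (κ + 1) : ℕ) : ℝ) := by push_cast; rfl
      rw [this, Real.rpow_natCast]
    rw [e3]
    calc ((d : ℝ) * R0) ^ (n ^ κ * e)
        ≤ (Real.exp (η * n)) ^ (n ^ κ * e) := pow_le_pow_left₀ (by positivity) hdR _
      _ = Real.exp (((n ^ κ * e : ℕ) : ℝ) * (η * n)) := by rw [← Real.exp_nat_mul]
      _ ≤ _ := by
        apply Real.exp_le_exp.mpr
        push_cast
        have he' : (e : ℝ) ≤ 4 * ((hw + 1) * (Dg + 1)) := by exact_mod_cast he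
        have e5 : (e : ℝ) * η ≤ Real.log 2 := by
          calc (e : ℝ) * η ≤ (4 * ((hw + 1) * (Dg + 1))) * η :=
                mul_le_mul_of_nonneg_right he' hη0.le
            _ = Real.log 2 := by rw [hη]; field_simp
        calc (n : ℝ) ^ κ * e * (η * n) = (e * η) * (n ^ κ * n) := by ring
          _ ≤ Real.log 2 * (n ^ κ * n) := mul_le_mul_of_nonneg_right e5 (by positivity)
          _ = _ := by rw [pow_succ]
  refine det_vanish_pert φ (L := Fin r ⊕ Fin w) (J := JG Kc b M)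
    (fun j => Sum.elim (fun _ => 0) (fun i => (j.1 i : ℕ)))
    (fun j => Sum.elim (fun ρ => ∑ i, x ρ i * ((j.2 i : ℕ) : ℂ))
      (fun i => ∑ q, φ (γ i q) * ((j.2 q : ℕ) : ℂ)))
    (fun i => Sum.elim (fun _ => 0) (cc i).1.1)
    (fun i => Sum.elim (fun ρ => ∑ q, y ρ q * ((cc i).1.2 q : ℂ))
      (fun q => ∑ q', ω q q' * ((cc i).1.2 q' : ℂ)))
    (n ^ κ + T) Q (fun _ => C1 * M) (fun _ => C2 * S) ((C1 * C2) * (c * (n : ℝ) ^ κ))
    ?_ ?_ ?_ ?_ ?_ ?_ ?_ _ d hh hd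
    (((1 + b * R0 * M + (n ^ κ : ℕ)) ^ T * (1 + l * R0 * S) ^ (n ^ κ)) ^ w *
      (R0 ^ (l * (S * M))) ^ b)
    ?_ ?_ ?_ ?_ ?_ ?_ ?_
  · intro _
    have : (1 : ℝ) ≤ M := by exact_mod_cast hMpos
    exact one_le_mul_of_one_le_of_one_le hC1' this
  · intro _
    have : (1 : ℝ) ≤ S := by exact_mod_cast hSpos
    exact one_le_mul_of_one_le_of_one_le hC2' this
  · intro _
    apply le_of_eq
    have : (n : ℝ) ^ κ = (n : ℝ) ^ μ * (n : ℝ) ^ σ := by rw [← pow_add, hκ]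
    rw [hM, hS, this]; push_cast; ring
  · intro j i
    have hM0 : (0 : ℝ) ≤ M := Nat.cast_nonneg _
    have hj : ∀ i, (j.2 i : ℕ) ≤ M := fun i => Nat.lt_succ_iff.mp (j.2 i).2
    rcases i with ρ | i
    · refine (norm_natsum_le Cx M (x ρ) (fun i => (j.2 i : ℕ)) (hCx1 ρ) hj).trans ?_
      rw [hC1]
      have : 0 ≤ Cx * (M : ℝ) := by positivity
      exact aux_f this
    · refine (norm_natsum_le Cx M (fun q => φ (γ i q)) (fun i => (j.2 i : ℕ)) (hCx4 i) hj).trans ?_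
      rw [hC1]
      have : 0 ≤ Cx * (M : ℝ) := by positivity
      exact aux_f this
  · intro i' i
    have hS0 : (0 : ℝ) ≤ S := Nat.cast_nonneg _
    have hj : ∀ q, (cc i').1.2 q ≤ S := (cc i').2.2
    rcases i with ρ | i
    · refine (norm_natsum_le Cx S (y ρ) (cc i').1.2 (hCx2 ρ) hj).trans ?_
      rw [hC2]
      have : 0 ≤ Cx * (S : ℝ) := by positivity
      exact aux_f this
    · refine (norm_natsum_le Cx S (ω i) (cc i').1.2 (hCx3 i) hj).trans ?_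
      rw [hC2]
      have : 0 ≤ Cx * (S : ℝ) := by positivity
      exact aux_f this
  · intro j i' i
    rcases i with ρ | i
    · simp
    · have h1 : (j.1 i : ℕ) ≤ n ^ κ := (Nat.lt_succ_iff.mp (j.1 i).2).trans (hKc' i)
      have h2 : (cc i').1.1 i ≤ T := (cc i').2.1 i
      exact Nat.add_le_add h1 h2
  · positivity
  · -- B ≥ 1
    have b1 : (1 : ℝ) ≤ (1 + b * R0 * M + (n ^ κ : ℕ)) ^ T := by
      apply one_le_pow₀
      have : (0 : ℝ) ≤ b * R0 * M := by positivity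
      have : (0 : ℝ) ≤ ((n ^ κ : ℕ) : ℝ) := by positivity
      linarith
    have b2 : (1 : ℝ) ≤ (1 + l * R0 * S) ^ (n ^ κ) := by
      apply one_le_pow₀
      have : (0 : ℝ) ≤ l * R0 * S := by positivity
      linarith
    exact one_le_mul_of_one_le_of_one_le
      (one_le_pow₀ (one_le_mul_of_one_le_of_one_le b1 b2)) (one_le_pow₀ (one_le_pow₀ hR0))
  · intro j i'
    exact entG_int dγ dα dχ (n ^ κ) M T S
      (fun i => (Nat.lt_succ_iff.mp (j.1 i).2).trans (hKc' i))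
      (fun i => Nat.lt_succ_iff.mp (j.2 i).2) (cc i').2.1 (cc i').2.2
  · intro τ j i'
    obtain ⟨g1, g2, g3⟩ := hR0' τ
    have e1 := entG_map (τ : F →+* ℂ) γ α χ (fun i => (j.1 i : ℕ)) (fun i => (j.2 i : ℕ))
      (cc i').1.1 (cc i').1.2
    have e2 := entG_norm hR0 g1 g2 g3 (n ^ κ) M T S
      (k := fun i => (j.1 i : ℕ)) (m := fun i => (j.2 i : ℕ))
      (fun i => (Nat.lt_succ_iff.mp (j.1 i).2).trans (hKc' i))
      (fun i => Nat.lt_succ_iff.mp (j.2 i).2) (cc i').2.1 (cc i').2.2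
    exact (le_of_eq (congrArg norm e1)).trans e2
  · intro j i'
    obtain ⟨g1, g2, g3⟩ := hR0' φ
    have e1 := entG_map (φ : F →+* ℂ) γ α χ (fun i => (j.1 i : ℕ)) (fun i => (j.2 i : ℕ))
      (cc i').1.1 (cc i').1.2
    have e2 := entG_exp (fun i j => φ (γ i j)) (fun i q => φ (α i q))
      (fun j q => Complex.exp (∑ ρ, x ρ j * y ρ q + ∑ i, φ (γ i j) * ω i q))
      x y ω (fun _ _ => rfl) (fun i => (j.1 i : ℕ)) (fun i => (j.2 i : ℕ)) (cc i').1.1 (cc i').1.2 (by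
        intro i
        by_cases hi : i ∈ A
        · right; exact hα i hi
        · left
          have h1 : (j.1 i : ℕ) < Kc i + 1 := (j.1 i).2
          have h2 : Kc i = 0 := by rw [hKc]; simp [hi]
          omega)
    have hε0 : (0 : ℝ) ≤ (1 / 4 : ℝ) ^ Q := by positivity
    have hnear : ∀ j p, Near R0 ((1 / 4 : ℝ) ^ Q) (φ (χ j p))
        (Complex.exp (∑ ρ, x ρ j * y ρ p + ∑ i, φ (γ i j) * ω i p)) := by
      intro j p
      refine ⟨g3 j p, ?_, ?_⟩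
      · rw [Complex.norm_exp]
        have h1 : (∑ ρ, x ρ j * y ρ p + ∑ i, φ (γ i j) * ω i p).re ≤ (r + w) * (Cx * Cx) := by
          refine (Complex.re_le_norm _).trans ((norm_add_le _ _).trans ?_)
          have h2 : ‖∑ ρ, x ρ j * y ρ p‖ ≤ r * (Cx * Cx) := by
            refine (norm_sum_le _ _).trans ?_
            calc ∑ ρ, ‖x ρ j * y ρ p‖ ≤ ∑ _ρ : Fin r, Cx * Cx := by
                  apply Finset.sum_le_sum
                  intro ρ _
                  rw [norm_mul]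
                  exact mul_le_mul (hCx1 _ _) (hCx2 _ _) (norm_nonneg _) (by linarith)
              _ = _ := by simp
          have h3 : ‖∑ i, φ (γ i j) * ω i p‖ ≤ w * (Cx * Cx) := by
            refine (norm_sum_le _ _).trans ?_
            calc ∑ i, ‖φ (γ i j) * ω i p‖ ≤ ∑ _i : Fin w, Cx * Cx := by
                  apply Finset.sum_le_sum
                  intro i _
                  rw [norm_mul]
                  exact mul_le_mul (hCx4 _ _) (hCx3 _ _) (norm_nonneg _) (by linarith)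
              _ = _ := by simp
          linarith
        calc Real.exp _ ≤ Real.exp ((r + w) * (Cx * Cx)) := Real.exp_le_exp.mpr h1
          _ ≤ R2 := by rw [hR2]; linarith
          _ ≤ R0 := hR02
      · calc _ ≤ (1 / 4 : ℝ) ^ Q := hχ j p
          _ ≤ R0 * (1 / 4 : ℝ) ^ Q := aux_g hR0 hε0
    have e3 := entG_near (χ := fun j p => φ (χ j p)) (γ := fun i j => φ (γ i j))
      (α := fun i p => φ (α i p)) hR0 hε0 g1 g2 hnear (n ^ κ) M T S
      (k := fun i => (j.1 i : ℕ)) (m := fun i => (j.2 i : ℕ))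
      (fun i => (Nat.lt_succ_iff.mp (j.1 i).2).trans (hKc' i))
      (fun i => Nat.lt_succ_iff.mp (j.2 i).2) (cc i').2.1 (cc i').2.2
    refine le_trans (le_of_eq (congrArg norm (congrArg₂ (· - ·) e1 e2.symm))) (e3.trans ?_)
    -- the error
    have f1 : BB w b l κ μ σ c n * (1 + b * (l * ((S : ℝ) * (M : ℝ)))) ≤ 2 ^ Q ∧
        (BB w b l κ μ σ c n * (1 + b * (l * ((S : ℝ) * (M : ℝ))))) ^ 2 ≤ 2 ^ Q := by
      have h1 : 1 ≤ BB w b l κ μ σ c n * (1 + b * (l * ((S : ℝ) * (M : ℝ)))) := by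
        apply one_le_mul_of_one_le_of_one_le hBB1
        have : (0 : ℝ) ≤ b * (l * ((S : ℝ) * (M : ℝ))) := by positivity
        linarith
      exact ⟨(le_self_pow₀ h1 (by norm_num)).trans hgrow2.le, hgrow2.le⟩
    have f2 : (R0 ^ hh) ^ 2 ≤ 2 ^ Q := by
      calc (R0 ^ hh) ^ 2 ≤ (((d : ℝ) * R0) ^ hh) ^ 2 := by
            apply pow_le_pow_left₀ (by positivity)
            apply pow_le_pow_left₀ (by linarith)
            exact aux_g hd1 (by linarith)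
        _ = ((d : ℝ) * R0) ^ (n ^ κ * (hw * 2)) := by
            rw [← pow_mul, hhh]; congr 1; ring
        _ ≤ 2 ^ Q := hheight _ (by
          have h1 : hw ≤ (hw + 1) * (Dg + 1) := by
            calc hw ≤ hw + 1 := Nat.le_succ _
              _ = (hw + 1) * 1 := (mul_one _).symm
              _ ≤ _ := Nat.mul_le_mul_left _ (by omega)
          omega)
    have f3 : (0 : ℝ) < 2 ^ Q := by positivity
    set X1 := BB w b l κ μ σ c n * (1 + b * (l * ((S : ℝ) * (M : ℝ)))) with hX1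
    set X2 := R0 ^ hh with hX2
    have hX10 : 0 ≤ X1 := by rw [hX1]; positivity
    have hX20 : 0 ≤ X2 := by rw [hX2]; positivity
    have f4 : X1 * X2 ≤ 2 ^ Q := by
      exact aux_a f1.2 f2
    calc (((1 + b * R0 * M + (n ^ κ : ℕ)) ^ T * (1 + l * R0 * S) ^ (n ^ κ)) ^ w *
      (R0 ^ (l * (S * M))) ^ b) * (b * (l * (S * M)) * (1 / 4 : ℝ) ^ Q)
        ≤ (BB w b l κ μ σ c n * X2) * (b * (l * (S * M)) * (1 / 4 : ℝ) ^ Q) :=
          mul_le_mul_of_nonneg_right hsep (by positivity)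
      _ ≤ (BB w b l κ μ σ c n * X2) * ((1 + b * (l * (S * M))) * (1 / 4 : ℝ) ^ Q) := by
          apply mul_le_mul_of_nonneg_left _ (by positivity)
          apply mul_le_mul_of_nonneg_right _ hε0
          linarith
      _ = (X1 * X2) * (1 / 4 : ℝ) ^ Q := by rw [hX1]; ring
      _ ≤ 2 ^ Q * (1 / 4 : ℝ) ^ Q := mul_le_mul_of_nonneg_right f4 hε0
      _ = (1 / 2 : ℝ) ^ Q := by rw [← mul_pow]; norm_num
  · rw [card_JG]; positivity
  · rw [card_JG]
    have hcardL : Fintype.card (Fin r ⊕ Fin w) = r + w := by simp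
    rw [hcardL]
    have h1 : (n ^ κ) ^ A.card ≤ ∏ i, (Kc i + 1) := by
      have e : (n ^ κ) ^ A.card = ∏ i ∈ A, n ^ κ := by simp
      rw [e]
      calc ∏ i ∈ A, n ^ κ ≤ ∏ i ∈ A, (Kc i + 1) := by
            apply Finset.prod_le_prod'
            intro i hi
            rw [hKc]; simp [hi]
        _ ≤ ∏ i, (Kc i + 1) := by
            apply Finset.prod_le_prod_of_subset_of_one_le' (Finset.subset_univ _)
            intro i _ _
            omega
    have h2 : M ^ b ≤ (M + 1) ^ b := Nat.pow_le_pow_left (by omega) _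
    calc 2 * (n ^ (κ + 1)) ^ (r + w) = 2 * n ^ ((κ + 1) * (r + w)) := by rw [← pow_mul]
      _ ≤ n * n ^ ((κ + 1) * (r + w)) := by gcongr
      _ = n ^ ((κ + 1) * (r + w) + 1) := by rw [pow_succ]; ring
      _ ≤ n ^ (A.card * κ + b * μ) := Nat.pow_le_pow_right hnpos hcount
      _ = (n ^ κ) ^ A.card * M ^ b := by rw [hM, ← pow_mul, ← pow_mul, ← pow_add]; ring_nf
      _ ≤ _ := Nat.mul_le_mul h1 h2
  · have hcardL : Fintype.card (Fin r ⊕ Fin w) = r + w := by simp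
    have hNe : ((Fintype.card (JG Kc b M) : ℕ) : ℝ) =
        NN b μ (fun n i => if i ∈ A then n ^ κ else 0) n := by
      rw [card_JG]; rfl
    rw [hcardL, hNe]
    set N := NN b μ (fun n (i : Fin w) => if i ∈ A then n ^ κ else 0) n with hN
    have hCCe : (((r + w : ℕ) : ℝ) + 1) * (2 * E1 (n ^ κ + T) (C1 * C2 * (c * (n : ℝ) ^ κ))) ^ (r + w) =
        CC w r κ c (C1 * C2) n := rfl
    rw [hCCe]
    set CCn := CC w r κ c (C1 * C2) n with hCCn
    set D := Module.finrank ℚ F with hD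
    have hN1 : 1 ≤ N := by
      rw [← hNe, card_JG]
      have : 1 ≤ (∏ i, (Kc i + 1)) * (M + 1) ^ b := Nat.succ_le_of_lt (by positivity)
      exact_mod_cast this
    have hC0 : 0 ≤ CCn := by
      rw [← hCCe]
      have : 0 ≤ E1 (n ^ κ + T) (C1 * C2 * (c * (n : ℝ) ^ κ)) := by
        have := E1_one_le (n ^ κ + T) (C1 * C2 * (c * (n : ℝ) ^ κ)) (by positivity)
        linarith
      positivity
    set BBn := BB w b l κ μ σ c n with hBBn
    set B0 := (((1 + b * R0 * M + (n ^ κ : ℕ)) ^ T * (1 + l * R0 * S) ^ (n ^ κ)) ^ w *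
      (R0 ^ (l * (S * M))) ^ b) with hB0
    have hB00 : 0 ≤ B0 := by rw [hB0]; positivity
    have k1 : 2 * N * CCn * ((d : ℝ) ^ hh) ^ D * (N * B0) ^ D ≤
        (2 * N * CCn * (N * BBn) ^ Dg) * (((d : ℝ) * R0) ^ hh) ^ Dg := by
      calc 2 * N * CCn * ((d : ℝ) ^ hh) ^ D * (N * B0) ^ D
          ≤ 2 * N * CCn * ((d : ℝ) ^ hh) ^ D * (N * (BBn * R0 ^ hh)) ^ D := by
            gcongr
        _ = (2 * N * CCn) * (((N * BBn) ^ D) * (((d : ℝ) * R0) ^ hh) ^ D) := by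
            rw [mul_pow (d : ℝ) R0 hh, mul_pow ((d : ℝ) ^ hh) (R0 ^ hh) D, ← mul_assoc N,
              mul_pow (N * BBn) (R0 ^ hh) D]
            ring
        _ ≤ (2 * N * CCn) * (((N * BBn) ^ Dg) * (((d : ℝ) * R0) ^ hh) ^ Dg) := by
            have e2 : (N * BBn) ^ D ≤ (N * BBn) ^ Dg :=
              pow_le_pow_right₀ (one_le_mul_of_one_le_of_one_le hN1 hBB1) hDg
            have e3 : (((d : ℝ) * R0) ^ hh) ^ D ≤ (((d : ℝ) * R0) ^ hh) ^ Dg :=
              pow_le_pow_right₀ (one_le_pow₀ hdR1) hDg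
            have e4 : (0 : ℝ) ≤ (((d : ℝ) * R0) ^ hh) ^ D := by positivity
            have e5 : (0 : ℝ) ≤ (N * BBn) ^ Dg := by positivity
            have e6 : (0 : ℝ) ≤ 2 * N * CCn := by positivity
            exact mul_le_mul_of_nonneg_left (mul_le_mul e2 e3 e4 e5) e6
        _ = _ := by ring
    have k0 : 0 ≤ 2 * N * CCn * ((d : ℝ) ^ hh) ^ D * (N * B0) ^ D := by positivity
    have k2 : (((((d : ℝ) * R0) ^ hh) ^ Dg) ^ 2) ^ 2 ≤ 2 ^ Q := by
      calc (((((d : ℝ) * R0) ^ hh) ^ Dg) ^ 2) ^ 2 = ((d : ℝ) * R0) ^ (n ^ κ * (hw * Dg * 4)) := by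
            rw [← pow_mul, ← pow_mul, ← pow_mul, hhh]; congr 1; ring
        _ ≤ 2 ^ Q := hheight _ (by
          have h1 : hw * Dg ≤ (hw + 1) * (Dg + 1) := Nat.mul_le_mul (by omega) (by omega)
          omega)
    set G1 := 2 * N * CCn * (N * BBn) ^ Dg with hG1
    set G2 := (((d : ℝ) * R0) ^ hh) ^ Dg with hG2
    have hG10 : 0 ≤ G1 := by rw [hG1]; positivity
    have hG20 : 0 ≤ G2 := by rw [hG2]; positivity
    have k3 : (G1 ^ 2) ^ 2 < 2 ^ Q := hgrow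
    calc (2 * N * CCn * ((d : ℝ) ^ hh) ^ D * (N * B0) ^ D) ^ 2 ≤ (G1 * G2) ^ 2 :=
          pow_le_pow_left₀ k0 k1 2
      _ = G1 ^ 2 * G2 ^ 2 := by ring
      _ < 2 ^ Q := by
        exact aux_b k3 k2

end Pool.Agent.H12
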