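import Pool.Agent.H12.QB
import Pool.Graph.R_seed8.H335R2.Obs.Final

/-!
# Quantitative obstruction theorem, part 3

The parametric linear subgroup theorem for algebraic data which are only near to the values of the
exponential function.
-/

set_option autoImplicit false

namespace Pool.Agent.H12

open Finset Module Pool.Agent.H301R2.TR Pool.Agent.H335R2.Obs

/-- **Quantitative obstruction theorem.** The constants `η`, `n0` depend on the dimensions, a bound
for the analytic data and a bound for the degree of the number field only. -/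
theorem obstructionQ {w b l r : ℕ} (A : Finset (Fin w)) (κ μ σ Dg : ℕ) (Cx : ℝ) (hCx : 1 ≤ Cx)
    (hκ : μ + σ = κ) (hcount : (κ + 1) * (r + w) + 1 ≤ A.card * κ + b * μ) :
    ∃ η : ℝ, 0 < η ∧ ∃ n0 : ℕ, ∀ n ≥ n0, ∀ (F : Type) [Field F] [NumberField F]
      (φ : F →ₐ[ℚ] ℂ), Module.finrank ℚ F ≤ Dg →
      ∀ (γ : Fin w → Fin b → F) (α : Fin w → Fin l → F) (χ : Fin b → Fin l → F)
      (x : Fin r → Fin b → ℂ) (y : Fin r → Fin l → ℂ) (ω : Fin w → Fin l → ℂ) (d : ℕ) (R0 : ℝ),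
      (d : ℝ) * R0 ≤ Real.exp (η * n) →
      QData A Cx φ γ α χ x y ω d R0 ((1 / 4 : ℝ) ^ (n ^ (κ + 1))) →
      (∀ j p, φ (χ j p) ≠ 0) →
    ∃ (Af' : Submodule ℂ (Fin w → ℂ)) (Rm' : AddSubgroup (Fin b → ℤ))
      (W0 : Submodule ℂ (Fin w → ℂ)) (G0 : AddSubgroup (Fin l → ℤ)),
      (∀ a ∈ Af', ∀ i ∉ A, a i = 0) ∧ ¬ (Af' = ⊥ ∧ Rm' = ⊥) ∧
      (∀ c, c ∈ W0 ↔ (∀ a ∈ Af', ∑ i, a i * c i = 0) ∧
        ∀ m ∈ Rm', ∑ j, (m j : ℂ) * ∑ i, c i * φ (γ i j) = 0) ∧
      (∀ s, s ∈ G0 ↔ (∀ a ∈ Af', ∑ i, a i * ∑ p, φ (α i p) * (s p : ℂ) = 0) ∧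
        ∀ m ∈ Rm', ∏ j, (∏ p, φ (χ j p) ^ s p) ^ m j = 1) ∧
      ((w - finrank ℂ W0) * κ + (l - finrank ℤ G0) * σ < finrank ℂ Af' * κ + finrank ℤ Rm' * μ ∨
        ((w - finrank ℂ W0) * κ + (l - finrank ℤ G0) * σ =
          finrank ℂ Af' * κ + finrank ℤ Rm' * μ ∧ w - finrank ℂ W0 = 0 ∧
            l - finrank ℤ G0 = 0)) := by
  classical
  set N := A.card + b with hN
  set C := 2 ^ ((N + 1) * N) with hC
  have hC1 : 1 ≤ C := Nat.one_le_two_pow
  obtain ⟨η, hη, n0, hn0⟩ := exists_auxQ A κ μ σ (N * (w + 1) * (C + 1) + 1) Dg Cx hCx hκ hcount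
    (r := r) (l := l) (by omega)
  refine ⟨η, hη, max n0 (C + 1), fun n hn F _ _ φ hDg γ α χ x y ω d R0 hdR hQ hχ0 => ?_⟩
  have hn' : C + 1 ≤ n := (le_max_right _ _).trans hn
  obtain ⟨p, hp, hpv⟩ := hn0 n ((le_max_left _ _).trans hn) F φ hDg γ α χ x y ω d R0 hdR hQ
  have hn1 : 1 ≤ n := by omega
  obtain ⟨Af', Rm', W0, G0, h1, h2, h3, h4, l', q', h5, h6, h7, h8⟩ :=
    key_ineq A (fun i j => φ (γ i j)) (fun i q => φ (α i q)) (fun j q => φ (χ j q)) zeg hχ0
      (n ^ κ) (n ^ μ) ((w + 1) * (C + 1) * n ^ κ) ((w + 1) * (C + 1) * n ^ σ)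
      (Nat.one_le_pow _ _ hn1) (Nat.one_le_pow _ _ hn1) p
      (fun j i => (j.1 i : ℕ)) (fun j i => (j.2 i : ℕ))
      (by
        intro j i hi
        have : (j.1 i : ℕ) < (if i ∈ A then n ^ κ else 0) + 1 := (j.1 i).2
        rw [if_neg hi] at this
        omega)
      (by
        intro j j' h h'
        apply Prod.ext
        · funext i; exact Fin.ext (congrFun h i)
        · funext i; exact Fin.ext (congrFun h' i))
      hp
      (by
        intro j i
        have : (j.1 i : ℕ) < (if i ∈ A then n ^ κ else 0) + 1 := (j.1 i).2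
        split_ifs at this <;> omega)
      (by
        intro j i
        have := (j.2 i).2
        omega)
      (by
        intro t s ht hs
        apply hpv t s
        · intro i
          refine (ht i).trans ?_
          rw [← hN]
          calc N * ((w + 1) * (C + 1) * n ^ κ) = N * (w + 1) * (C + 1) * n ^ κ := by ring
            _ ≤ _ := Nat.mul_le_mul_right _ (Nat.le_succ _)
        · intro q
          refine (hs q).trans ?_
          rw [← hN]
          calc N * ((w + 1) * (C + 1) * n ^ σ) = N * (w + 1) * (C + 1) * n ^ σ := by ring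
            _ ≤ _ := Nat.mul_le_mul_right _ (Nat.le_succ _))
  refine ⟨Af', Rm', W0, G0, h1, h2, h3, h4, ?_⟩
  have h9 : ((C + 1) * n ^ σ) ^ q' * ((C + 1) * n ^ κ) ^ l' ≤
      C * ((n ^ κ) ^ finrank ℂ Af' * (n ^ μ) ^ finrank ℤ Rm') := by
    refine le_trans ?_ h8
    apply Nat.mul_le_mul
    · apply Nat.pow_le_pow_left
      calc (C + 1) * n ^ σ = 1 * ((C + 1) * n ^ σ) := (one_mul _).symm
        _ ≤ (w + 1) * ((C + 1) * n ^ σ) := Nat.mul_le_mul_right _ (by omega)
        _ = (w + 1) * (C + 1) * n ^ σ := by ring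
        _ ≤ _ := Nat.le_succ _
    · rcases Nat.eq_zero_or_pos l' with h0 | h0
      · rw [h0, pow_zero, pow_zero]
      · apply Nat.pow_le_pow_left
        have h10 : (C + 1) * n ^ κ ≤ (w + 1) * (C + 1) * n ^ κ / l' := by
          rw [Nat.le_div_iff_mul_le h0]
          calc (C + 1) * n ^ κ * l' ≤ (C + 1) * n ^ κ * (w + 1) := Nat.mul_le_mul_left _ (by omega)
            _ = _ := by ring
        omega
  have h10 := final_arith (κ := κ) (μ := μ) (σ := σ) hC1 (by omega) (by omega) h9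
  have h11 : w - finrank ℂ W0 ≤ l' := by omega
  have h12 : l - finrank ℤ G0 ≤ q' := by omega
  have h13 : (w - finrank ℂ W0) * κ ≤ l' * κ := Nat.mul_le_mul_right _ h11
  have h14 : (l - finrank ℤ G0) * σ ≤ q' * σ := Nat.mul_le_mul_right _ h12
  rcases h10 with h10 | ⟨h10, h15, h16⟩
  · left; omega
  · rcases Nat.lt_or_ge ((w - finrank ℂ W0) * κ + (l - finrank ℤ G0) * σ)
      (finrank ℂ Af' * κ + finrank ℤ Rm' * μ) with h17 | h17
    · exact Or.inl h17
    · right
      refine ⟨by omega, by omega, by omega⟩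

end Pool.Agent.H12
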