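import Pool.Agent.H12.QC
import Pool.Graph.R_pool_sql_team_seeded_1acbe0a2.Y928.QN.Rel

/-!
# Quantitative obstruction theorem, part 4: sizes of algebraic numbers
-/

set_option autoImplicit false

namespace Pool.Agent.H12

open Finset Module Pool.Agent.H301R2.TR Pool.Agent.H335R2.Obs Pool.Agent.Y928.QN

/-- `z` has a denominator `≤ T` and all its conjugates have absolute value `≤ T` -/
def Sz {F : Type} [Field F] [NumberField F] (T : ℝ) (z : F) : Prop :=
  ∃ d : ℕ, 0 < d ∧ (d : ℝ) ≤ T ∧ IntD d 1 z ∧ ∀ σ : F →ₐ[ℚ] ℂ, ‖σ z‖ ≤ T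

theorem intD_mul {F : Type} [Field F] {d e : ℕ} {z : F} (h : IntD d 1 z) : IntD (e * d) 1 z := by
  unfold IntD at h ⊢
  rw [pow_one] at h ⊢
  have e1 : (((e * d : ℕ) : F) * z) = (e : F) * ((d : F) * z) := by push_cast; ring
  rw [e1]
  exact (isIntegral_natCast' e).mul h

section

variable {F : Type} [Field F] [NumberField F]

theorem Sz.mono {T T' : ℝ} {z : F} (h : Sz T z) (hT : T ≤ T') : Sz T' z := by
  obtain ⟨d, h1, h2, h3, h4⟩ := h
  exact ⟨d, h1, h2.trans hT, h3, fun σ => (h4 σ).trans hT⟩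

theorem Sz.one_le {T : ℝ} {z : F} (h : Sz T z) : 1 ≤ T := by
  obtain ⟨d, h1, h2, -, -⟩ := h
  have : (1 : ℝ) ≤ d := by exact_mod_cast h1
  linarith

theorem Sz.mul {T T' : ℝ} {z z' : F} (h : Sz T z) (h' : Sz T' z') : Sz (T * T') (z * z') := by
  have hT := h.one_le
  have hT' := h'.one_le
  obtain ⟨d, h1, h2, h3, h4⟩ := h
  obtain ⟨d', h1', h2', h3', h4'⟩ := h'
  refine ⟨d * d', Nat.mul_pos h1 h1', ?_, ?_, fun σ => ?_⟩
  · push_cast
    exact mul_le_mul h2 h2' (Nat.cast_nonneg _) (by linarith)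
  · unfold IntD at h3 h3' ⊢
    rw [pow_one] at h3 h3' ⊢
    have e1 : (((d * d' : ℕ) : F) * (z * z')) = ((d : F) * z) * ((d' : F) * z') := by
      push_cast; ring
    rw [e1]
    exact h3.mul h3'
  · rw [map_mul, norm_mul]
    exact mul_le_mul (h4 σ) (h4' σ) (norm_nonneg _) (by linarith)

theorem Sz.neg {T : ℝ} {z : F} (h : Sz T z) : Sz T (-z) := by
  obtain ⟨d, h1, h2, h3, h4⟩ := h
  refine ⟨d, h1, h2, ?_, fun σ => ?_⟩
  · unfold IntD at h3 ⊢
    rw [mul_neg]
    exact h3.neg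
  · rw [map_neg, norm_neg]; exact h4 σ

theorem Sz.of_int {T : ℝ} (hT : 1 ≤ T) (n : ℤ) (hn : |(n : ℝ)| ≤ T) : Sz T (n : F) := by
  refine ⟨1, one_pos, by simpa using hT, ?_, fun σ => ?_⟩
  · unfold IntD
    simp only [Nat.cast_one, one_pow, one_mul]
    exact isIntegral_algebraMap (R := ℤ) (A := F) (x := n)
  · rw [map_intCast, Complex.norm_intCast]
    exact hn

theorem Sz.one {T : ℝ} (hT : 1 ≤ T) : Sz T (1 : F) := by
  have := Sz.of_int (F := F) hT 1 (by simpa using hT)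
  simpa using this

theorem Sz.zero {T : ℝ} (hT : 1 ≤ T) : Sz T (0 : F) := by
  have := Sz.of_int (F := F) hT 0 (by simp; linarith)
  simpa using this

theorem Sz.pow {T : ℝ} {z : F} (h : Sz T z) (k : ℕ) : Sz (T ^ k) (z ^ k) := by
  induction k with
  | zero => simpa using Sz.one (F := F) (T := 1) le_rfl
  | succ k ih =>
    rw [pow_succ, pow_succ]
    exact ih.mul h

end

/-- the size of a number which is a root of a polynomial with small coefficients -/
theorem _root_.Pool.Agent.Y928.QN.AlgHt.sz {D H : ℕ} {x : ℂ} (h : AlgHt D H x) {F : Type} [Field F]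
    [NumberField F] (φ : F →ₐ[ℚ] ℂ) (w : F) (hw : φ w = x) : Sz ((H : ℝ) + 1) w := by
  obtain ⟨d, h1, h2, h3, h4⟩ := h.lift φ w hw
  refine ⟨d, h1, ?_, h3, h4⟩
  have : (d : ℝ) ≤ H := by exact_mod_cast h2
  linarith

theorem _root_.Pool.Agent.Y928.QN.AlgHt.inv {D H : ℕ} {x : ℂ} (h : AlgHt D H x) (hx : x ≠ 0) :
    AlgHt D H x⁻¹ := by
  obtain ⟨P, hP, hdeg, hcoef, hroot⟩ := h
  refine ⟨P.reverse, ?_, (Polynomial.reverse_natDegree_le P).trans hdeg, ?_, ?_⟩
  · intro h0
    rw [Polynomial.reverse_eq_zero] at h0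
    exact hP h0
  · intro i
    rw [Polynomial.coeff_reverse]
    exact hcoef _
  · haveI hinv : Invertible x := invertibleOfNonzero hx
    have h2 := Polynomial.eval₂_reverse_eq_zero_iff (algebraMap ℤ ℂ) x P
    rw [Polynomial.aeval_def] at hroot ⊢
    have h3 := h2.mpr hroot
    rw [invOf_eq_inv] at h3
    exact h3

/-- number fields generated by algebraic numbers of bounded degree -/
theorem exists_field_fam (D : ℕ) : ∀ (N : ℕ) (z : Fin N → ℂ), (∀ i, ∃ H, AlgHt D H (z i)) →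
    ∃ (F : Type) (_ : Field F) (_ : NumberField F) (φ : F →ₐ[ℚ] ℂ),
      Module.finrank ℚ F ≤ D ^ N ∧ ∀ i, ∃ w, φ w = z i := by
  classical
  have key : ∀ (N : ℕ) (z : Fin N → ℂ), (∀ i, ∃ H, AlgHt D H (z i)) →
      ∃ K : IntermediateField ℚ ℂ, FiniteDimensional ℚ K ∧ Module.finrank ℚ K ≤ D ^ N ∧
        ∀ i, z i ∈ K := by
    intro N
    induction N with
    | zero =>
      intro z _
      refine ⟨⊥, inferInstance, by simp [IntermediateField.finrank_bot], fun i => i.elim0⟩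
    | succ N ih =>
      intro z hz
      obtain ⟨K, hK1, hK2, hK3⟩ := ih (fun i => z i.castSucc) (fun i => hz _)
      obtain ⟨H, hH⟩ := hz (Fin.last N)
      obtain ⟨f, g⟩ := adjoin_finrank_le hH
      refine ⟨K ⊔ IntermediateField.adjoin ℚ {z (Fin.last N)}, inferInstance, ?_, ?_⟩
      · calc Module.finrank ℚ ↥(K ⊔ IntermediateField.adjoin ℚ {z (Fin.last N)})
            ≤ Module.finrank ℚ K * Module.finrank ℚ
                ↥(IntermediateField.adjoin ℚ {z (Fin.last N)}) :=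
              IntermediateField.finrank_sup_le _ _
          _ ≤ D ^ N * D := Nat.mul_le_mul hK2 f
          _ = _ := (pow_succ D N).symm
      · intro i
        refine Fin.lastCases ?_ (fun j => ?_) i
        · exact (le_sup_right : _ ≤ K ⊔ IntermediateField.adjoin ℚ {z (Fin.last N)})
            (IntermediateField.subset_adjoin ℚ _ (Set.mem_singleton _))
        · exact (le_sup_left : K ≤ K ⊔ IntermediateField.adjoin ℚ {z (Fin.last N)}) (hK3 j)
  intro N z hz
  obtain ⟨K, hK1, hK2, hK3⟩ := key N z hz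
  have hnf : NumberField K := by
    refine @NumberField.mk _ _ ?_ ?_
    · infer_instance
    · convert hK1
  refine ⟨K, inferInstance, hnf, (algebraMap K ℂ).toRatAlgHom, ?_, fun i => ⟨⟨_, hK3 i⟩, rfl⟩⟩
  convert hK2

end Pool.Agent.H12
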