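import Pool.Agent.H12.QD

/-!
# Quantitative obstruction theorem, part 5: the form used in the applications
-/

set_option autoImplicit false

namespace Pool.Agent.H12

open Finset Module Pool.Agent.H301R2.TR Pool.Agent.H335R2.Obs Pool.Agent.Y928.QN

theorem eq_bot_of_finrank_int {n : ℕ} (R : AddSubgroup (Fin n → ℤ)) (h : finrank ℤ R = 0) :
    R = ⊥ := by
  obtain ⟨E, hE1, hE2⟩ := finrank_toInt R
  have h9 : (univ \ E).card = 0 := by omega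
  rw [Finset.card_eq_zero, Finset.sdiff_eq_empty_iff_subset] at h9
  rw [eq_bot_iff]
  intro m hm
  rw [AddSubgroup.mem_bot]
  exact hE2 m hm (fun i hi => absurd (h9 (Finset.mem_univ i)) hi)

theorem prod_sz {F : Type} [Field F] [NumberField F] {ι : Type} [Fintype ι] (z : ι → F) (T : ℝ)
    (h : ∀ i, Sz T (z i)) :
    ∃ d : ℕ, 0 < d ∧ (d : ℝ) ≤ T ^ Fintype.card ι ∧ ∀ i, IntD d 1 (z i) := by
  classical
  choose d h1 h2 h3 h4 using h
  refine ⟨∏ i, d i, Finset.prod_pos fun i _ => h1 i, ?_, fun i => ?_⟩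
  · push_cast
    calc ∏ i, (d i : ℝ) ≤ ∏ _i : ι, T :=
          Finset.prod_le_prod (fun i _ => Nat.cast_nonneg _) fun i _ => h2 i
      _ = _ := by rw [Finset.prod_const, Finset.card_univ]
  · rw [← Finset.prod_erase_mul _ _ (Finset.mem_univ i)]
    exact intD_mul (h3 i)

/-- **Quantitative obstruction theorem**, second form. -/
theorem QT {w b l r : ℕ} (A : Finset (Fin w)) (κ μ σ Dg : ℕ) (Cx : ℝ) (hCx : 1 ≤ Cx)
    (hκ : μ + σ = κ) (hμ : 1 ≤ μ) (hcount : (κ + 1) * (r + w) + 1 ≤ A.card * κ + b * μ) :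
    ∃ η : ℝ, 0 < η ∧ ∃ n0 : ℕ, ∀ n ≥ n0, ∀ (F : Type) [Field F] [NumberField F]
      (φ : F →ₐ[ℚ] ℂ), Module.finrank ℚ F ≤ Dg →
      ∀ (γ : Fin w → Fin b → F) (α : Fin w → Fin l → F) (χ : Fin b → Fin l → F)
      (x : Fin r → Fin b → ℂ) (y : Fin r → Fin l → ℂ) (ω : Fin w → Fin l → ℂ),
      (∀ i j, Sz (Real.exp (η * n)) (γ i j)) → (∀ i p, Sz (Real.exp (η * n)) (α i p)) →
      (∀ j p, Sz (Real.exp (η * n)) (χ j p)) →
      (∀ ρ j, ‖x ρ j‖ ≤ Cx) → (∀ ρ p, ‖y ρ p‖ ≤ Cx) → (∀ i p, ‖ω i p‖ ≤ Cx) →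
      (∀ i j, ‖φ (γ i j)‖ ≤ Cx) → (∀ i ∈ A, ∀ p, φ (α i p) = ω i p) →
      (∀ j p, ‖φ (χ j p) - Complex.exp (∑ ρ, x ρ j * y ρ p + ∑ i, φ (γ i j) * ω i p)‖ ≤
        (1 / 4 : ℝ) ^ (n ^ (κ + 1))) →
      (∀ j p, φ (χ j p) ≠ 0) →
    ∃ (Af : Submodule ℂ (Fin w → ℂ)) (Rm : AddSubgroup (Fin b → ℤ))
      (G0 : AddSubgroup (Fin l → ℤ)),
      (∀ a ∈ Af, ∀ i ∉ A, a i = 0) ∧
      (∀ s, s ∈ G0 ↔ (∀ a ∈ Af, ∑ i, a i * ∑ p, φ (α i p) * (s p : ℂ) = 0) ∧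
        ∀ m ∈ Rm, ∏ j, (∏ p, φ (χ j p) ^ s p) ^ m j = 1) ∧
      ∀ N : Submodule ℂ (Fin b → ℂ),
        (∀ m ∈ kSpan ℂ Rm, (fun i => ∑ j, φ (γ i j) * m j) ∈ Af → m ∈ N) →
          ((l - finrank ℤ G0) + finrank ℤ Rm) * σ < finrank ℂ N * κ := by
  classical
  obtain ⟨η, hη, n0, hn0⟩ := obstructionQ (w := w) (b := b) (l := l) (r := r) A κ μ σ Dg Cx hCx
    hκ hcount
  set K : ℕ := (w * b + w * l + b * l) + 1 with hK
  refine ⟨η / K, by positivity, n0, fun n hn F _ _ φ hDg γ α χ x y ω sγ sα sχ hx hy hω hγ hα hχ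
    hχ0 => ?_⟩
  set T : ℝ := Real.exp (η / K * n) with hT
  have hT1 : 1 ≤ T := Real.one_le_exp (by positivity)
  obtain ⟨d1, hd1, hd1', hd1''⟩ := prod_sz (fun i : Fin w × Fin b => γ i.1 i.2) T fun i => sγ _ _
  obtain ⟨d2, hd2, hd2', hd2''⟩ := prod_sz (fun i : Fin w × Fin l => α i.1 i.2) T fun i => sα _ _
  obtain ⟨d3, hd3, hd3', hd3''⟩ := prod_sz (fun i : Fin b × Fin l => χ i.1 i.2) T fun i => sχ _ _
  simp only [Fintype.card_prod, Fintype.card_fin] at hd1' hd2' hd3'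
  obtain ⟨Af, Rm, W0, G0, h1, h2, h3, h4, h5⟩ := hn0 n hn F φ hDg γ α χ x y ω (d1 * d2 * d3) T
    (by
      push_cast
      calc (d1 : ℝ) * d2 * d3 * T ≤ T ^ (w * b) * T ^ (w * l) * T ^ (b * l) * T := by gcongr
        _ = T ^ K := by rw [← pow_add, ← pow_add, ← pow_succ]
        _ = Real.exp (η * n) := by
          rw [hT, ← Real.exp_nat_mul]
          congr 1
          have : (K : ℝ) ≠ 0 := by rw [hK]; positivity
          field_simp)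
    { hd := Nat.mul_pos (Nat.mul_pos hd1 hd2) hd3
      hR0 := hT1
      dγ := fun i j => by
        have := intD_mul (e := d2 * d3) (hd1'' (i, j))
        have e1 : d2 * d3 * d1 = d1 * d2 * d3 := by ring
        rwa [e1] at this
      dα := fun i j => by
        have := intD_mul (e := d1 * d3) (hd2'' (i, j))
        have e1 : d1 * d3 * d2 = d1 * d2 * d3 := by ring
        rwa [e1] at this
      dχ := fun i j => by
        have := intD_mul (e := d1 * d2) (hd3'' (i, j))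
        exact this
      bd := fun τ => ⟨fun i j => (sγ i j).choose_spec.2.2.2 τ,
        fun i j => (sα i j).choose_spec.2.2.2 τ, fun i j => (sχ i j).choose_spec.2.2.2 τ⟩
      hx := hx
      hy := hy
      hω := hω
      hγ := hγ
      hα := hα
      hχ := hχ } hχ0
  refine ⟨Af, Rm, G0, h1, h4, fun N hN => ?_⟩
  have h6 := codim_ge (fun i j => φ (γ i j)) Af Rm W0 h3 N hN
  set a := finrank ℂ Af
  set ρ := finrank ℤ Rm
  set δ := w - finrank ℂ W0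
  set t := finrank ℂ N
  set g := l - finrank ℤ G0
  have h7 : a * κ + ρ * κ ≤ δ * κ + t * κ := by
    calc a * κ + ρ * κ = (a + ρ) * κ := by ring
      _ ≤ (δ + t) * κ := Nat.mul_le_mul_right _ h6
      _ = _ := by ring
  have h8 : ρ * κ = ρ * μ + ρ * σ := by rw [← hκ]; ring
  rcases h5 with h5 | ⟨h5, h9, h10⟩
  · calc (g + ρ) * σ = g * σ + ρ * σ := by ring
      _ < t * κ := by omega
  · exfalso
    apply h2
    rw [h9, h10] at h5
    have h11 : a * κ = 0 ∧ ρ * μ = 0 := by omega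
    have ha : a = 0 := by
      rcases Nat.mul_eq_zero.mp h11.1 with h | h
      · exact h
      · omega
    have hρ : ρ = 0 := by
      rcases Nat.mul_eq_zero.mp h11.2 with h | h
      · exact h
      · omega
    exact ⟨Submodule.finrank_eq_zero.mp ha, eq_bot_of_finrank_int Rm hρ⟩

/-- the choice of the parameter `n` at the scale `H` -/
theorem choose_n (η : ℝ) (hη : 0 < η) (n0 κ k : ℕ) : ∃ C : ℝ, 0 < C ∧ ∀ H : ℕ, 3 ≤ H →
    ∃ n : ℕ, n0 ≤ n ∧ (H : ℝ) ^ k ≤ Real.exp (η * n) ∧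
      Real.exp (-(C * Real.log H ^ (κ + 1))) ≤ (1 / 4 : ℝ) ^ (n ^ (κ + 1)) := by
  set c : ℝ := n0 + k / η + 1 with hc
  have hc0 : 0 < c := by positivity
  refine ⟨Real.log 4 * c ^ (κ + 1), by
    have : 0 < Real.log 4 := Real.log_pos (by norm_num)
    positivity, fun H hH => ?_⟩
  have hH3 : (3 : ℝ) ≤ H := by exact_mod_cast hH
  have hH0 : (0 : ℝ) < H := by linarith
  have hlog : 1 ≤ Real.log H := by
    rw [Real.le_log_iff_exp_le hH0]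
    have := Real.exp_one_lt_d9
    linarith
  refine ⟨⌊c * Real.log H⌋₊, ?_, ?_, ?_⟩
  · apply Nat.le_floor
    have h1 : (n0 : ℝ) ≤ c := by
      have : 0 ≤ (k : ℝ) / η := by positivity
      rw [hc]; linarith
    nlinarith
  · have h1 : c * Real.log H - 1 < (⌊c * Real.log H⌋₊ : ℝ) := Nat.sub_one_lt_floor _
    have h2 : (k : ℝ) * Real.log H ≤ η * (⌊c * Real.log H⌋₊ : ℝ) := by
      have h3 : (k : ℝ) / η * Real.log H ≤ c * Real.log H - 1 := by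
        rw [hc]
        have : 0 ≤ (n0 : ℝ) * Real.log H := by positivity
        nlinarith
      calc (k : ℝ) * Real.log H = η * (k / η * Real.log H) := by field_simp
        _ ≤ η * (⌊c * Real.log H⌋₊ : ℝ) := mul_le_mul_of_nonneg_left (by linarith) hη.le
    calc (H : ℝ) ^ k = Real.exp (k * Real.log H) := by
          rw [Real.exp_nat_mul, Real.exp_log hH0]
      _ ≤ _ := Real.exp_le_exp.mpr h2
  · set n := ⌊c * Real.log H⌋₊ with hn
    have h1 : (n : ℝ) ≤ c * Real.log H := Nat.floor_le (by positivity)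
    have h2 : (n : ℝ) ^ (κ + 1) ≤ (c * Real.log H) ^ (κ + 1) :=
      pow_le_pow_left₀ (Nat.cast_nonneg _) h1 _
    have h3 : 0 < Real.log 4 := Real.log_pos (by norm_num)
    have h4 : (1 / 4 : ℝ) ^ (n ^ (κ + 1)) = Real.exp (-(Real.log 4 * (n : ℝ) ^ (κ + 1))) := by
      have e1 : (1 / 4 : ℝ) = Real.exp (-Real.log 4) := by
        rw [Real.exp_neg, Real.exp_log (by norm_num)]; norm_num
      rw [e1, ← Real.exp_nat_mul]
      congr 1
      push_cast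
      ring
    rw [h4]
    apply Real.exp_le_exp.mpr
    apply neg_le_neg
    calc Real.log 4 * (n : ℝ) ^ (κ + 1) ≤ Real.log 4 * (c * Real.log H) ^ (κ + 1) :=
          mul_le_mul_of_nonneg_left h2 h3.le
      _ = _ := by rw [mul_pow]; ring

/-- **Quantitative obstruction theorem** at the scale `H`. -/
theorem QTH {w b l r : ℕ} (A : Finset (Fin w)) (κ μ σ Dg k : ℕ) (Cx : ℝ) (hCx : 1 ≤ Cx)
    (hκ : μ + σ = κ) (hμ : 1 ≤ μ) (hcount : (κ + 1) * (r + w) + 1 ≤ A.card * κ + b * μ) :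
    ∃ C : ℝ, 0 < C ∧ ∀ H : ℕ, 3 ≤ H → ∀ (F : Type) [Field F] [NumberField F]
      (φ : F →ₐ[ℚ] ℂ), Module.finrank ℚ F ≤ Dg →
      ∀ (γ : Fin w → Fin b → F) (α : Fin w → Fin l → F) (χ : Fin b → Fin l → F)
      (x : Fin r → Fin b → ℂ) (y : Fin r → Fin l → ℂ) (ω : Fin w → Fin l → ℂ),
      (∀ i j, Sz ((H : ℝ) ^ k) (γ i j)) → (∀ i p, Sz ((H : ℝ) ^ k) (α i p)) →
      (∀ j p, Sz ((H : ℝ) ^ k) (χ j p)) →
      (∀ ρ j, ‖x ρ j‖ ≤ Cx) → (∀ ρ p, ‖y ρ p‖ ≤ Cx) → (∀ i p, ‖ω i p‖ ≤ Cx) →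
      (∀ i j, ‖φ (γ i j)‖ ≤ Cx) → (∀ i ∈ A, ∀ p, φ (α i p) = ω i p) →
      (∀ j p, ‖φ (χ j p) - Complex.exp (∑ ρ, x ρ j * y ρ p + ∑ i, φ (γ i j) * ω i p)‖ ≤
        Real.exp (-(C * Real.log H ^ (κ + 1)))) →
      (∀ j p, φ (χ j p) ≠ 0) →
    ∃ (Af : Submodule ℂ (Fin w → ℂ)) (Rm : AddSubgroup (Fin b → ℤ))
      (G0 : AddSubgroup (Fin l → ℤ)),
      (∀ a ∈ Af, ∀ i ∉ A, a i = 0) ∧
      (∀ s, s ∈ G0 ↔ (∀ a ∈ Af, ∑ i, a i * ∑ p, φ (α i p) * (s p : ℂ) = 0) ∧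
        ∀ m ∈ Rm, ∏ j, (∏ p, φ (χ j p) ^ s p) ^ m j = 1) ∧
      ∀ N : Submodule ℂ (Fin b → ℂ),
        (∀ m ∈ kSpan ℂ Rm, (fun i => ∑ j, φ (γ i j) * m j) ∈ Af → m ∈ N) →
          ((l - finrank ℤ G0) + finrank ℤ Rm) * σ < finrank ℂ N * κ := by
  obtain ⟨η, hη, n0, hn0⟩ := QT (w := w) (b := b) (l := l) (r := r) A κ μ σ Dg Cx hCx hκ hμ hcount
  obtain ⟨C, hC, hCn⟩ := choose_n η hη n0 κ k
  refine ⟨C, hC, fun H hH F _ _ φ hDg γ α χ x y ω sγ sα sχ hx hy hω hγ hα hχ hχ0 => ?_⟩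
  obtain ⟨n, h1, h2, h3⟩ := hCn H hH
  exact hn0 n h1 F φ hDg γ α χ x y ω (fun i j => (sγ i j).mono h2) (fun i j => (sα i j).mono h2)
    (fun i j => (sχ i j).mono h2) hx hy hω hγ hα (fun j p => (hχ j p).trans h3) hχ0

end Pool.Agent.H12
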