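import Pool.Agent.H12.QE

/-!
# Linear algebra of subgroups of `ℤ ^ n`
-/

set_option autoImplicit false

namespace Pool.Agent.H12

open Finset Module Pool.Agent.H335R2.Obs

/-- a vector killed by all rational forms which kill a subgroup has a multiple in the subgroup -/
theorem mem_of_forms {n : ℕ} (R : AddSubgroup (Fin n → ℤ)) (v : Fin n → ℤ)
    (h : ∀ q : Fin n → ℚ, (∀ m ∈ R, ∑ i, q i * (m i : ℚ) = 0) → ∑ i, q i * (v i : ℚ) = 0) :
    ∃ N : ℕ, 0 < N ∧ (N : ℤ) • v ∈ R := by
  classical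
  have h1 : (fun i => (v i : ℚ)) ∈ kSpan ℚ R := by
    by_contra hv
    obtain ⟨f, hf1, hf2⟩ := Submodule.exists_le_ker_of_notMem hv
    apply hf1
    have key : ∀ m : Fin n → ℤ, f (fun i => (m i : ℚ)) = ∑ i, f (Pi.single i 1) * (m i : ℚ) := by
      intro m
      rw [LinearMap.pi_apply_eq_sum_univ f]
      apply Finset.sum_congr rfl
      intro i _
      have h5 : (fun j => if i = j then (1:ℚ) else 0) = Pi.single i 1 := by
        funext j
        by_cases hij : i = j
        · subst hij; simp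
        · rw [if_neg hij, Pi.single_eq_of_ne (Ne.symm hij)]
      rw [smul_eq_mul, mul_comm, h5]
    rw [key]
    apply h
    intro m hm
    rw [← key]
    exact hf2 (Submodule.subset_span ⟨m, hm, rfl⟩)
  have h2 : ∀ x ∈ kSpan ℚ R, ∃ N : ℕ, 0 < N ∧ ∃ r ∈ R, ∀ i, (N : ℚ) * x i = (r i : ℚ) := by
    intro x hx
    unfold kSpan at hx
    refine Submodule.span_induction (hx := hx) ?_ ?_ ?_ ?_
    · rintro _ ⟨ρ, hρ, rfl⟩
      exact ⟨1, one_pos, ρ, hρ, fun i => by simp⟩
    · exact ⟨1, one_pos, 0, R.zero_mem, fun i => by simp⟩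
    · rintro x y _ _ ⟨N, hN, r, hr, hr'⟩ ⟨M, hM, s, hs, hs'⟩
      refine ⟨N * M, Nat.mul_pos hN hM, (M : ℤ) • r + (N : ℤ) • s,
        R.add_mem (R.zsmul_mem hr _) (R.zsmul_mem hs _), fun i => ?_⟩
      have e : ((M : ℤ) • r + (N : ℤ) • s) i = (M : ℤ) * r i + (N : ℤ) * s i := rfl
      rw [e]
      push_cast
      rw [← hr' i, ← hs' i, Pi.add_apply]
      ring
    · rintro c x _ ⟨N, hN, r, hr, hr'⟩
      refine ⟨N * c.den, Nat.mul_pos hN c.den_pos, c.num • r, R.zsmul_mem hr _, fun i => ?_⟩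
      have hc : (c : ℚ) * c.den = c.num := Rat.mul_den_eq_num c
      have e : (c.num • r) i = c.num * r i := rfl
      rw [e]
      push_cast
      rw [← hr' i, Pi.smul_apply, smul_eq_mul]
      linear_combination (N : ℚ) * x i * hc
  obtain ⟨N, hN, r, hr, hr'⟩ := h2 _ h1
  refine ⟨N, hN, ?_⟩
  have : (N : ℤ) • v = r := by
    funext i
    have h3 := hr' i
    simp only [Pi.smul_apply, smul_eq_mul]
    exact_mod_cast h3
  rw [this]
  exact hr

theorem exists_ne_zero_of_finrank {n : ℕ} (G : AddSubgroup (Fin n → ℤ)) (h : 1 ≤ finrank ℤ G) :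
    ∃ s ∈ G, s ≠ 0 := by
  by_contra hcon
  push Not at hcon
  have : G = ⊥ := by
    rw [eq_bot_iff]
    intro s hs
    rw [AddSubgroup.mem_bot]
    exact hcon s hs
  rw [this] at h
  have h2 : finrank ℤ (⊥ : AddSubgroup (Fin n → ℤ)) = 0 := finrank_zero_of_subsingleton
  omega

/-- the rank is at most the number of coordinates which determine the elements -/
theorem finrank_le_card {n : ℕ} (G : AddSubgroup (Fin n → ℤ)) (E : Finset (Fin n))
    (h : ∀ s ∈ G, (∀ i ∈ E, s i = 0) → s = 0) : finrank ℤ G ≤ E.card := by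
  classical
  let f : (AddSubgroup.toIntSubmodule G) →ₗ[ℤ] (E → ℤ) :=
    { toFun := fun s i => (s : Fin n → ℤ) i.1
      map_add' := by intro x y; rfl
      map_smul' := by intro c x; rfl }
  have hf : Function.Injective f := by
    rw [← LinearMap.ker_eq_bot, LinearMap.ker_eq_bot']
    intro s hs
    apply Subtype.ext
    apply h _ s.2
    intro i hi
    exact congrFun hs ⟨i, hi⟩
  have h1 := LinearMap.finrank_le_finrank_of_injective hf
  rw [Module.finrank_fintype_fun_eq_card, Fintype.card_coe] at h1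
  exact h1

end Pool.Agent.H12
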