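import Pool.Agent.H12.QF

/-!
# A quantitative theorem of Gelfond-Schneider type for `s log a - π`
-/

set_option autoImplicit false

namespace Pool.Agent.H12

open Finset Module Pool.Agent.H301R2.TR Pool.Agent.H335R2.Obs Pool.Agent.Y928.QN

theorem _root_.Pool.Agent.Y928.QN.AlgHt.mono {D D' H H' : ℕ} {x : ℂ} (h : AlgHt D H x) (hD : D ≤ D')
    (hH : H ≤ H') : AlgHt D' H' x := by
  obtain ⟨P, hP, hdeg, hcoef, hroot⟩ := h
  exact ⟨P, hP, hdeg.trans hD, fun i => (hcoef i).trans (by exact_mod_cast hH), hroot⟩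

theorem pow_succ_bound {H : ℕ} (hH : 3 ≤ H) (k : ℕ) : (((H ^ k : ℕ) : ℝ) + 1) ≤ (H : ℝ) ^ (k + 1) := by
  have hH3 : (3 : ℝ) ≤ H := by exact_mod_cast hH
  have h1 : (1 : ℝ) ≤ (H : ℝ) ^ k := one_le_pow₀ (by linarith)
  push_cast
  rw [pow_succ]
  nlinarith

/-- the irrational vector -/
theorem is_irr {s : ℝ} (hs : s ≠ 0) (q0 q1 : ℚ) (h : (q0 : ℂ) * (Complex.I * s) - q1 = 0) :
    q0 = 0 ∧ q1 = 0 := by
  have h1 := congrArg Complex.re h
  have h2 := congrArg Complex.im h
  simp at h1 h2
  constructor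
  · rcases h2 with h2 | h2
    · exact h2
    · exact absurd h2 hs
  · exact h1

theorem hom_core (D k : ℕ) (B : ℝ) (hB : 1 ≤ B) : ∃ C : ℝ, 0 < C ∧ ∀ H : ℕ, 3 ≤ H → ∀ a s : ℝ,
    AlgHt D (H ^ k) (a : ℂ) → AlgHt D (H ^ k) (s : ℂ) → 1 < a → Real.log a ≤ B → s ≠ 0 → |s| ≤ B →
    Real.exp (-(C * Real.log H ^ 7)) < ‖Complex.exp (Complex.I * s * (Real.log a : ℝ)) + 1‖ := by
  obtain ⟨C, hC, hmain⟩ := QTH (w := 1) (b := 2) (l := 1) (r := 0) ∅ 6 4 2 ((D + 2) ^ 3) (k + 3) B hB
    (by norm_num) (by norm_num) (by simp)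
  refine ⟨C, hC, fun H hH a s ha hs ha1 hlog hs0 hsB => ?_⟩
  by_contra hcon
  rw [not_lt] at hcon
  have hH3 : (3 : ℝ) ≤ H := by exact_mod_cast hH
  have hH1 : (1 : ℝ) ≤ H := by linarith
  obtain ⟨F, _, _, φ, hDg, hφ⟩ := exists_field_fam (D + 2) 3 ![Complex.I, (a : ℂ), (s : ℂ)] (by
    intro i
    fin_cases i
    · exact ⟨1, algHt_I.mono (by omega) le_rfl⟩
    · exact ⟨H ^ k, ha.mono (by omega) le_rfl⟩
    · exact ⟨H ^ k, hs.mono (by omega) le_rfl⟩)
  obtain ⟨wI, hwI⟩ := hφ 0
  obtain ⟨wa, hwa⟩ := hφ 1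
  obtain ⟨ws, hws⟩ := hφ 2
  simp only [Matrix.cons_val_zero, Matrix.cons_val_one, Matrix.cons_val_fin_one, Matrix.cons_val] at hwI hwa hws
  have hlog0 : 0 < Real.log a := Real.log_pos ha1
  -- sizes
  have sI : Sz (2 : ℝ) wI := by
    have := algHt_I.sz φ wI hwI
    norm_num at this
    exact this
  have sa : Sz ((H : ℝ) ^ (k + 1)) wa := (ha.sz φ wa hwa).mono (pow_succ_bound hH k)
  have ss : Sz ((H : ℝ) ^ (k + 1)) ws := (hs.sz φ ws hws).mono (pow_succ_bound hH k)
  have p1 : (H : ℝ) ^ (k + 1) ≤ (H : ℝ) ^ (k + 3) := pow_le_pow_right₀ hH1 (by omega)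
  have p0 : (1 : ℝ) ≤ (H : ℝ) ^ (k + 3) := one_le_pow₀ hH1
  have sIs : Sz ((H : ℝ) ^ (k + 3)) (wI * ws) := by
    refine (sI.mul ss).mono ?_
    calc 2 * (H : ℝ) ^ (k + 1) ≤ H * (H : ℝ) ^ (k + 1) := by
          apply mul_le_mul_of_nonneg_right (by linarith) (by positivity)
      _ = (H : ℝ) ^ (k + 2) := by ring
      _ ≤ _ := pow_le_pow_right₀ hH1 (by omega)
  obtain ⟨Af, Rm, G0, h1, h2, h3⟩ := hmain H hH F φ hDg
    (fun _ j => ![1, wI * ws] j) (fun _ _ => 0) (fun j _ => ![wa, -1] j)
    (fun ρ _ => ρ.elim0) (fun ρ _ => ρ.elim0) (fun _ _ => ((Real.log a : ℝ) : ℂ))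
    (by
      intro i j
      fin_cases j
      · exact Sz.one p0
      · exact sIs)
    (fun i p => Sz.zero p0)
    (by
      intro j p
      fin_cases j
      · exact sa.mono p1
      · exact (Sz.one p0).neg)
    (fun ρ => ρ.elim0) (fun ρ => ρ.elim0)
    (by
      intro i p
      rw [Complex.norm_real, Real.norm_of_nonneg hlog0.le]
      exact hlog)
    (by
      intro i j
      fin_cases j
      · simpa using hB
      · simp only [Fin.mk_one, Matrix.cons_val_one, Matrix.cons_val_fin_one, map_mul, hwI, hws]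
        simpa using hsB)
    (by intro i hi; simp at hi)
    (by
      intro j p
      have h0 : (0 : ℝ) ≤ Real.exp (-(C * Real.log H ^ (6 + 1))) := (Real.exp_pos _).le
      fin_cases j
      · simp only [Finset.univ_eq_empty, Finset.sum_empty, zero_add, Fin.zero_eta,
          Matrix.cons_val_zero, map_one, one_mul, Fin.sum_univ_one, hwa]
        rw [← Complex.ofReal_exp, Real.exp_log (by linarith), sub_self, norm_zero]
        exact h0
      · simp only [Finset.univ_eq_empty, Finset.sum_empty, zero_add, Fin.mk_one,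
          Matrix.cons_val_one, Matrix.cons_val_fin_one, map_mul, map_neg, map_one, Fin.sum_univ_one, hwI, hws]
        rw [← norm_neg]
        have e : -(-1 - Complex.exp (Complex.I * s * (Real.log a : ℝ))) =
          Complex.exp (Complex.I * s * (Real.log a : ℝ)) + 1 := by ring
        rw [e]
        exact hcon)
    (by
      intro j p
      fin_cases j
      · simp only [Fin.zero_eta, Matrix.cons_val_zero, hwa]
        exact_mod_cast (by linarith : a ≠ 0)
      · simp)
  have hAf : Af = ⊥ := by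
    rw [eq_bot_iff]
    intro v hv
    rw [Submodule.mem_bot]
    funext i
    exact h1 v hv i (by simp)
  -- the space `N`
  let v : Fin 2 → ℂ := ![Complex.I * s, -1]
  by_cases hv : v ∈ kSpan ℂ Rm
  · -- then `Rm` has rank two
    have hforms : ∀ q : Fin 2 → ℚ, (∀ m ∈ Rm, ∑ i, q i * (m i : ℚ) = 0) → q = 0 := by
      intro q hq
      have h4 := form_cSpan hq hv
      rw [Fin.sum_univ_two] at h4
      simp only [v, Matrix.cons_val_zero, Matrix.cons_val_one] at h4
      obtain ⟨h5, h6⟩ := is_irr hs0 (q 0) (q 1) (by rw [← h4]; ring)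
      funext i
      fin_cases i
      · exact h5
      · exact h6
    have hrk : finrank ℤ Rm = 2 := by
      apply le_antisymm
      · have := finrank_le_card Rm univ (by
          intro s _ hs
          funext i
          exact hs i (mem_univ i))
        simpa using this
      · by_contra hlt
        obtain ⟨q, hq0, hq⟩ := exists_rat_form Rm (by omega)
        exact hq0 (hforms q hq)
    have h4 := h3 (Submodule.span ℂ {v}) (by
      intro m _ hm
      rw [hAf, Submodule.mem_bot] at hm
      have h5 := congrFun hm 0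
      simp only [Fin.sum_univ_two, Matrix.cons_val_zero, Matrix.cons_val_one, Matrix.cons_val_fin_one, map_one, one_mul,
        map_mul, hwI, hws, Pi.zero_apply] at h5
      rw [Submodule.mem_span_singleton]
      refine ⟨-(m 1), ?_⟩
      funext i
      fin_cases i
      · simp [v]
        linear_combination -h5
      · simp [v])
    have h5 : finrank ℂ (Submodule.span ℂ {v}) ≤ 1 := (finrank_span_le_card _).trans (by simp)
    have h6 : 1 ≤ finrank ℤ G0 := by omega
    obtain ⟨t, ht, ht0⟩ := exists_ne_zero_of_finrank G0 h6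
    obtain ⟨N, hN, hN'⟩ := mem_of_forms Rm ![1, 0] (fun q hq => by rw [hforms q hq]; simp)
    have h7 := ((h2 t).mp ht).2 _ hN'
    simp only [Fin.prod_univ_two, Fin.prod_univ_one, Pi.smul_apply, Matrix.cons_val_zero,
      Matrix.cons_val_one, Matrix.cons_val_fin_one, smul_eq_mul, mul_one, mul_zero, zpow_zero, hwa] at h7
    rw [← zpow_mul] at h7
    have ht' : t 0 ≠ 0 := by
      intro h
      apply ht0
      funext i
      rw [Subsingleton.elim i 0]
      exact h
    have h8 : a ^ (t 0 * (N : ℤ)) = 1 := by exact_mod_cast h7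
    have h9 : t 0 * (N : ℤ) = 0 := by
      by_contra h10
      exact h10 ((zpow_right_injective₀ (a := a) (by linarith) ha1.ne') (by simpa using h8))
    rcases mul_eq_zero.mp h9 with h | h
    · exact ht' h
    · have : (N : ℤ) ≠ 0 := by exact_mod_cast hN.ne'
      exact this h
  · have h4 := h3 ⊥ (by
      intro m hm hm'
      rw [hAf, Submodule.mem_bot] at hm'
      have h5 := congrFun hm' 0
      simp only [Fin.sum_univ_two, Matrix.cons_val_zero, Matrix.cons_val_one, Matrix.cons_val_fin_one, map_one, one_mul,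
        map_mul, hwI, hws, Pi.zero_apply] at h5
      rw [Submodule.mem_bot]
      by_contra hm0
      have h6 : m 1 ≠ 0 := by
        intro h
        apply hm0
        funext i
        fin_cases i
        · simpa [h] using h5
        · exact h
      apply hv
      have h7 : v = (-(m 1)⁻¹) • m := by
        funext i
        fin_cases i
        · simp [v]
          field_simp
          linear_combination h5
        · simp [v]
          field_simp
      rw [h7]
      exact Submodule.smul_mem _ _ hm)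
    rw [finrank_bot] at h4
    omega

end Pool.Agent.H12
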