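import Pool.Agent.H12.QG

/-!
# A quantitative form of Baker's theorem for `β0 + β1 L1 - log a0`, `β0 ≠ 0`
-/

set_option autoImplicit false

namespace Pool.Agent.H12

open Finset Module Pool.Agent.H301R2.TR Pool.Agent.H335R2.Obs Pool.Agent.Y928.QN

theorem inh_core (D k : ℕ) (B : ℝ) (hB : 1 ≤ B) : ∃ C : ℝ, 0 < C ∧ ∀ H : ℕ, 3 ≤ H →
    ∀ a0 L1 β0 β1 : ℂ, AlgHt D (H ^ k) a0 → AlgHt D (H ^ k) (Complex.exp L1) →
    AlgHt D (H ^ k) β0 → AlgHt D (H ^ k) β1 → a0 ≠ 0 → ‖L1‖ ≤ B → β0 ≠ 0 → ‖β0‖ ≤ B → ‖β1‖ ≤ B →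
    (∀ q : ℚ, β1 ≠ q) →
    Real.exp (-(C * Real.log H ^ 12)) < ‖a0 - Complex.exp (β0 + β1 * L1)‖ := by
  obtain ⟨C, hC, hmain⟩ := QTH (w := 2) (b := 2) (l := 1) (r := 0) {0} 11 7 4 (D ^ 4) (k + 1) B hB
    (by norm_num) (by norm_num) (by simp)
  refine ⟨C, hC, fun H hH a0 L1 β0 β1 ha0 ha1 hb0 hb1 ha00 hL1 hβ0 hβ0B hβ1B hirr => ?_⟩
  by_contra hcon
  rw [not_lt] at hcon
  have hH3 : (3 : ℝ) ≤ H := by exact_mod_cast hH
  have hH1 : (1 : ℝ) ≤ H := by linarith
  obtain ⟨F, _, _, φ, hDg, hφ⟩ := exists_field_fam D 4 ![a0, Complex.exp L1, β0, β1] (by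
    intro i
    fin_cases i
    · exact ⟨_, ha0⟩
    · exact ⟨_, ha1⟩
    · exact ⟨_, hb0⟩
    · exact ⟨_, hb1⟩)
  obtain ⟨w0, hw0⟩ := hφ 0
  obtain ⟨w1, hw1⟩ := hφ 1
  obtain ⟨v0, hv0⟩ := hφ 2
  obtain ⟨v1, hv1⟩ := hφ 3
  simp only [Matrix.cons_val_zero, Matrix.cons_val_one, Matrix.cons_val] at hw0 hw1 hv0 hv1
  have s0 : Sz ((H : ℝ) ^ (k + 1)) w0 := (ha0.sz φ w0 hw0).mono (pow_succ_bound hH k)
  have s1 : Sz ((H : ℝ) ^ (k + 1)) w1 := (ha1.sz φ w1 hw1).mono (pow_succ_bound hH k)
  have t0 : Sz ((H : ℝ) ^ (k + 1)) v0 := (hb0.sz φ v0 hv0).mono (pow_succ_bound hH k)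
  have t1 : Sz ((H : ℝ) ^ (k + 1)) v1 := (hb1.sz φ v1 hv1).mono (pow_succ_bound hH k)
  have p0 : (1 : ℝ) ≤ (H : ℝ) ^ (k + 1) := one_le_pow₀ hH1
  obtain ⟨Af, Rm, G0, h1, h2, h3⟩ := hmain H hH F φ hDg
    (fun i j => ![![v0, 0], ![v1, 1]] i j) (fun i _ => ![1, 0] i) (fun j _ => ![w0, w1] j)
    (fun ρ _ => ρ.elim0) (fun ρ _ => ρ.elim0) (fun i _ => ![1, L1] i)
    (by
      intro i j
      fin_cases i <;> fin_cases j
      · exact t0
      · exact Sz.zero p0
      · exact t1
      · exact Sz.one p0)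
    (by
      intro i p
      fin_cases i
      · exact Sz.one p0
      · exact Sz.zero p0)
    (by
      intro j p
      fin_cases j
      · exact s0
      · exact s1)
    (fun ρ => ρ.elim0) (fun ρ => ρ.elim0)
    (by
      intro i p
      fin_cases i
      · simpa using hB
      · simpa using hL1)
    (by
      intro i j
      fin_cases i <;> fin_cases j
      · simpa [hv0] using hβ0B
      · simp; linarith
      · simpa [hv1] using hβ1B
      · simpa using hB)
    (by
      intro i hi p
      rw [Finset.mem_singleton] at hi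
      subst hi
      simp)
    (by
      intro j p
      have h0 : (0 : ℝ) ≤ Real.exp (-(C * Real.log H ^ (11 + 1))) := (Real.exp_pos _).le
      fin_cases j
      · simp only [Finset.univ_eq_empty, Finset.sum_empty, zero_add, Fin.zero_eta,
          Matrix.cons_val_zero, Fin.sum_univ_two, Matrix.cons_val_one, Matrix.cons_val_fin_one,
          hw0, hv0, hv1, mul_one]
        exact hcon
      · simp only [Finset.univ_eq_empty, Finset.sum_empty, zero_add, Fin.mk_one,
          Matrix.cons_val_zero, Fin.sum_univ_two, Matrix.cons_val_one, Matrix.cons_val_fin_one,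
          hw1, map_zero, map_one, zero_mul, one_mul, sub_self, norm_zero]
        exact h0)
    (by
      intro j p
      fin_cases j
      · simpa [hw0] using ha00
      · simpa [hw1] using Complex.exp_ne_zero L1)
  -- the kernel
  let v : Fin 2 → ℂ := ![1, -β1]
  have hker : ∀ m : Fin 2 → ℂ, (fun i => ∑ j, φ ((fun i j => ![![v0, 0], ![v1, 1]] i j) i j) * m j)
      ∈ Af → m = m 0 • v ∧ (![β0 * m 0, 0] : Fin 2 → ℂ) ∈ Af := by
    intro m hm
    have h5 := h1 _ hm 1 (by decide)
    simp only [Fin.sum_univ_two, Matrix.cons_val_zero, Matrix.cons_val_one,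
      Matrix.cons_val_fin_one, map_one, one_mul, hv1] at h5
    constructor
    · funext i
      fin_cases i
      · simp [v]
      · simp [v]
        linear_combination h5
    · convert hm using 1
      funext i
      fin_cases i
      · simp [Fin.sum_univ_two, hv0]
      · simp [Fin.sum_univ_two, hv1]
        linear_combination -h5
  by_cases hcase : v ∈ kSpan ℂ Rm ∧ Af ≠ ⊥
  · obtain ⟨hv, hAf⟩ := hcase
    have hforms : ∀ q : Fin 2 → ℚ, (∀ m ∈ Rm, ∑ i, q i * (m i : ℚ) = 0) → q = 0 := by
      intro q hq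
      have h4 := form_cSpan hq hv
      rw [Fin.sum_univ_two] at h4
      simp only [v, Matrix.cons_val_zero, Matrix.cons_val_one, Matrix.cons_val_fin_one] at h4
      have h5 : q 1 = 0 := by
        by_contra h6
        have h6' : (q 1 : ℂ) ≠ 0 := by exact_mod_cast h6
        apply hirr (q 0 / q 1)
        push_cast
        field_simp
        linear_combination -h4
      have h6 : q 0 = 0 := by
        rw [h5] at h4
        simpa using h4
      funext i
      fin_cases i
      · exact h6
      · exact h5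
    have hrk : 2 ≤ finrank ℤ Rm := by
      by_contra hlt
      obtain ⟨q, hq0, hq⟩ := exists_rat_form Rm (by omega)
      exact hq0 (hforms q hq)
    have h4 := h3 (Submodule.span ℂ {v}) (by
      intro m _ hm
      rw [Submodule.mem_span_singleton]
      exact ⟨m 0, ((hker m hm).1).symm⟩)
    have h5 : finrank ℂ (Submodule.span ℂ {v}) ≤ 1 := (finrank_span_le_card _).trans (by simp)
    have h6 : finrank ℤ G0 = 0 := by
      have : G0 = ⊥ := by
        rw [eq_bot_iff]
        intro s hs
        obtain ⟨a, ha, ha0⟩ := Submodule.exists_mem_ne_zero_of_ne_bot hAf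
        have h11 := ((h2 s).mp hs).1 a ha
        have h13 : a 1 = 0 := h1 a ha 1 (by decide)
        have h12 : a 0 ≠ 0 := by
          intro h
          apply ha0
          funext i
          fin_cases i
          · exact h
          · exact h13
        simp only [Fin.sum_univ_two, Fin.sum_univ_one, Matrix.cons_val_zero, Matrix.cons_val_one,
          Matrix.cons_val_fin_one, map_one, map_zero, one_mul, zero_mul, mul_zero, add_zero] at h11
        have h14 : (s 0 : ℂ) = 0 := (mul_eq_zero.mp h11).resolve_left h12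
        rw [AddSubgroup.mem_bot]
        funext p
        rw [Subsingleton.elim p 0]
        exact_mod_cast h14
      rw [this]
      exact finrank_zero_of_subsingleton
    omega
  · have h4 := h3 ⊥ (by
      intro m hm hm'
      obtain ⟨h5, h6⟩ := hker m hm'
      rw [Submodule.mem_bot]
      by_contra hm0
      have h7 : m 0 ≠ 0 := by
        intro h
        apply hm0
        rw [h5, h, zero_smul]
      apply hcase
      constructor
      · have h8 : v = (m 0)⁻¹ • m := by
          rw [h5]
          simp [v, h7]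
        rw [h8]
        exact Submodule.smul_mem _ _ hm
      · intro h
        rw [h, Submodule.mem_bot] at h6
        have h8 := congrFun h6 0
        simp only [Matrix.cons_val_zero, Pi.zero_apply] at h8
        exact (mul_ne_zero hβ0 h7) h8)
    rw [finrank_bot] at h4
    omega

end Pool.Agent.H12
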