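import Pool.Agent.H12.QG

/-!
# A quantitative six exponentials configuration: `π ^ π`, `π ^ √2`, `e ^ (π ^ 2)`
-/

set_option autoImplicit false

namespace Pool.Agent.H12

open Finset Module Pool.Agent.H301R2.TR Pool.Agent.H335R2.Obs Pool.Agent.Y928.QN

/-- the number `i √2` -/
noncomputable def th : ℂ := Complex.I * (Real.sqrt 2 : ℝ)

theorem th_sq : th * th = -2 := by
  unfold th
  have h : ((Real.sqrt 2 : ℝ) : ℂ) * ((Real.sqrt 2 : ℝ) : ℂ) = 2 := by
    rw [← Complex.ofReal_mul, Real.mul_self_sqrt (by norm_num)]; norm_num
  linear_combination (((Real.sqrt 2 : ℝ) : ℂ) * ((Real.sqrt 2 : ℝ) : ℂ)) * Complex.I_mul_I - h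

theorem algHt_th : AlgHt 2 2 th := by
  refine ⟨Polynomial.X ^ 2 + Polynomial.C 2, ?_, ?_, ?_, ?_⟩
  · intro h
    have := congrArg (fun p : Polynomial ℤ => p.coeff 2) h
    simp [Polynomial.coeff_X_pow, Polynomial.coeff_C] at this
  · compute_degree
  · intro i
    rw [Polynomial.coeff_add, Polynomial.coeff_X_pow, Polynomial.coeff_C]
    by_cases h1 : i = 2
    · rw [if_pos h1, if_neg (by omega)]; norm_num
    · rw [if_neg h1]
      by_cases h2 : i = 0
      · rw [if_pos h2]; norm_num
      · rw [if_neg h2]; norm_num
  · rw [map_add, map_pow, Polynomial.aeval_X, Polynomial.aeval_C, pow_two, th_sq]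
    simp

theorem th_irr (q0 q1 : ℚ) (h : (q0 : ℂ) + q1 * th = 0) : q0 = 0 ∧ q1 = 0 := by
  have h2 : Real.sqrt 2 ≠ 0 := by positivity
  have h3 := is_irr h2 q1 (-q0) (by
    rw [← h]
    unfold th
    push_cast
    ring)
  exact ⟨neg_eq_zero.mp h3.2, h3.1⟩

theorem norm_th : ‖th‖ = Real.sqrt 2 := by
  unfold th
  rw [norm_mul, Complex.norm_I, one_mul, Complex.norm_real, Real.norm_of_nonneg (Real.sqrt_nonneg _)]

section analysis

variable (Af : Submodule ℂ (Fin 3 → ℂ)) (Rm : AddSubgroup (Fin 4 → ℤ))
  (G0 : AddSubgroup (Fin 6 → ℤ)) (la lb lc : ℝ)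

/-- the analysis of the obstruction -/
theorem tri_analysis
    (hG : ∀ s ∈ G0, ∀ m ∈ Rm, ((m 0 * s 2 + m 1 * s 3 : ℤ) : ℝ) * lb +
      ((m 3 * s 2 - 2 * (m 2 * s 3) : ℤ) : ℝ) * la - ((m 2 * s 4 + m 3 * s 5 : ℤ) : ℝ) * lc = 0)
    (hGA : Af ≠ ⊥ → ∀ s ∈ G0, s 0 = 0 ∧ s 1 = 0)
    (hAf : ∀ a ∈ Af, a 1 = 0 ∧ a 2 = 0)
    (hla : la ≠ 0) (hlb : lb ≠ 0) (hlc : lc ≠ 0)
    (hind : ∀ i j : ℤ, (i : ℝ) * la + j * lc = 0 → i = 0 ∧ j = 0)
    (h3 : ∀ N : Submodule ℂ (Fin 4 → ℂ),
        (∀ m ∈ kSpan ℂ Rm, (![-m 0, -th * m 0 + m 1, -th * m 2 + m 3] : Fin 3 → ℂ) ∈ Af → m ∈ N) →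
          ((6 - finrank ℤ G0) + finrank ℤ Rm) * 5 < finrank ℂ N * 25) : False := by
  classical
  have cast_ne : ∀ N : ℕ, 0 < N → (N : ℝ) ≠ 0 := fun N h => by exact_mod_cast h.ne'
  -- solutions
  have hsol : ∀ m ∈ kSpan ℂ Rm, (![-m 0, -th * m 0 + m 1, -th * m 2 + m 3] : Fin 3 → ℂ) ∈ Af →
      m 1 = th * m 0 ∧ m 3 = th * m 2 ∧ (m 0 ≠ 0 → Af ≠ ⊥) := by
    intro m _ hm
    obtain ⟨h4, h5⟩ := hAf _ hm
    simp only [Matrix.cons_val_one, Matrix.cons_val_zero, Matrix.cons_val] at h4 h5
    refine ⟨by linear_combination h4, by linear_combination h5, fun h6 h7 => ?_⟩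
    rw [h7, Submodule.mem_bot] at hm
    have h8 := congrFun hm 0
    simp only [Matrix.cons_val_zero, Pi.zero_apply, neg_eq_zero] at h8
    exact h6 h8
  let f1 : Fin 4 → ℂ := ![1, th, 0, 0]
  let f2 : Fin 4 → ℂ := ![0, 0, 1, th]
  have hcomb : ∀ m : Fin 4 → ℂ, m 1 = th * m 0 → m 3 = th * m 2 → m = m 0 • f1 + m 2 • f2 := by
    intro m h4 h5
    funext i
    fin_cases i
    · simp [f1, f2]
    · simp [f1, f2, h4]; ring
    · simp [f1, f2]
    · simp [f1, f2, h5]; ring
  -- forms
  have hform2 : f2 ∈ kSpan ℂ Rm → ∀ q : Fin 4 → ℚ, (∀ m ∈ Rm, ∑ i, q i * (m i : ℚ) = 0) →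
      q 2 = 0 ∧ q 3 = 0 := by
    intro hf q hq
    have h4 := form_cSpan hq hf
    simp only [Fin.sum_univ_four, f2, Matrix.cons_val_zero, Matrix.cons_val_one,
      Matrix.cons_val, mul_zero, zero_add, mul_one] at h4
    exact th_irr _ _ h4
  have hform1 : f1 ∈ kSpan ℂ Rm → ∀ q : Fin 4 → ℚ, (∀ m ∈ Rm, ∑ i, q i * (m i : ℚ) = 0) →
      q 0 = 0 ∧ q 1 = 0 := by
    intro hf q hq
    have h4 := form_cSpan hq hf
    simp only [Fin.sum_univ_four, f1, Matrix.cons_val_zero, Matrix.cons_val_one,
      Matrix.cons_val, mul_zero, add_zero, mul_one] at h4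
    exact th_irr _ _ h4
  have hrk_pos : ∀ v ∈ kSpan ℂ Rm, v ≠ 0 → 1 ≤ finrank ℤ Rm := by
    intro v hv hv0
    by_contra h4
    have h5 : finrank ℤ Rm = 0 := by omega
    rw [← finrank_kSpan ℂ Rm] at h5
    have h6 := Submodule.finrank_eq_zero.mp h5
    rw [h6, Submodule.mem_bot] at hv
    exact hv0 hv
  have hrk4 : finrank ℤ Rm ≤ 4 := by
    have := finrank_le_card Rm univ (by
      intro s _ hs
      funext i
      exact hs i (mem_univ i))
    simpa using this
  by_cases hI : ∃ m ∈ kSpan ℂ Rm,
      (![-m 0, -th * m 0 + m 1, -th * m 2 + m 3] : Fin 3 → ℂ) ∈ Af ∧ m 0 ≠ 0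
  · obtain ⟨m, hm, hmA, hm0⟩ := hI
    obtain ⟨m1, m3, hA⟩ := hsol m hm hmA
    have hs01 := hGA (hA hm0)
    by_cases hff : f1 ∈ kSpan ℂ Rm ∧ f2 ∈ kSpan ℂ Rm
    · -- case I.a
      obtain ⟨hf1, hf2⟩ := hff
      have hq : ∀ q : Fin 4 → ℚ, (∀ m ∈ Rm, ∑ i, q i * (m i : ℚ) = 0) → q = 0 := by
        intro q hq
        obtain ⟨g1, g2⟩ := hform1 hf1 q hq
        obtain ⟨g3, g4⟩ := hform2 hf2 q hq
        funext i
        fin_cases i
        · exact g1
        · exact g2
        · exact g3
        · exact g4
      have hrk : 4 ≤ finrank ℤ Rm := by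
        by_contra hlt
        obtain ⟨q, hq0, hq'⟩ := exists_rat_form Rm (by omega)
        exact hq0 (hq q hq')
      have hmem : ∀ v : Fin 4 → ℤ, ∃ N : ℕ, 0 < N ∧ (N : ℤ) • v ∈ Rm := fun v =>
        mem_of_forms Rm v (fun q hq' => by rw [hq q hq']; simp)
      have hG0 : G0 = ⊥ := by
        rw [eq_bot_iff]
        intro s hs
        obtain ⟨z0, z1⟩ := hs01 s hs
        have z2 : s 2 = 0 := by
          obtain ⟨N, hN, hN'⟩ := hmem ![1, 0, 0, 0]
          have h4 := hG s hs _ hN'
          simp only [Pi.smul_apply, Matrix.cons_val_zero, Matrix.cons_val_one, Matrix.cons_val,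
            smul_eq_mul, mul_one, mul_zero, zero_mul, add_zero, sub_zero, Int.cast_zero,
            Int.cast_mul, Int.cast_natCast] at h4
          have h5 : (s 2 : ℝ) = 0 := by
            rcases mul_eq_zero.mp h4 with h | h
            · rcases mul_eq_zero.mp h with h | h
              · exact absurd h (cast_ne N hN)
              · exact h
            · exact absurd h hlb
          exact_mod_cast h5
        have z3 : s 3 = 0 := by
          obtain ⟨N, hN, hN'⟩ := hmem ![0, 1, 0, 0]
          have h4 := hG s hs _ hN'
          simp only [Pi.smul_apply, Matrix.cons_val_zero, Matrix.cons_val_one, Matrix.cons_val,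
            smul_eq_mul, mul_one, mul_zero, zero_mul, add_zero, zero_add, sub_zero, Int.cast_zero,
            Int.cast_mul, Int.cast_natCast] at h4
          have h5 : (s 3 : ℝ) = 0 := by
            rcases mul_eq_zero.mp h4 with h | h
            · rcases mul_eq_zero.mp h with h | h
              · exact absurd h (cast_ne N hN)
              · exact h
            · exact absurd h hlb
          exact_mod_cast h5
        have z4 : s 4 = 0 := by
          obtain ⟨N, hN, hN'⟩ := hmem ![0, 0, 1, 0]
          have h4 := hG s hs _ hN'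
          simp only [Pi.smul_apply, Matrix.cons_val_zero, Matrix.cons_val_one, Matrix.cons_val,
            smul_eq_mul, mul_one, mul_zero, zero_mul, add_zero, zero_add, sub_zero, Int.cast_zero,
            Int.cast_mul, Int.cast_natCast, z3, zero_sub, neg_zero, neg_eq_zero] at h4
          have h5 : (s 4 : ℝ) = 0 := by
            rcases mul_eq_zero.mp h4 with h | h
            · rcases mul_eq_zero.mp h with h | h
              · exact absurd h (cast_ne N hN)
              · exact h
            · exact absurd h hlc
          exact_mod_cast h5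
        have z5 : s 5 = 0 := by
          obtain ⟨N, hN, hN'⟩ := hmem ![0, 0, 0, 1]
          have h4 := hG s hs _ hN'
          simp only [Pi.smul_apply, Matrix.cons_val_zero, Matrix.cons_val_one, Matrix.cons_val,
            smul_eq_mul, mul_one, mul_zero, zero_mul, add_zero, zero_add, sub_zero, Int.cast_zero,
            Int.cast_mul, Int.cast_natCast, z2, zero_sub, neg_eq_zero] at h4
          have h5 : (s 5 : ℝ) = 0 := by
            rcases mul_eq_zero.mp h4 with h | h
            · rcases mul_eq_zero.mp h with h | h
              · exact absurd h (cast_ne N hN)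
              · exact h
            · exact absurd h hlc
          exact_mod_cast h5
        rw [AddSubgroup.mem_bot]
        funext i
        fin_cases i
        · exact z0
        · exact z1
        · exact z2
        · exact z3
        · exact z4
        · exact z5
      have hg0 : finrank ℤ G0 = 0 := by rw [hG0]; exact finrank_zero_of_subsingleton
      have h4 := h3 (Submodule.span ℂ {f1, f2}) (by
        intro m' hm' hmA'
        obtain ⟨g1, g2, -⟩ := hsol m' hm' hmA'
        rw [hcomb m' g1 g2]
        exact Submodule.add_mem _ (Submodule.smul_mem _ _ (Submodule.subset_span (by simp)))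
          (Submodule.smul_mem _ _ (Submodule.subset_span (by simp))))
      have h5 : finrank ℂ (Submodule.span ℂ {f1, f2}) ≤ 2 := by
        have h6 := finrank_span_finset_le_card (R := ℂ) ({f1, f2} : Finset (Fin 4 → ℂ))
        rw [Finset.coe_pair] at h6
        exact h6.trans Finset.card_le_two
      omega
    · -- case I.b
      have hspan : ∀ m' ∈ kSpan ℂ Rm,
          (![-m' 0, -th * m' 0 + m' 1, -th * m' 2 + m' 3] : Fin 3 → ℂ) ∈ Af →
          m' ∈ Submodule.span ℂ {m} := by
        intro m' hm' hmA'
        obtain ⟨g1, g2, -⟩ := hsol m' hm' hmA'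
        rw [Submodule.mem_span_singleton]
        by_cases hdet : m 0 * m' 2 - m' 0 * m 2 = 0
        · refine ⟨m' 0 / m 0, ?_⟩
          funext i
          fin_cases i
          · simp; field_simp
          · simp [g1, m1]; field_simp
          · simp; field_simp; linear_combination -hdet
          · simp [g2, m3]; field_simp; linear_combination (-th) * hdet
        · exfalso
          apply hff
          have e1 : (m 0 * m' 2 - m' 0 * m 2) • f1 = m' 2 • m + (-m 2) • m' := by
            funext i
            fin_cases i
            · simp [f1]; ring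
            · simp [f1, g1, m1]; ring
            · simp [f1]; ring
            · simp [f1, g2, m3]; ring
          have e2 : (m 0 * m' 2 - m' 0 * m 2) • f2 = (-m' 0) • m + m 0 • m' := by
            funext i
            fin_cases i
            · simp [f2]; ring
            · simp [f2, g1, m1]; ring
            · simp [f2]; ring
            · simp [f2, g2, m3]; ring
          constructor
          · rw [← Submodule.smul_mem_iff _ hdet, e1]
            exact Submodule.add_mem _ (Submodule.smul_mem _ _ hm) (Submodule.smul_mem _ _ hm')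
          · rw [← Submodule.smul_mem_iff _ hdet, e2]
            exact Submodule.add_mem _ (Submodule.smul_mem _ _ hm) (Submodule.smul_mem _ _ hm')
      have h4 := h3 (Submodule.span ℂ {m}) hspan
      have h5 : finrank ℂ (Submodule.span ℂ {m}) ≤ 1 := (finrank_span_le_card _).trans (by simp)
      have h6 : finrank ℤ G0 ≤ 4 := by
        have := finrank_le_card G0 {2, 3, 4, 5} (by
          intro s hs h
          obtain ⟨z0, z1⟩ := hs01 s hs
          funext i
          fin_cases i
          · exact z0
          · exact z1
          · exact h 2 (by simp)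
          · exact h 3 (by simp)
          · exact h 4 (by simp)
          · exact h 5 (by simp))
        simpa using this
      have hmne : m ≠ 0 := fun h => hm0 (by rw [h]; rfl)
      -- the rank of `Rm` is at least two
      have h7 : 2 ≤ finrank ℤ Rm := by
        by_contra hlt
        have h8 := hrk_pos m hm hmne
        have h9 : finrank ℂ (kSpan ℂ Rm) ≤ 1 := by rw [finrank_kSpan]; omega
        have h10 : Submodule.span ℂ {m} = kSpan ℂ Rm := by
          apply Submodule.eq_of_le_of_finrank_le
          · rw [Submodule.span_le]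
            intro x hx
            rw [Set.mem_singleton_iff] at hx
            rw [hx]; exact hm
          · rw [finrank_span_singleton hmne]
            exact h9
        obtain ⟨r, hr, hr0⟩ := exists_ne_zero_of_finrank Rm h8
        have h11 : (fun j => ((r j : ℤ) : ℂ)) ∈ Submodule.span ℂ {m} := by
          rw [h10]
          exact Submodule.subset_span ⟨r, hr, rfl⟩
        rw [Submodule.mem_span_singleton] at h11
        obtain ⟨c, hc⟩ := h11
        have c0 := congrFun hc 0
        have c1 := congrFun hc 1
        simp only [Pi.smul_apply, smul_eq_mul, m1] at c0 c1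
        have h12 := th_irr (-(r 1 : ℚ)) (r 0 : ℚ) (by
          push_cast
          linear_combination -th * c0 + c1)
        have h13 : c = 0 := by
          have : (r 0 : ℂ) = 0 := by exact_mod_cast h12.2
          rw [this] at c0
          exact (mul_eq_zero.mp c0).resolve_right hm0
        apply hr0
        funext j
        have := congrFun hc j
        rw [h13, zero_smul, Pi.zero_apply] at this
        exact_mod_cast this.symm
      have hg4 : finrank ℤ G0 = 4 := by omega
      have hmem : ∀ p : Fin 6, p ∈ ({2, 3, 4, 5} : Finset (Fin 6)) →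
          ∃ N : ℕ, 0 < N ∧ (N : ℤ) • (Pi.single p 1 : Fin 6 → ℤ) ∈ G0 := by
        intro p hp
        apply mem_of_forms
        intro q hq
        have e1 : ∑ i, q i * (((Pi.single p 1 : Fin 6 → ℤ) i : ℤ) : ℚ) = q p := by
          rw [Finset.sum_eq_single p]
          · simp
          · intro i _ hi
            rw [Pi.single_eq_of_ne hi]; simp
          · simp
        rw [e1]
        by_contra hqp
        have h8 := finrank_le_card G0 (({2, 3, 4, 5} : Finset (Fin 6)).erase p) (by
          intro s hs h
          obtain ⟨z0, z1⟩ := hs01 s hs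
          have h9 : ∀ i, i ≠ p → s i = 0 := by
            intro i hi
            by_cases hi' : i ∈ ({2, 3, 4, 5} : Finset (Fin 6))
            · exact h i (Finset.mem_erase.mpr ⟨hi, hi'⟩)
            · fin_cases i
              · exact z0
              · exact z1
              · simp at hi'
              · simp at hi'
              · simp at hi'
              · simp at hi'
          have h10 := hq s hs
          rw [Finset.sum_eq_single p (fun i _ hi => by rw [h9 i hi]; simp) (by simp)] at h10
          have h11 : (s p : ℚ) = 0 := (mul_eq_zero.mp h10).resolve_left hqp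
          funext i
          by_cases hi : i = p
          · rw [hi]; exact_mod_cast h11
          · exact h9 i hi)
        rw [Finset.card_erase_of_mem hp] at h8
        have : ({2, 3, 4, 5} : Finset (Fin 6)).card = 4 := by decide
        omega
      -- all elements of `Rm` vanish
      have hRm : ∀ r ∈ Rm, r = 0 := by
        intro r hr
        have z2 : r 2 = 0 := by
          obtain ⟨N, hN, hN'⟩ := hmem 4 (by decide)
          have h8 := hG _ hN' r hr
          simp [Pi.single_apply, hlc, hN.ne'] at h8
          exact h8
        have z3 : r 3 = 0 := by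
          obtain ⟨N, hN, hN'⟩ := hmem 5 (by decide)
          have h8 := hG _ hN' r hr
          simp [Pi.single_apply, hlc, hN.ne'] at h8
          exact h8
        have z0 : r 0 = 0 := by
          obtain ⟨N, hN, hN'⟩ := hmem 2 (by decide)
          have h8 := hG _ hN' r hr
          simp [Pi.single_apply, hlb, hN.ne', z2, z3] at h8
          exact h8
        have z1 : r 1 = 0 := by
          obtain ⟨N, hN, hN'⟩ := hmem 3 (by decide)
          have h8 := hG _ hN' r hr
          simp [Pi.single_apply, hlb, hN.ne', z2, z3] at h8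
          exact h8
        funext i
        fin_cases i
        · exact z0
        · exact z1
        · exact z2
        · exact z3
      obtain ⟨r, hr, hr0⟩ := exists_ne_zero_of_finrank Rm (by omega)
      exact hr0 (hRm r hr)
  · -- case II
    push Not at hI
    have hII : ∀ m ∈ kSpan ℂ Rm,
        (![-m 0, -th * m 0 + m 1, -th * m 2 + m 3] : Fin 3 → ℂ) ∈ Af → m = m 2 • f2 := by
      intro m hm hmA
      obtain ⟨g1, g2, -⟩ := hsol m hm hmA
      have h4 := hcomb m g1 g2
      rw [hI m hm hmA, zero_smul, zero_add] at h4
      exact h4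
    by_cases hf : f2 ∈ kSpan ℂ Rm
    · have h4 := h3 (Submodule.span ℂ {f2}) (by
        intro m hm hmA
        rw [Submodule.mem_span_singleton]
        exact ⟨m 2, (hII m hm hmA).symm⟩)
      have h5 : finrank ℂ (Submodule.span ℂ {f2}) ≤ 1 := (finrank_span_le_card _).trans (by simp)
      have h6 := hrk_pos f2 hf (by
        intro h
        have := congrFun h 2
        simp [f2] at this)
      have h7 : finrank ℤ G0 ≤ 2 := by
        have := finrank_le_card G0 {0, 1} (by
          intro s hs h
          obtain ⟨N, hN, hN'⟩ := mem_of_forms Rm ![0, 0, 1, 0] (fun q hq => by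
            simp [Fin.sum_univ_four, (hform2 hf q hq).1])
          obtain ⟨M, hM, hM'⟩ := mem_of_forms Rm ![0, 0, 0, 1] (fun q hq => by
            simp [Fin.sum_univ_four, (hform2 hf q hq).2])
          have g1 := hG s hs _ hN'
          have g2 := hG s hs _ hM'
          simp only [Pi.smul_apply, Matrix.cons_val_zero, Matrix.cons_val_one, Matrix.cons_val,
            smul_eq_mul, mul_one, mul_zero, zero_mul, add_zero, zero_add, sub_zero, Int.cast_zero,
            zero_sub] at g1 g2
          obtain ⟨k1, k2⟩ := hind (-(2 * (N * s 3))) (-(N * s 4)) (by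
            push_cast at g1 ⊢
            linear_combination g1)
          obtain ⟨k3, k4⟩ := hind (M * s 2) (-(M * s 5)) (by
            push_cast at g2 ⊢
            linear_combination g2)
          have hN0 : (N : ℤ) ≠ 0 := by exact_mod_cast hN.ne'
          have hM0 : (M : ℤ) ≠ 0 := by exact_mod_cast hM.ne'
          have z3 : s 3 = 0 := by
            have : (N : ℤ) * s 3 = 0 := by omega
            exact (mul_eq_zero.mp this).resolve_left hN0
          have z4 : s 4 = 0 := by
            have : (N : ℤ) * s 4 = 0 := by omega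
            exact (mul_eq_zero.mp this).resolve_left hN0
          have z2 : s 2 = 0 := (mul_eq_zero.mp k3).resolve_left hM0
          have z5 : s 5 = 0 := by
            have : (M : ℤ) * s 5 = 0 := by omega
            exact (mul_eq_zero.mp this).resolve_left hM0
          funext i
          fin_cases i
          · exact h 0 (by simp)
          · exact h 1 (by simp)
          · exact z2
          · exact z3
          · exact z4
          · exact z5)
        simpa using this
      omega
    · have h4 := h3 ⊥ (by
        intro m hm hmA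
        rw [Submodule.mem_bot]
        have h5 := hII m hm hmA
        by_contra hm0
        have h6 : m 2 ≠ 0 := by
          intro h
          rw [h, zero_smul] at h5
          exact hm0 h5
        apply hf
        have h7 : f2 = (m 2)⁻¹ • m := by
          rw [h5]
          simp [f2, h6]
        rw [h7]
        exact Submodule.smul_mem _ _ hm)
      rw [finrank_bot] at h4
      omega

end analysis

end Pool.Agent.H12
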