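import Pool.Agent.H12.QI

/-!
# The quantitative theorem for `π ^ π`, `π ^ √2`, `e ^ (π ^ 2)`
-/

set_option autoImplicit false

namespace Pool.Agent.H12

open Finset Module Pool.Agent.H301R2.TR Pool.Agent.H335R2.Obs Pool.Agent.Y928.QN

/-- additive values of the points -/
noncomputable def alT {R : Type} [Ring R] (t : R) : Fin 3 → Fin 6 → R :=
  ![![1, t, 0, 0, 0, 0], ![0, 0, 0, 0, 0, 0], ![0, 0, 0, 0, 0, 0]]

/-- algebraic directions -/
noncomputable def gaT {R : Type} [Ring R] (t : R) : Fin 3 → Fin 4 → R :=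
  ![![-1, 0, 0, 0], ![-t, 1, 0, 0], ![0, 0, -t, 1]]

/-- multiplicative values of the points -/
noncomputable def chT {R : Type} [Ring R] (a b a' c' : R) : Fin 4 → Fin 6 → R :=
  ![![1, 1, b, 1, -1, 1], ![1, 1, 1, b, 1, -1], ![-1, 1, 1, a' ^ 2, c', 1], ![1, -1, a, 1, 1, c']]

noncomputable def xT : Fin 1 → Fin 4 → ℂ := ![![1, 0, Real.pi * Complex.I, 0]]

noncomputable def yT (lb : ℝ) : Fin 1 → Fin 6 → ℂ :=
  ![![1, th, lb, th * lb, Real.pi * Complex.I, th * (Real.pi * Complex.I)]]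

noncomputable def omT (lb : ℝ) : Fin 3 → Fin 6 → ℂ :=
  ![![1, th, 0, 0, 0, 0], ![0, 0, 0, lb, 0, Real.pi * Complex.I],
    ![0, Real.pi * Complex.I, ((Real.pi * lb / Real.sqrt 2 : ℝ) : ℂ), 0, 0, -((Real.pi ^ 2 : ℝ) : ℂ)]]

/-- the logarithms -/
noncomputable def uT (lb : ℝ) : Fin 4 → Fin 6 → ℂ :=
  ![![0, 0, lb, 0, Real.pi * Complex.I, 0], ![0, 0, 0, lb, 0, Real.pi * Complex.I],
    ![Real.pi * Complex.I, 0, 0, ((-(Real.sqrt 2 * Real.pi * lb) : ℝ) : ℂ), ((-Real.pi ^ 2 : ℝ) : ℂ), 0],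
    ![0, Real.pi * Complex.I, ((Real.pi * lb / Real.sqrt 2 : ℝ) : ℂ), 0, 0, ((-Real.pi ^ 2 : ℝ) : ℂ)]]

theorem uT_eq (lb : ℝ) (j : Fin 4) (p : Fin 6) :
    ∑ ρ : Fin 1, xT ρ j * yT lb ρ p + ∑ i : Fin 3, gaT th i j * omT lb i p = uT lb j p := by
  have h2 : ((Real.sqrt 2 : ℝ) : ℂ) ≠ 0 := by
    have : Real.sqrt 2 ≠ 0 := by positivity
    exact_mod_cast this
  have hI : Complex.I * Complex.I = -1 := Complex.I_mul_I
  have e1 : th * ((Real.pi * lb / Real.sqrt 2 : ℝ) : ℂ) = Real.pi * Complex.I * lb := by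
    unfold th
    push_cast
    field_simp
  have e2 : (Real.pi * Complex.I) * (th * lb) = ((-(Real.sqrt 2 * Real.pi * lb) : ℝ) : ℂ) := by
    unfold th
    push_cast
    linear_combination ((Real.pi : ℂ) * (Real.sqrt 2 : ℝ) * lb) * hI
  have e3 : (Real.pi * Complex.I) * (Real.pi * Complex.I) = ((-Real.pi ^ 2 : ℝ) : ℂ) := by
    push_cast
    linear_combination ((Real.pi : ℂ) ^ 2) * hI
  rw [Fin.sum_univ_one, Fin.sum_univ_three]
  fin_cases j <;> fin_cases p <;>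
    simp only [xT, yT, gaT, omT, uT, Fin.zero_eta, Fin.mk_one, Fin.reduceFinMk, Fin.isValue,
      Matrix.cons_val_zero, Matrix.cons_val_one, Matrix.cons_val, Matrix.cons_val_fin_one,
      mul_zero, zero_mul, add_zero, zero_add, mul_one, one_mul, neg_mul, neg_add_cancel,
      add_neg_cancel, neg_zero]
  · rw [mul_comm]; ring
  · linear_combination -e1
  · exact e2
  · exact e3
  · have : (Real.pi * Complex.I) * (th * (Real.pi * Complex.I)) =
        th * ((Real.pi * Complex.I) * (Real.pi * Complex.I)) := by ring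
    rw [this, e3]
    push_cast
    ring
  · push_cast; ring

end Pool.Agent.H12
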