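import Pool.Agent.H12.QJ

/-!
# The quantitative theorem for `π ^ π`, `π ^ √2`, `e ^ (π ^ 2)`: lemmas on the tables
-/

set_option autoImplicit false

namespace Pool.Agent.H12

open Finset Module Pool.Agent.H301R2.TR Pool.Agent.H335R2.Obs Pool.Agent.Y928.QN

theorem chT_all {R : Type} [Ring R] (P : R → Prop) (a b a' c' : R) (h1 : P 1) (hn : P (-1))
    (hb : P b) (ha2 : P (a' ^ 2)) (hc : P c') (ha : P a) (j : Fin 4) (p : Fin 6) :
    P (chT a b a' c' j p) := by
  fin_cases j <;> fin_cases p <;>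
    first
      | exact h1
      | exact hn
      | exact hb
      | exact ha2
      | exact hc
      | exact ha

theorem chT_rel {R S : Type} [Ring R] [Ring S] (P : R → S → Prop) (a b a' c' : R) (x y x' z' : S)
    (h1 : P 1 1) (hn : P (-1) (-1)) (hb : P b y) (ha2 : P (a' ^ 2) (x' ^ 2)) (hc : P c' z')
    (ha : P a x) (j : Fin 4) (p : Fin 6) :
    P (chT a b a' c' j p) (chT x y x' z' j p) := by
  fin_cases j <;> fin_cases p <;>
    first
      | exact h1
      | exact hn
      | exact hb
      | exact ha2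
      | exact hc
      | exact ha

theorem gaT_all {R : Type} [Ring R] (P : R → Prop) (t : R) (h0 : P 0) (h1 : P 1) (hn : P (-1))
    (ht : P (-t)) (i : Fin 3) (j : Fin 4) : P (gaT t i j) := by
  fin_cases i <;> fin_cases j <;>
    first
      | exact h0
      | exact h1
      | exact hn
      | exact ht

theorem gaT_rel {R S : Type} [Ring R] [Ring S] (P : R → S → Prop) (t : R) (u : S)
    (h0 : P 0 0) (h1 : P 1 1) (hn : P (-1) (-1)) (ht : P (-t) (-u)) (i : Fin 3) (j : Fin 4) :
    P (gaT t i j) (gaT u i j) := by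
  fin_cases i <;> fin_cases j <;>
    first
      | exact h0
      | exact h1
      | exact hn
      | exact ht

theorem alT_all {R : Type} [Ring R] (P : R → Prop) (t : R) (h0 : P 0) (h1 : P 1)
    (ht : P t) (i : Fin 3) (p : Fin 6) : P (alT t i p) := by
  fin_cases i <;> fin_cases p <;>
    first
      | exact h0
      | exact h1
      | exact ht

theorem alT_rel {R S : Type} [Ring R] [Ring S] (P : R → S → Prop) (t : R) (u : S)
    (h0 : P 0 0) (h1 : P 1 1) (ht : P t u) (i : Fin 3) (p : Fin 6) :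
    P (alT t i p) (alT u i p) := by
  fin_cases i <;> fin_cases p <;>
    first
      | exact h0
      | exact h1
      | exact ht

theorem chuT_rel {R : Type} [Ring R] (P : R → ℂ → Prop) (a b a' c' : R) (lb : ℝ)
    (h1 : P 1 0) (hn : P (-1) (Real.pi * Complex.I)) (hb : P b lb)
    (ha2 : P (a' ^ 2) ((-(Real.sqrt 2 * Real.pi * lb) : ℝ) : ℂ)) (hc : P c' ((-Real.pi ^ 2 : ℝ) : ℂ))
    (ha : P a ((Real.pi * lb / Real.sqrt 2 : ℝ) : ℂ)) (j : Fin 4) (p : Fin 6) :
    P (chT a b a' c' j p) (uT lb j p) := by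
  fin_cases j <;> fin_cases p
  · exact h1
  · exact h1
  · exact hb
  · exact h1
  · exact hn
  · exact h1
  · exact h1
  · exact h1
  · exact h1
  · exact hb
  · exact h1
  · exact hn
  · exact hn
  · exact h1
  · exact h1
  · exact ha2
  · exact hc
  · exact h1
  · exact h1
  · exact hn
  · exact ha
  · exact h1
  · exact h1
  · exact hc

theorem xT_all (P : ℂ → Prop) (h0 : P 0) (h1 : P 1) (hp : P (Real.pi * Complex.I)) (ρ : Fin 1)
    (j : Fin 4) : P (xT ρ j) := by
  fin_cases ρ; fin_cases j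
  · exact h1
  · exact h0
  · exact hp
  · exact h0

theorem yT_all (P : ℂ → Prop) (lb : ℝ) (h1 : P 1) (ht : P th) (hl : P lb) (htl : P (th * lb))
    (hp : P (Real.pi * Complex.I)) (htp : P (th * (Real.pi * Complex.I))) (ρ : Fin 1)
    (p : Fin 6) : P (yT lb ρ p) := by
  fin_cases ρ; fin_cases p
  · exact h1
  · exact ht
  · exact hl
  · exact htl
  · exact hp
  · exact htp

theorem omT_all (P : ℂ → Prop) (lb : ℝ) (h0 : P 0) (h1 : P 1) (ht : P th) (hl : P lb)
    (hp : P (Real.pi * Complex.I)) (hm : P ((Real.pi * lb / Real.sqrt 2 : ℝ) : ℂ))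
    (hq : P (-((Real.pi ^ 2 : ℝ) : ℂ))) (i : Fin 3) (p : Fin 6) : P (omT lb i p) := by
  fin_cases i <;> fin_cases p
  · exact h1
  · exact ht
  · exact h0
  · exact h0
  · exact h0
  · exact h0
  · exact h0
  · exact h0
  · exact h0
  · exact hl
  · exact h0
  · exact hp
  · exact h0
  · exact hp
  · exact hm
  · exact h0
  · exact h0
  · exact hq

theorem alT_omT (lb : ℝ) (p : Fin 6) : alT th 0 p = omT lb 0 p := by
  unfold alT omT
  fin_cases p <;> simp

theorem gaT_vec (m : Fin 4 → ℂ) :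
    (fun i => ∑ j, m j * gaT th i j) = ![-m 0, -th * m 0 + m 1, -th * m 2 + m 3] := by
  funext i
  rw [Fin.sum_univ_four]
  unfold gaT
  fin_cases i
  · simp
  · simp [mul_comm]
  · simp [mul_comm]

end Pool.Agent.H12
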