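import Pool.Agent.H12.QK

/-!
# The quantitative theorem for `π ^ π`, `π ^ √2`, `e ^ (π ^ 2)`: the logarithmic relation
-/

set_option autoImplicit false
namespace Pool.Agent.H12
open Finset Module Pool.Agent.H301R2.TR Pool.Agent.H335R2.Obs Pool.Agent.Y928.QN

/-- logarithms of the absolute values of the multiplicative values -/
noncomputable def lgT (la lb lc : ℝ) : Fin 4 → Fin 6 → ℝ :=
  ![![0, 0, lb, 0, 0, 0], ![0, 0, 0, lb, 0, 0], ![0, 0, 0, -2 * la, -lc, 0],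
    ![0, 0, la, 0, 0, -lc]]

theorem lgT_rel {R : Type} [Ring R] (P : R → ℝ → Prop) (a b a' c' : R) (la lb lc : ℝ)
    (h1 : P 1 0) (hn : P (-1) 0) (hb : P b lb)
    (ha2 : P (a' ^ 2) (-2 * la)) (hc : P c' (-lc))
    (ha : P a la) (j : Fin 4) (p : Fin 6) :
    P (chT a b a' c' j p) (lgT la lb lc j p) := by
  fin_cases j <;> fin_cases p
  · exact h1
  · exact h1
  · exact hb
  · exact h1
  · exact hn
  · exact h1
  · exact h1
  · exact h1
  · exact h1
  · exact hb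
  · exact h1
  · exact hn
  · exact hn
  · exact h1
  · exact h1
  · exact ha2
  · exact hc
  · exact h1
  · exact h1
  · exact hn
  · exact ha
  · exact h1
  · exact h1
  · exact hc

theorem lgT_sum (la lb lc : ℝ) (s : Fin 6 → ℤ) (m : Fin 4 → ℤ) :
    ∑ j, (m j : ℝ) * ∑ p, (s p : ℝ) * lgT la lb lc j p =
      ((m 0 * s 2 + m 1 * s 3 : ℤ) : ℝ) * lb +
      ((m 3 * s 2 - 2 * (m 2 * s 3) : ℤ) : ℝ) * la -
        ((m 2 * s 4 + m 3 * s 5 : ℤ) : ℝ) * lc := by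
  simp only [Fin.sum_univ_four, Fin.sum_univ_six, lgT, Matrix.cons_val_zero,
      Matrix.cons_val_one, Matrix.cons_val]
  push_cast
  ring

/-- the relation satisfied by the obstruction, in logarithmic form -/
theorem log_relation (a b c : ℝ) (ha : 0 < a) (hb : 0 < b) (hc : 0 < c) (s : Fin 6 → ℤ)
    (m : Fin 4 → ℤ)
    (h : ∏ j, (∏ p, (chT (a : ℂ) b (a : ℂ)⁻¹ (c : ℂ)⁻¹ j p) ^ s p) ^ m j = 1) :
    ((m 0 * s 2 + m 1 * s 3 : ℤ) : ℝ) * Real.log b +
      ((m 3 * s 2 - 2 * (m 2 * s 3) : ℤ) : ℝ) * Real.log a -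
        ((m 2 * s 4 + m 3 * s 5 : ℤ) : ℝ) * Real.log c = 0 := by
  have hne : ∀ (j : Fin 4) (p : Fin 6), chT (a : ℂ) b (a : ℂ)⁻¹ (c : ℂ)⁻¹ j p ≠ 0 := by
    have ha' : (a : ℂ) ≠ 0 := by exact_mod_cast ha.ne'
    have hb' : (b : ℂ) ≠ 0 := by exact_mod_cast hb.ne'
    have hc' : (c : ℂ) ≠ 0 := by exact_mod_cast hc.ne'
    exact chT_all (fun z : ℂ => z ≠ 0) _ _ _ _ one_ne_zero (neg_ne_zero.mpr one_ne_zero) hb'
      (pow_ne_zero _ (inv_ne_zero ha')) (inv_ne_zero hc') ha'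
  have hlg : ∀ (j : Fin 4) (p : Fin 6), Real.log ‖chT (a : ℂ) b (a : ℂ)⁻¹ (c : ℂ)⁻¹ j p‖ =
      lgT (Real.log a) (Real.log b) (Real.log c) j p := by
    refine lgT_rel (fun (z : ℂ) (y : ℝ) => Real.log ‖z‖ = y) _ _ _ _ _ _ _ ?_ ?_ ?_ ?_ ?_ ?_
    · rw [norm_one, Real.log_one]
    · rw [norm_neg, norm_one, Real.log_one]
    · rw [Complex.norm_real, Real.norm_of_nonneg hb.le]
    · rw [norm_pow, norm_inv, Complex.norm_real, Real.norm_of_nonneg ha.le, Real.log_pow,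
        Real.log_inv]
      push_cast; ring
    · rw [norm_inv, Complex.norm_real, Real.norm_of_nonneg hc.le, Real.log_inv]
    · rw [Complex.norm_real, Real.norm_of_nonneg ha.le]
  rw [← lgT_sum]
  generalize lgT (Real.log a) (Real.log b) (Real.log c) = G at hlg ⊢
  generalize chT (a : ℂ) b (a : ℂ)⁻¹ (c : ℂ)⁻¹ = X at hlg hne h
  have h1 : Real.log ‖∏ j, (∏ p, (X j p) ^ s p) ^ m j‖ = 0 := by
    rw [h, norm_one, Real.log_one]
  rw [← h1, norm_prod, Real.log_prod]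
  · refine Finset.sum_congr rfl fun j _ => ?_
    rw [norm_zpow, Real.log_zpow, norm_prod, Real.log_prod]
    · congr 1
      refine Finset.sum_congr rfl fun p _ => ?_
      rw [norm_zpow, Real.log_zpow, hlg]
    · intro p _
      rw [norm_ne_zero_iff]
      exact zpow_ne_zero _ (hne j p)
  · intro j _
    rw [norm_ne_zero_iff]
    apply zpow_ne_zero
    rw [Finset.prod_ne_zero_iff]
    intro p _
    exact zpow_ne_zero _ (hne j p)

end Pool.Agent.H12
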