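import Pool.Agent.H12.QL

/-!
# The quantitative theorem for `π ^ π`, `π ^ √2`, `e ^ (π ^ 2)`: application of the obstruction
theorem
-/

set_option autoImplicit false

namespace Pool.Agent.H12

open Finset Module Pool.Agent.H301R2.TR Pool.Agent.H335R2.Obs Pool.Agent.Y928.QN

theorem norm_bounds (B lb : ℝ) (hB : 1 ≤ B) (hlb0 : 0 < lb) (hlogb : lb ≤ B) :
    ‖(0 : ℂ)‖ ≤ 20 * B ∧ ‖(1 : ℂ)‖ ≤ 20 * B ∧ ‖th‖ ≤ 20 * B ∧ ‖(lb : ℂ)‖ ≤ 20 * B ∧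
      ‖(Real.pi : ℂ) * Complex.I‖ ≤ 20 * B ∧ ‖th * (lb : ℂ)‖ ≤ 20 * B ∧
      ‖th * ((Real.pi : ℂ) * Complex.I)‖ ≤ 20 * B ∧
      ‖((Real.pi * lb / Real.sqrt 2 : ℝ) : ℂ)‖ ≤ 20 * B ∧ ‖-((Real.pi ^ 2 : ℝ) : ℂ)‖ ≤ 20 * B := by
  have hs2 : Real.sqrt 2 ≤ 2 := by
    rw [Real.sqrt_le_left (by norm_num)]; norm_num
  have hs2' : 1 ≤ Real.sqrt 2 := by
    rw [Real.one_le_sqrt]; norm_num
  have hpi4 := Real.pi_lt_four
  have hpi0 := Real.pi_pos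
  have npi : ‖(Real.pi : ℂ) * Complex.I‖ ≤ 4 := by
    rw [norm_mul, Complex.norm_I, mul_one, Complex.norm_real, Real.norm_of_nonneg hpi0.le]
    exact hpi4.le
  have nth : ‖th‖ ≤ 2 := by rw [norm_th]; exact hs2
  have nlb : ‖(lb : ℂ)‖ ≤ B := by
    rw [Complex.norm_real, Real.norm_of_nonneg hlb0.le]; exact hlogb
  have n1 := norm_nonneg th
  have n2 := norm_nonneg (lb : ℂ)
  have n3 := norm_nonneg ((Real.pi : ℂ) * Complex.I)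
  refine ⟨?_, ?_, ?_, ?_, ?_, ?_, ?_, ?_, ?_⟩
  · rw [norm_zero]; linarith
  · rw [norm_one]; linarith
  · linarith
  · linarith
  · linarith
  · rw [norm_mul]
    calc ‖th‖ * ‖(lb : ℂ)‖ ≤ 2 * B := mul_le_mul nth nlb n2 (by norm_num)
      _ ≤ _ := by linarith
  · rw [norm_mul]
    calc ‖th‖ * ‖(Real.pi : ℂ) * Complex.I‖ ≤ 2 * 4 := mul_le_mul nth npi n3 (by norm_num)
      _ ≤ _ := by linarith
  · rw [Complex.norm_real, Real.norm_of_nonneg (by positivity), div_le_iff₀ (by positivity)]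
    calc Real.pi * lb ≤ 4 * B := mul_le_mul hpi4.le hlogb hlb0.le (by norm_num)
      _ ≤ 20 * B * 1 := by linarith
      _ ≤ 20 * B * Real.sqrt 2 := mul_le_mul_of_nonneg_left hs2' (by linarith)
  · rw [norm_neg, Complex.norm_real, Real.norm_of_nonneg (by positivity)]
    calc Real.pi ^ 2 ≤ 4 ^ 2 := pow_le_pow_left₀ hpi0.le hpi4.le 2
      _ ≤ 20 * B := by linarith

/-- the closeness of the multiplicative values to the exponentials -/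
theorem close_T (a b c ε : ℝ) (hb1 : 1 < b) (hε0 : 0 ≤ ε)
    (hε1 : |a - Real.exp (Real.pi * Real.log b / Real.sqrt 2)| ≤ ε)
    (hε2 : |(a⁻¹) ^ 2 - Real.exp (-(Real.sqrt 2 * Real.pi * Real.log b))| ≤ ε)
    (hε3 : |c⁻¹ - Real.exp (-Real.pi ^ 2)| ≤ ε) (j : Fin 4) (p : Fin 6) :
    ‖chT (a : ℂ) b (a : ℂ)⁻¹ (c : ℂ)⁻¹ j p - Complex.exp (uT (Real.log b) j p)‖ ≤ ε := by
  have r1 : ∀ x y : ℝ, |x - Real.exp y| ≤ ε → ‖(x : ℂ) - Complex.exp ((y : ℝ) : ℂ)‖ ≤ ε := by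
    intro x y hxy
    rw [← Complex.ofReal_exp, ← Complex.ofReal_sub, Complex.norm_real]
    exact hxy
  refine chuT_rel (fun (z u : ℂ) => ‖z - Complex.exp u‖ ≤ ε) _ _ _ _ _ ?_ ?_ ?_ ?_ ?_ ?_ j p
  · simp only [Complex.exp_zero, sub_self, norm_zero]; exact hε0
  · simp only [Complex.exp_pi_mul_I, sub_self, norm_zero]; exact hε0
  · simp only [← Complex.ofReal_exp]
    rw [Real.exp_log (by linarith), sub_self, norm_zero]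
    exact hε0
  · have := r1 ((a⁻¹) ^ 2) _ hε2
    simp only [Complex.ofReal_pow, Complex.ofReal_inv] at this
    exact this
  · have := r1 (c⁻¹) _ hε3
    simp only [Complex.ofReal_inv] at this
    exact this
  · exact r1 a _ hε1

theorem field_T (D k H : ℕ) (hH : 3 ≤ H) (a b c : ℝ) (ha : AlgHt D (H ^ k) (a : ℂ))
    (hb : AlgHt D (H ^ k) (b : ℂ)) (hc : AlgHt D (H ^ k) (c : ℂ)) (ha1 : 1 < a) (hc1 : 1 < c) :
    ∃ (F : Type) (_ : Field F) (_ : NumberField F) (φ : F →ₐ[ℚ] ℂ) (wt wa wb wc : F),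
      finrank ℚ F ≤ (D + 2) ^ 4 ∧ φ wt = th ∧ φ wa = a ∧ φ wb = b ∧ φ wc = c ∧
      Sz ((H : ℝ) ^ (2 * k + 2)) wt ∧ Sz ((H : ℝ) ^ (2 * k + 2)) wa ∧
      Sz ((H : ℝ) ^ (2 * k + 2)) wb ∧ Sz ((H : ℝ) ^ (2 * k + 2)) wc⁻¹ ∧
      Sz ((H : ℝ) ^ (2 * k + 2)) (wa⁻¹ ^ 2) := by
  have hH3 : (3 : ℝ) ≤ H := by exact_mod_cast hH
  have hH1 : (1 : ℝ) ≤ H := by linarith
  have ha0 : (a : ℂ) ≠ 0 := by exact_mod_cast (by linarith : a ≠ 0)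
  have hc0 : (c : ℂ) ≠ 0 := by exact_mod_cast (by linarith : c ≠ 0)
  obtain ⟨F, i1, i2, φ, hDg, hφ⟩ := exists_field_fam (D + 2) 4 ![th, (a : ℂ), (b : ℂ), (c : ℂ)] (by
    intro i
    fin_cases i
    · exact ⟨2, algHt_th.mono (by omega) le_rfl⟩
    · exact ⟨H ^ k, ha.mono (by omega) le_rfl⟩
    · exact ⟨H ^ k, hb.mono (by omega) le_rfl⟩
    · exact ⟨H ^ k, hc.mono (by omega) le_rfl⟩)
  obtain ⟨wt, hwt⟩ := hφ 0
  obtain ⟨wa, hwa⟩ := hφ 1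
  obtain ⟨wb, hwb⟩ := hφ 2
  obtain ⟨wc, hwc⟩ := hφ 3
  simp only [Matrix.cons_val_zero, Matrix.cons_val_one, Matrix.cons_val] at hwt hwa hwb hwc
  have hwa' : φ wa⁻¹ = (a : ℂ)⁻¹ := by rw [map_inv₀, hwa]
  have hwc' : φ wc⁻¹ = (c : ℂ)⁻¹ := by rw [map_inv₀, hwc]
  have hp : (H : ℝ) ^ (k + 1) ≤ (H : ℝ) ^ (2 * k + 2) := pow_le_pow_right₀ hH1 (by omega)
  refine ⟨F, i1, i2, φ, wt, wa, wb, wc, hDg, hwt, hwa, hwb, hwc, ?_, ?_, ?_, ?_, ?_⟩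
  · exact (algHt_th.sz φ wt hwt).mono (by
      calc ((2 : ℕ) : ℝ) + 1 ≤ (H : ℝ) ^ 1 := by rw [pow_one]; push_cast; linarith
        _ ≤ _ := pow_le_pow_right₀ hH1 (by omega))
  · exact (ha.sz φ wa hwa).mono ((pow_succ_bound hH k).trans hp)
  · exact (hb.sz φ wb hwb).mono ((pow_succ_bound hH k).trans hp)
  · exact ((hc.inv hc0).sz φ _ hwc').mono ((pow_succ_bound hH k).trans hp)
  · refine ((((ha.inv ha0).sz φ _ hwa').mono (pow_succ_bound hH k)).pow 2).mono (le_of_eq ?_)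
    rw [← pow_mul]; congr 1; ring

end Pool.Agent.H12
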