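import Pool.Agent.H12.QM

/-!
# The quantitative theorem for `π ^ π`, `π ^ √2`, `e ^ (π ^ 2)`: conclusion
-/

set_option autoImplicit false

namespace Pool.Agent.H12

open Finset Module Pool.Agent.H301R2.TR Pool.Agent.H335R2.Obs Pool.Agent.Y928.QN

theorem tri_fin (a b c : ℝ) (ha1 : 1 < a) (hb1 : 1 < b) (hc1 : 1 < c)
    (hind : ∀ i j : ℤ, (i : ℝ) * Real.log a + j * Real.log c = 0 → i = 0 ∧ j = 0)
    (Af : Submodule ℂ (Fin 3 → ℂ)) (Rm : AddSubgroup (Fin 4 → ℤ)) (G0 : AddSubgroup (Fin 6 → ℤ))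
    (h1 : ∀ a ∈ Af, ∀ i ∉ ({0} : Finset (Fin 3)), a i = 0)
    (h2 : ∀ s, s ∈ G0 ↔ (∀ v ∈ Af, ∑ i, v i * ∑ p, alT th i p * (s p : ℂ) = 0) ∧
        ∀ m ∈ Rm, ∏ j, (∏ p, chT (a : ℂ) b (a : ℂ)⁻¹ (c : ℂ)⁻¹ j p ^ s p) ^ m j = 1)
    (h3 : ∀ N : Submodule ℂ (Fin 4 → ℂ),
        (∀ m ∈ kSpan ℂ Rm, (fun i => ∑ j, gaT th i j * m j) ∈ Af → m ∈ N) →
          ((6 - finrank ℤ G0) + finrank ℤ Rm) * 5 < finrank ℂ N * 25) : False := by
  refine tri_analysis Af Rm G0 (Real.log a) (Real.log b) (Real.log c) ?_ ?_ ?_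
    (Real.log_pos ha1).ne' (Real.log_pos hb1).ne' (Real.log_pos hc1).ne' hind ?_
  · intro s hs m hm
    exact log_relation a b c (by linarith) (by linarith) (by linarith) s m (((h2 s).mp hs).2 m hm)
  · intro hAf s hs
    obtain ⟨v, hv, hv0⟩ := Submodule.exists_mem_ne_zero_of_ne_bot hAf
    have h4 := ((h2 s).mp hs).1 v hv
    have v1 : v 1 = 0 := h1 v hv 1 (by decide)
    have v2 : v 2 = 0 := h1 v hv 2 (by decide)
    have v0 : v 0 ≠ 0 := by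
      intro h
      apply hv0
      funext i
      fin_cases i
      · exact h
      · exact v1
      · exact v2
    rw [Fin.sum_univ_three, v1, v2, zero_mul, zero_mul, add_zero, add_zero] at h4
    have h5 := (mul_eq_zero.mp h4).resolve_left v0
    have h6 : ∑ p, alT th 0 p * (s p : ℂ) = s 0 + th * s 1 := by
      rw [Fin.sum_univ_six]
      simp [alT]
    rw [h6] at h5
    have h7 := th_irr (s 0 : ℚ) (s 1 : ℚ) (by
      push_cast
      linear_combination h5)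
    exact ⟨by exact_mod_cast h7.1, by exact_mod_cast h7.2⟩
  · intro v hv
    exact ⟨h1 v hv 1 (by decide), h1 v hv 2 (by decide)⟩
  · intro N hN
    apply h3
    intro m hm hm'
    apply hN m hm
    have e : (fun i => ∑ j, gaT th i j * m j) = (fun i => ∑ j, m j * gaT th i j) := by
      funext i
      exact Finset.sum_congr rfl fun j _ => mul_comm _ _
    rw [e, gaT_vec] at hm'
    exact hm'

theorem tri_core (D k : ℕ) (B : ℝ) (hB : 1 ≤ B) : ∃ C : ℝ, 0 < C ∧ ∀ H : ℕ, 3 ≤ H →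
    ∀ a b c : ℝ, AlgHt D (H ^ k) (a : ℂ) → AlgHt D (H ^ k) (b : ℂ) → AlgHt D (H ^ k) (c : ℂ) →
    1 < a → 1 < b → 1 < c → Real.log b ≤ B →
    (∀ i j : ℤ, (i : ℝ) * Real.log a + j * Real.log c = 0 → i = 0 ∧ j = 0) →
    |a - Real.exp (Real.pi * Real.log b / Real.sqrt 2)| ≤ Real.exp (-(C * Real.log H ^ 26)) →
    |(a⁻¹) ^ 2 - Real.exp (-(Real.sqrt 2 * Real.pi * Real.log b))| ≤
      Real.exp (-(C * Real.log H ^ 26)) →
    |c⁻¹ - Real.exp (-Real.pi ^ 2)| ≤ Real.exp (-(C * Real.log H ^ 26)) → False := by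
  obtain ⟨C, hC, hmain⟩ := QTH (w := 3) (b := 4) (l := 6) (r := 1) {0} 25 20 5 ((D + 2) ^ 4)
    (2 * k + 2) (20 * B) (by linarith) (by norm_num) (by norm_num) (by simp)
  refine ⟨C, hC, fun H hH a b c ha hb hc ha1 hb1 hc1 hlogb hind hε1 hε2 hε3 => ?_⟩
  obtain ⟨F, i1, i2, φ, wt, wa, wb, wc, hDg, hwt, hwa, hwb, hwc, st, sa, sb, sc, sa2⟩ :=
    field_T D k H hH a b c ha hb hc ha1 hc1
  have hH3 : (3 : ℝ) ≤ H := by exact_mod_cast hH
  have p0 : (1 : ℝ) ≤ (H : ℝ) ^ (2 * k + 2) := one_le_pow₀ (by linarith)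
  have ha0 : (a : ℂ) ≠ 0 := by exact_mod_cast (by linarith : a ≠ 0)
  have hb0 : (b : ℂ) ≠ 0 := by exact_mod_cast (by linarith : b ≠ 0)
  have hc0 : (c : ℂ) ≠ 0 := by exact_mod_cast (by linarith : c ≠ 0)
  have hlb0 : 0 < Real.log b := Real.log_pos hb1
  obtain ⟨n0, n1, nt, nl, np, ntl, ntp, nm, nq⟩ := norm_bounds B (Real.log b) hB hlb0 hlogb
  have hwa' : φ wa⁻¹ = (a : ℂ)⁻¹ := by rw [map_inv₀, hwa]
  have hwc' : φ wc⁻¹ = (c : ℂ)⁻¹ := by rw [map_inv₀, hwc]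
  have chmap : ∀ j p, φ (chT wa wb wa⁻¹ wc⁻¹ j p) = chT (a : ℂ) b (a : ℂ)⁻¹ (c : ℂ)⁻¹ j p :=
    chT_rel (fun (x : F) (y : ℂ) => φ x = y) _ _ _ _ _ _ _ _ (map_one φ)
      (by rw [map_neg, map_one]) hwb (by rw [map_pow, hwa']) hwc' hwa
  have gamap : ∀ i j, φ (gaT wt i j) = gaT th i j :=
    gaT_rel (fun (x : F) (y : ℂ) => φ x = y) _ _ (map_zero φ) (map_one φ)
      (by rw [map_neg, map_one]) (by rw [map_neg, hwt])
  have almap : ∀ i p, φ (alT wt i p) = alT th i p :=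
    alT_rel (fun (x : F) (y : ℂ) => φ x = y) _ _ (map_zero φ) (map_one φ) hwt
  have chne : ∀ j p, chT (a : ℂ) b (a : ℂ)⁻¹ (c : ℂ)⁻¹ j p ≠ 0 :=
    chT_all (fun z : ℂ => z ≠ 0) _ _ _ _ one_ne_zero (neg_ne_zero.mpr one_ne_zero) hb0
      (pow_ne_zero _ (inv_ne_zero ha0)) (inv_ne_zero hc0) ha0
  obtain ⟨Af, Rm, G0, h1, h2, h3⟩ := hmain H hH F φ hDg (gaT wt) (alT wt) (chT wa wb wa⁻¹ wc⁻¹)
    xT (yT (Real.log b)) (omT (Real.log b))
    (gaT_all (fun x : F => Sz ((H : ℝ) ^ (2 * k + 2)) x) _ (Sz.zero p0) (Sz.one p0)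
      (Sz.one p0).neg st.neg)
    (alT_all (fun x : F => Sz ((H : ℝ) ^ (2 * k + 2)) x) _ (Sz.zero p0) (Sz.one p0) st)
    (chT_all (fun x : F => Sz ((H : ℝ) ^ (2 * k + 2)) x) _ _ _ _ (Sz.one p0) (Sz.one p0).neg
      sb sa2 sc sa)
    (xT_all (fun z : ℂ => ‖z‖ ≤ 20 * B) n0 n1 np)
    (yT_all (fun z : ℂ => ‖z‖ ≤ 20 * B) _ n1 nt nl ntl np ntp)
    (omT_all (fun z : ℂ => ‖z‖ ≤ 20 * B) _ n0 n1 nt nl np nm nq)
    (by
      intro i j
      rw [gamap]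
      exact gaT_all (fun z : ℂ => ‖z‖ ≤ 20 * B) th n0 n1 (by rw [norm_neg]; exact n1)
        (by rw [norm_neg]; exact nt) i j)
    (by
      intro i hi p
      rw [Finset.mem_singleton] at hi
      subst hi
      rw [almap]
      exact alT_omT _ p)
    (by
      intro j p
      have e1 : ∑ ρ : Fin 1, xT ρ j * yT (Real.log b) ρ p +
          ∑ i : Fin 3, φ (gaT wt i j) * omT (Real.log b) i p = uT (Real.log b) j p := by
        rw [← uT_eq]
        simp only [gamap]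
      rw [e1, chmap]
      exact close_T a b c _ hb1 (Real.exp_pos _).le hε1 hε2 hε3 j p)
    (by
      intro j p
      rw [chmap]
      exact chne j p)
  refine tri_fin a b c ha1 hb1 hc1 hind Af Rm G0 h1 ?_ ?_
  · intro s
    rw [h2 s]
    simp only [almap, chmap]
  · intro N hN
    apply h3
    intro m hm hm'
    apply hN m hm
    simpa only [gamap] using hm'

end Pool.Agent.H12
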