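import Pool.Agent.H12.QD

/-!
# Heights of sums, products and minimal polynomials
-/

set_option autoImplicit false

namespace Pool.Agent.H12

open Polynomial Module Pool.Agent.H301R2.TR Pool.Agent.Y928.QN

section

variable {F : Type} [Field F] [NumberField F]

theorem Sz.add {T T' : ℝ} {z z' : F} (h : Sz T z) (h' : Sz T' z') : Sz (2 * (T * T')) (z + z') := by
  have hT := h.one_le
  have hT' := h'.one_le
  have hTT : 1 ≤ T * T' := one_le_mul_of_one_le_of_one_le hT hT'
  obtain ⟨d, h1, h2, h3, h4⟩ := h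
  obtain ⟨d', h1', h2', h3', h4'⟩ := h'
  refine ⟨d * d', Nat.mul_pos h1 h1', ?_, ?_, fun σ => ?_⟩
  · push_cast
    have : (d : ℝ) * d' ≤ T * T' := mul_le_mul h2 h2' (Nat.cast_nonneg _) (by linarith)
    linarith
  · unfold IntD at h3 h3' ⊢
    rw [pow_one] at h3 h3' ⊢
    have e1 : (((d * d' : ℕ) : F) * (z + z')) = (d' : F) * ((d : F) * z) + (d : F) * ((d' : F) * z') := by
      push_cast; ring
    rw [e1]
    exact ((isIntegral_natCast' d').mul h3).add ((isIntegral_natCast' d).mul h3')
  · rw [map_add]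
    refine (norm_add_le _ _).trans ?_
    have h5 := h4 σ
    have h6 := h4' σ
    have h7 : T ≤ T * T' := le_mul_of_one_le_right (by linarith) hT'
    have h8 : T' ≤ T * T' := le_mul_of_one_le_left (by linarith) hT
    linarith

theorem Sz.half : Sz (2 : ℝ) ((2 : F)⁻¹) := by
  refine ⟨2, by norm_num, by norm_num, ?_, fun σ => ?_⟩
  · unfold IntD
    rw [pow_one]
    have : ((2 : ℕ) : F) * (2 : F)⁻¹ = 1 := by
      push_cast
      exact mul_inv_cancel₀ two_ne_zero
    rw [this]
    exact isIntegral_one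
  · rw [map_inv₀, norm_inv]
    have : ‖σ 2‖ = 2 := by
      have := map_ofNat σ 2
      rw [this]
      simp
    rw [this]
    norm_num

/-- an irreducible integer polynomial vanishing at a number of given size -/
theorem Sz.irr {T : ℝ} {z : F} (h : Sz T z) (φ : F →ₐ[ℚ] ℂ) (n : ℕ) (hn : finrank ℚ F ≤ n) :
    ∃ A : ℤ[X], Irreducible A ∧ A.natDegree ≤ n ∧ (∀ i, |(A.coeff i : ℝ)| ≤ (2 * T ^ 3) ^ n) ∧
      aeval (φ z) A = 0 := by
  have hT := h.one_le
  obtain ⟨d, hd, hdT, hint, hconj⟩ := h
  unfold IntD at hint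
  rw [pow_one] at hint
  set x : F := (d : F) * z with hx
  have hd1 : (1 : ℝ) ≤ d := by exact_mod_cast hd
  have hfr : 0 < finrank ℚ F := finrank_pos
  have hn1 : 1 ≤ n := by omega
  have hxQ : IsIntegral ℚ x := Algebra.IsSeparable.isIntegral ℚ x
  set Q : ℤ[X] := minpoly ℤ x with hQ
  have hQm : Q.Monic := minpoly.monic hint
  have hQmap : Q.map (Int.castRingHom ℚ) = minpoly ℚ x :=
    (minpoly.isIntegrallyClosed_eq_field_fractions' ℚ hint).symm
  have hdeg : Q.natDegree ≤ n := by
    have h1 : (Q.map (Int.castRingHom ℚ)).natDegree = Q.natDegree :=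
      Polynomial.natDegree_map_eq_of_injective (Int.castRingHom ℚ).injective_int Q
    rw [← h1, hQmap]
    exact (minpoly.natDegree_le x).trans hn
  -- coefficients of Q
  have hcoef : ∀ i, |(Q.coeff i : ℝ)| ≤ (2 * T ^ 2) ^ n := by
    intro i
    have h1 := NumberField.Embeddings.coeff_bdd_of_norm_le (A := ℂ) (B := T ^ 2) (x := x) (by
      intro ψ
      rw [hx, map_mul, norm_mul, map_natCast, Complex.norm_natCast, sq]
      exact mul_le_mul hdT (hconj ψ.toRatAlgHom) (norm_nonneg _) (by linarith)) i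
    rw [← hQmap, coeff_map, eq_intCast] at h1
    have h2 : ‖((Q.coeff i : ℤ) : ℚ)‖ = |(Q.coeff i : ℝ)| := by
      rw [← Int.norm_eq_abs]
      simp
    rw [h2] at h1
    have hT2 : 1 ≤ T ^ 2 := one_le_pow₀ hT
    rw [max_eq_left hT2] at h1
    refine h1.trans ?_
    rw [mul_pow, mul_comm]
    have h3 : ((finrank ℚ F).choose (finrank ℚ F / 2) : ℝ) ≤ 2 ^ n := by
      have h4 : (finrank ℚ F).choose (finrank ℚ F / 2) ≤ 2 ^ n :=
        (Nat.choose_le_two_pow _ _).trans (Nat.pow_le_pow_right (by norm_num) hn)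
      exact_mod_cast h4
    exact mul_le_mul h3 (pow_le_pow_right₀ hT2 hn) (by positivity) (by positivity)
  -- the polynomial
  set f : ℤ[X] := Q.comp (C (d : ℤ) * X) with hf
  have hdZ : (d : ℤ) ≠ 0 := by exact_mod_cast hd.ne'
  have hfcoef : ∀ i, f.coeff i = Q.coeff i * (d : ℤ) ^ i := by
    intro i
    rw [hf, Polynomial.comp_C_mul_X_coeff]
  have hfdeg : f.natDegree ≤ n := by
    rw [hf, Polynomial.natDegree_comp, Polynomial.natDegree_C_mul_X _ hdZ, mul_one]
    exact hdeg
  have hf0 : f ≠ 0 := by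
    intro h0
    have h1 := hfcoef Q.natDegree
    rw [h0, coeff_zero, Polynomial.coeff_natDegree, hQm.leadingCoeff, one_mul] at h1
    exact pow_ne_zero _ hdZ h1.symm
  have hfb : ∀ i, |(f.coeff i : ℝ)| ≤ (2 * T ^ 3) ^ n := by
    intro i
    by_cases hi : i ≤ n
    · rw [hfcoef]
      push_cast
      rw [abs_mul, abs_of_nonneg (by positivity : (0 : ℝ) ≤ (d : ℝ) ^ i)]
      calc |(Q.coeff i : ℝ)| * (d : ℝ) ^ i ≤ (2 * T ^ 2) ^ n * T ^ n := by
            apply mul_le_mul (hcoef i) _ (by positivity) (by positivity)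
            calc (d : ℝ) ^ i ≤ (d : ℝ) ^ n := pow_le_pow_right₀ hd1 hi
              _ ≤ T ^ n := pow_le_pow_left₀ (by linarith) hdT n
        _ = _ := by rw [← mul_pow]; congr 1; ring
    · rw [Polynomial.coeff_eq_zero_of_natDegree_lt (by omega)]
      simp only [Int.cast_zero, abs_zero]
      positivity
  have hfz : aeval (φ z) f = 0 := by
    have h1 : aeval z f = 0 := by
      rw [hf, Polynomial.aeval_comp]
      have h2 : aeval z (C (d : ℤ) * X : ℤ[X]) = x := by
        rw [map_mul, aeval_C, aeval_X, hx]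
        simp
      rw [h2]
      exact minpoly.aeval ℤ x
    have h2 : aeval (φ z) f = φ (aeval z f) := by
      have := Polynomial.aeval_algHom_apply (φ.restrictScalars ℤ) z f
      simpa using this
    rw [h2, h1, map_zero]
  have hfirr : Irreducible (f.map (Int.castRingHom ℚ)) := by
    have h1 : f.map (Int.castRingHom ℚ) = (minpoly ℚ x).comp (C (d : ℚ) * X) := by
      rw [hf, Polynomial.map_comp, hQmap, Polynomial.map_mul, Polynomial.map_C, Polynomial.map_X]
      simp
    rw [h1]
    have hdQ : (d : ℚ) ≠ 0 := by exact_mod_cast hd.ne'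
    have : Invertible (d : ℚ) := invertibleOfNonzero hdQ
    have h2 : (minpoly ℚ x).comp (C (d : ℚ) * X) =
        Polynomial.algEquivCMulXAddC (d : ℚ) 0 (minpoly ℚ x) := by
      simp [Polynomial.algEquivCMulXAddC, Polynomial.comp, Polynomial.aeval_def]
    rw [h2]
    exact (MulEquiv.irreducible_iff (Polynomial.algEquivCMulXAddC (d : ℚ) 0)).mpr
      (minpoly.irreducible hxQ)
  refine ⟨f.primPart, ?_, (Polynomial.natDegree_primPart f).le.trans hfdeg, ?_, ?_⟩
  · rw [Polynomial.IsPrimitive.Int.irreducible_iff_irreducible_map_cast f.isPrimitive_primPart]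
    have h1 : f.map (Int.castRingHom ℚ) =
        C ((f.content : ℤ) : ℚ) * f.primPart.map (Int.castRingHom ℚ) := by
      conv_lhs => rw [f.eq_C_content_mul_primPart]
      rw [Polynomial.map_mul, Polynomial.map_C]
      simp
    have hc0 : ((f.content : ℤ) : ℚ) ≠ 0 := by
      have : f.content ≠ 0 := by
        rw [Ne, Polynomial.content_eq_zero_iff]; exact hf0
      exact_mod_cast this
    rw [h1] at hfirr
    have hu : IsUnit (C ((f.content : ℤ) : ℚ)) := by
      rw [Polynomial.isUnit_C]
      exact isUnit_iff_ne_zero.mpr hc0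
    exact (irreducible_isUnit_mul hu).mp hfirr
  · intro i
    refine le_trans ?_ (hfb i)
    have h1 : f.coeff i = f.content * f.primPart.coeff i := by
      conv_lhs => rw [f.eq_C_content_mul_primPart]
      rw [Polynomial.coeff_C_mul]
    rw [h1]
    push_cast
    rw [abs_mul]
    have hc0 : f.content ≠ 0 := by
      rw [Ne, Polynomial.content_eq_zero_iff]; exact hf0
    have h2 : (1 : ℝ) ≤ |(f.content : ℝ)| := by exact_mod_cast Int.one_le_abs hc0
    exact le_mul_of_one_le_left (abs_nonneg _) h2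
  · have h1 : aeval (φ z) f = aeval (φ z) (C f.content : ℤ[X]) * aeval (φ z) f.primPart := by
      rw [← map_mul, ← f.eq_C_content_mul_primPart]
    rw [hfz, aeval_C] at h1
    have hc0 : (algebraMap ℤ ℂ) f.content ≠ 0 := by
      have : f.content ≠ 0 := by
        rw [Ne, Polynomial.content_eq_zero_iff]; exact hf0
      simpa using this
    exact (mul_eq_zero.mp h1.symm).resolve_left hc0

end

end Pool.Agent.H12
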