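import Pool.Agent.H12.QO

/-!
# Real parts, minimal polynomials, comparison of the errors
-/

set_option autoImplicit false

namespace Pool.Agent.H12

open Polynomial Module Pool.Agent.H301R2.TR Pool.Agent.Y928.QN

theorem _root_.Pool.Agent.Y928.QN.AlgHt.conj {D H : ℕ} {x : ℂ} (h : AlgHt D H x) :
    AlgHt D H ((starRingEnd ℂ) x) := by
  obtain ⟨P, hP, hdeg, hcoef, hroot⟩ := h
  refine ⟨P, hP, hdeg, hcoef, ?_⟩
  have h1 := congrArg (starRingEnd ℂ) hroot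
  rw [map_zero] at h1
  rw [← h1, Polynomial.aeval_def, Polynomial.aeval_def, Polynomial.hom_eval₂]
  congr 1
  exact Subsingleton.elim _ _

theorem algHt_of_irr {n : ℕ} {H : ℕ} {x : ℂ} {T : ℝ} (hT : T ≤ H)
    (h : ∃ A : ℤ[X], Irreducible A ∧ A.natDegree ≤ n ∧ (∀ i, |(A.coeff i : ℝ)| ≤ T) ∧
      aeval x A = 0) : AlgHt n H x := by
  obtain ⟨A, h1, h2, h3, h4⟩ := h
  refine ⟨A, h1.ne_zero, h2, fun i => ?_, h4⟩
  have := (h3 i).trans hT
  exact_mod_cast this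

theorem succ_le_sq {H : ℕ} (hH : 3 ≤ H) : ((H : ℝ) + 1) ≤ (H : ℝ) ^ 2 := by
  have hH3 : (3 : ℝ) ≤ H := by exact_mod_cast hH
  nlinarith

/-- a number of degree at most `D` and height at most `H` is a root of an irreducible polynomial -/
theorem _root_.Pool.Agent.Y928.QN.AlgHt.irr {D H : ℕ} {x : ℂ} (hH : 3 ≤ H) (h : AlgHt D H x) :
    ∃ A : ℤ[X], Irreducible A ∧ A.natDegree ≤ D ∧ (∀ i, |(A.coeff i : ℝ)| ≤ (H : ℝ) ^ (7 * D)) ∧
      aeval x A = 0 := by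
  have hH3 : (3 : ℝ) ≤ H := by exact_mod_cast hH
  obtain ⟨F, _, _, φ, hDg, hφ⟩ := exists_field_fam D 1 ![x] (by
    intro i
    fin_cases i
    exact ⟨H, h⟩)
  obtain ⟨w, hw⟩ := hφ 0
  simp only [Matrix.cons_val_fin_one] at hw
  rw [pow_one] at hDg
  have h1 := (h.sz φ w hw).mono (succ_le_sq hH)
  obtain ⟨A, a1, a2, a3, a4⟩ := h1.irr φ D hDg
  refine ⟨A, a1, a2, fun i => (a3 i).trans ?_, by rw [← hw]; exact a4⟩
  rw [pow_mul]
  apply pow_le_pow_left₀ (by positivity)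
  calc 2 * ((H : ℝ) ^ 2) ^ 3 ≤ H * ((H : ℝ) ^ 2) ^ 3 := by gcongr; linarith
    _ = _ := by ring

/-- the real part -/
theorem _root_.Pool.Agent.Y928.QN.AlgHt.re {D H : ℕ} {x : ℂ} (hH : 3 ≤ H) (h : AlgHt D H x) :
    AlgHt (D ^ 2) (H ^ (19 * D ^ 2)) (x.re : ℂ) := by
  have hH3 : (3 : ℝ) ≤ H := by exact_mod_cast hH
  have hH1 : (1 : ℝ) ≤ H := by linarith
  obtain ⟨F, _, _, φ, hDg, hφ⟩ := exists_field_fam D 2 ![x, (starRingEnd ℂ) x] (by
    intro i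
    fin_cases i
    · exact ⟨H, h⟩
    · exact ⟨H, h.conj⟩)
  obtain ⟨w, hw⟩ := hφ 0
  obtain ⟨v, hv⟩ := hφ 1
  simp only [Matrix.cons_val_zero, Matrix.cons_val_one, Matrix.cons_val_fin_one] at hw hv
  have h1 := (h.sz φ w hw).mono (succ_le_sq hH)
  have h2 := (h.conj.sz φ v hv).mono (succ_le_sq hH)
  have h3 := (Sz.half (F := F)).mul (h1.add h2)
  have h4 : φ ((2 : F)⁻¹ * (w + v)) = (x.re : ℂ) := by
    rw [map_mul, map_inv₀, map_add, hw, hv, Complex.add_conj, map_ofNat]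
    push_cast
    field_simp
  have h5 : 2 * (2 * ((H : ℝ) ^ 2 * (H : ℝ) ^ 2)) ≤ (H : ℝ) ^ 6 := by
    calc 2 * (2 * ((H : ℝ) ^ 2 * (H : ℝ) ^ 2)) ≤ H * (H * ((H : ℝ) ^ 2 * (H : ℝ) ^ 2)) := by
          gcongr <;> linarith
      _ = _ := by ring
  have h6 := (h3.mono h5).irr φ (D ^ 2) hDg
  rw [h4] at h6
  refine algHt_of_irr ?_ h6
  push_cast
  rw [pow_mul]
  apply pow_le_pow_left₀ (by positivity)
  calc 2 * ((H : ℝ) ^ 6) ^ 3 ≤ H * ((H : ℝ) ^ 6) ^ 3 := by gcongr; linarith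
    _ = _ := by ring

theorem one_le_logH {H : ℕ} (hH : 3 ≤ H) : 1 ≤ Real.log H := by
  rw [← Real.log_exp 1]
  apply Real.log_le_log (Real.exp_pos 1)
  have := Real.exp_one_lt_d9
  have hH3 : (3 : ℝ) ≤ H := by exact_mod_cast hH
  linarith

/-- absorption of constants -/
theorem absorb (C0 K C : ℝ) (hK : 0 < K) (hC0 : 0 ≤ C0) (m n : ℕ) (hmn : m ≤ n)
    (hC : C0 + |Real.log K| ≤ C) {H : ℕ} (hH : 3 ≤ H) :
    K * Real.exp (-(C * Real.log H ^ n)) ≤ Real.exp (-(C0 * Real.log H ^ m)) := by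
  have hL := one_le_logH hH
  have e1 : K * Real.exp (-(C * Real.log H ^ n)) =
      Real.exp (Real.log K - C * Real.log H ^ n) := by
    rw [sub_eq_add_neg, Real.exp_add, Real.exp_log hK]
  rw [e1]
  apply Real.exp_le_exp.mpr
  have h1 : Real.log H ^ m ≤ Real.log H ^ n := pow_le_pow_right₀ hL hmn
  have h2 : 1 ≤ Real.log H ^ m := one_le_pow₀ hL
  have h3 : Real.log K ≤ |Real.log K| * Real.log H ^ n :=
    (le_abs_self _).trans (le_mul_of_one_le_right (abs_nonneg _) (h2.trans h1))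
  have h4 : C0 * Real.log H ^ m ≤ C0 * Real.log H ^ n := mul_le_mul_of_nonneg_left h1 hC0
  have h5 : (C0 + |Real.log K|) * Real.log H ^ n ≤ C * Real.log H ^ n :=
    mul_le_mul_of_nonneg_right hC (by linarith)
  nlinarith

end Pool.Agent.H12
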