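import Pool.Agent.H12.QP
import Pool.Agent.H12.QG

/-!
# The triple `π ^ π`, `π ^ √2`, `e ^ (π ^ 2)`: the dependent case
-/

set_option autoImplicit false

namespace Pool.Agent.H12

open Polynomial Module Pool.Agent.H301R2.TR Pool.Agent.Y928.QN

/-- a quadratic number -/
theorem algHt_sqrt (u : ℤ) (v : ℕ) (hv : 1 ≤ v) (H : ℕ) (h1 : 2 * v ^ 2 ≤ H)
    (h2 : u ^ 2 ≤ (H : ℤ)) : AlgHt 2 H (((u : ℝ) / (v * Real.sqrt 2) : ℝ) : ℂ) := by
  refine ⟨C (2 * (v : ℤ) ^ 2) * X ^ 2 - C (u ^ 2), ?_, ?_, ?_, ?_⟩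
  · intro h
    have := congrArg (fun p : ℤ[X] => p.coeff 2) h
    simp only [Polynomial.coeff_sub, Polynomial.coeff_C_mul, Polynomial.coeff_X_pow,
      Polynomial.coeff_C, Polynomial.coeff_zero] at this
    rw [if_pos trivial, if_neg (by omega), mul_one, sub_zero] at this
    have hv' : (v : ℤ) ≠ 0 := by
      have : 0 < v := hv
      exact_mod_cast this.ne'
    have h3 : (v : ℤ) ^ 2 ≠ 0 := pow_ne_zero _ hv'
    omega
  · compute_degree
  · intro i
    rw [Polynomial.coeff_sub, Polynomial.coeff_C_mul, Polynomial.coeff_X_pow, Polynomial.coeff_C]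
    by_cases h3 : i = 2
    · rw [if_pos h3, if_neg (by omega), mul_one, sub_zero, abs_of_nonneg (by positivity)]
      exact_mod_cast h1
    · rw [if_neg h3, mul_zero, zero_sub]
      by_cases h4 : i = 0
      · rw [if_pos h4, abs_neg, abs_of_nonneg (by positivity)]
        exact h2
      · rw [if_neg h4]; simp
  · have hs : Real.sqrt 2 ^ 2 = 2 := Real.sq_sqrt (by norm_num)
    have hs0 : Real.sqrt 2 ≠ 0 := by positivity
    have hv0 : (v : ℝ) ≠ 0 := by
      have : 0 < v := hv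
      exact_mod_cast this.ne'
    have e1 : 2 * (v : ℝ) ^ 2 * ((u : ℝ) / (v * Real.sqrt 2)) ^ 2 - (u : ℝ) ^ 2 = 0 := by
      rw [div_pow, mul_pow, hs]
      field_simp
      ring
    rw [map_sub, map_mul, map_pow, aeval_C, aeval_C, aeval_X]
    have e2 := congrArg (fun r : ℝ => (r : ℂ)) e1
    simp only [Complex.ofReal_zero] at e2
    rw [← e2]
    push_cast
    simp

/-- if `log a` and `log c` are dependent, their quotient is `u / v` with `v` small -/
theorem dep_quot (D k : ℕ) : ∃ K : ℕ, ∀ H : ℕ, 3 ≤ H → ∀ a c : ℝ,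
    AlgHt D (H ^ k) (a : ℂ) → AlgHt D (H ^ k) (c : ℂ) → 1 < a → 1 < c →
    (∃ i j : ℤ, ¬ (i = 0 ∧ j = 0) ∧ (i : ℝ) * Real.log a + j * Real.log c = 0) →
    ∃ (u : ℤ) (v : ℕ), 1 ≤ v ∧ Real.log c = (u / v : ℝ) * Real.log a ∧ v ≤ K * H := by
  obtain ⟨c0, hc0, hvb⟩ := v_bound (D ^ 2)
  have hlc0 : 0 < Real.log c0 := Real.log_pos hc0
  refine ⟨⌈((2 * k + 1) * D ^ 2 : ℕ) / Real.log c0⌉₊, fun H hH a c ha hc ha1 hc1 hdep => ?_⟩
  have hH3 : (3 : ℝ) ≤ H := by exact_mod_cast hH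
  have hH1 : (1 : ℝ) ≤ H := by linarith
  obtain ⟨i, j, hij, hrel⟩ := hdep
  obtain ⟨F, _, _, φ, hDg, hφ⟩ := exists_field_fam D 2 ![(a : ℂ), (c : ℂ)] (by
    intro i
    fin_cases i
    · exact ⟨_, ha⟩
    · exact ⟨_, hc⟩)
  obtain ⟨w, hw⟩ := hφ 0
  obtain ⟨v, hv⟩ := hφ 1
  simp only [Matrix.cons_val_zero, Matrix.cons_val_one, Matrix.cons_val_fin_one] at hw hv
  have na : ‖φ w‖ = a := by
    rw [hw, Complex.norm_real, Real.norm_of_nonneg (by linarith)]
  have nc : ‖φ v‖ = c := by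
    rw [hv, Complex.norm_real, Real.norm_of_nonneg (by linarith)]
  have hrel' : φ w ^ i * φ v ^ j = 1 := by
    rw [hw, hv]
    have h1 : a ^ i * c ^ j = 1 := by
      have h2 : Real.log (a ^ i * c ^ j) = 0 := by
        rw [Real.log_mul (zpow_ne_zero _ (by linarith)) (zpow_ne_zero _ (by linarith)),
          Real.log_zpow, Real.log_zpow]
        exact hrel
      have h3 : 0 < a ^ i * c ^ j := mul_pos (zpow_pos (by linarith) _) (zpow_pos (by linarith) _)
      have h4 := Real.exp_log h3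
      rw [h2, Real.exp_zero] at h4
      exact h4.symm
    exact_mod_cast congrArg (fun r : ℝ => (r : ℂ)) h1
  obtain ⟨u, n, ζ, η, m, hn, huv, hm, hζ, hxe⟩ := alg_relation φ w v (by rw [na]; exact ha1)
    (by rw [nc]; exact hc1) i j hrel' hij
  rw [na, nc] at huv
  refine ⟨u, n, hn, huv, ?_⟩
  obtain ⟨-, -, -, -, hconj⟩ := (ha.sz φ w hw).mono (pow_succ_bound hH k)
  obtain ⟨d', hd', hdH', hint', -⟩ := ha.lift φ w hw
  have h1 := hvb F φ hDg w ζ η n d' m ((H : ℝ) ^ (k + 1)) hd' (one_le_pow₀ hH1) hint' hconj hm hζ hxe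
    (by rw [na]; exact ha1)
  have h2 : c0 ^ n ≤ (H : ℝ) ^ ((2 * k + 1) * D ^ 2) := by
    refine h1.trans ?_
    rw [pow_mul]
    apply pow_le_pow_left₀ (by positivity)
    calc (d' : ℝ) * (H : ℝ) ^ (k + 1) ≤ (H : ℝ) ^ k * (H : ℝ) ^ (k + 1) := by
          gcongr
          exact_mod_cast hdH'
      _ = _ := by rw [← pow_add]; congr 1; ring
  have h3 := Real.log_le_log (by positivity) h2
  rw [Real.log_pow, Real.log_pow] at h3
  have h4 : (n : ℝ) ≤ (((2 * k + 1) * D ^ 2 : ℕ) : ℝ) / Real.log c0 * Real.log H := by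
    rw [div_mul_eq_mul_div, le_div_iff₀ hlc0]
    exact h3
  have h5 : Real.log H ≤ H := (Real.log_le_sub_one_of_pos (by linarith)).trans (by linarith)
  have h6 : (n : ℝ) ≤ (⌈(((2 * k + 1) * D ^ 2 : ℕ) : ℝ) / Real.log c0⌉₊ : ℝ) * H := by
    refine h4.trans ?_
    exact mul_le_mul (Nat.le_ceil _) h5 (by linarith [one_le_logH hH]) (Nat.cast_nonneg _)
  exact_mod_cast h6

end Pool.Agent.H12
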