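import Pool.Agent.H12.QR
import Pool.Agent.H12.QN

/-!
# The triple `π ^ π`, `π ^ √2`, `e ^ (π ^ 2)`: general case
-/

set_option autoImplicit false

namespace Pool.Agent.H12

open Polynomial Module Pool.Agent.H301R2.TR Pool.Agent.Y928.QN

theorem exp_sub_le {x y M : ℝ} (hx : x ≤ M) (hy : y ≤ M) :
    |Real.exp x - Real.exp y| ≤ Real.exp M * |x - y| := by
  have key : ∀ x y : ℝ, x ≤ M → y ≤ x → |Real.exp x - Real.exp y| ≤ Real.exp M * |x - y| := by
    intro x y hx hyx
    rw [abs_of_nonneg (sub_nonneg.mpr (Real.exp_le_exp.mpr hyx)), abs_of_nonneg (sub_nonneg.mpr hyx)]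
    have h1 : Real.exp x - Real.exp y = Real.exp x * (1 - Real.exp (y - x)) := by
      rw [mul_sub, mul_one, ← Real.exp_add]; congr 2; ring
    rw [h1]
    have h2 := Real.add_one_le_exp (y - x)
    have h3 : 1 - Real.exp (y - x) ≤ x - y := by linarith
    have h4 : Real.exp x ≤ Real.exp M := Real.exp_le_exp.mpr hx
    calc Real.exp x * (1 - Real.exp (y - x)) ≤ Real.exp x * (x - y) :=
          mul_le_mul_of_nonneg_left h3 (Real.exp_pos _).le
      _ ≤ _ := mul_le_mul_of_nonneg_right h4 (by linarith)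
  rcases le_total y x with h | h
  · exact key x y hx h
  · rw [abs_sub_comm, abs_sub_comm x y]
    exact key y x hy h

theorem exp_I_near {x δ : ℝ} (h : |x - Real.pi| ≤ δ) :
    ‖Complex.exp (Complex.I * x) + 1‖ ≤ δ := by
  have h1 : Complex.exp (Complex.I * x) + 1 = -(Complex.exp (Complex.I * ((x - Real.pi : ℝ) : ℂ)) - 1) := by
    have h2 : Complex.exp (Complex.I * x) =
        Complex.exp (Complex.I * ((x - Real.pi : ℝ) : ℂ)) * Complex.exp (Real.pi * Complex.I) := by
      rw [← Complex.exp_add]; congr 1; push_cast; ring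
    rw [h2, Complex.exp_pi_mul_I]; ring
  rw [h1, norm_neg]
  have h3 := Real.norm_exp_I_mul_ofReal_sub_one_le (x := x - Real.pi)
  exact h3.trans h

theorem tri_log (D k : ℕ) (B : ℝ) (hB : 1 ≤ B) : ∃ C : ℝ, 0 < C ∧ ∀ H : ℕ, 3 ≤ H →
    ∀ a b c : ℝ, AlgHt D (H ^ k) (a : ℂ) → AlgHt D (H ^ k) (b : ℂ) → AlgHt D (H ^ k) (c : ℂ) →
    1 < a → 1 ≤ Real.log a → 1 < b → 1 < c → Real.log a ≤ B → Real.log b ≤ B → Real.log c ≤ B →
    |Real.log a - Real.pi * Real.log b / Real.sqrt 2| ≤ Real.exp (-(C * Real.log H ^ 26)) →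
    |Real.log c - Real.pi ^ 2| ≤ Real.exp (-(C * Real.log H ^ 26)) → False := by
  obtain ⟨C1, hC1, h1⟩ := tri_core D k B hB
  obtain ⟨K, hK⟩ := dep_quot D k
  obtain ⟨M, hM⟩ := exists_nat_ge (2 * (K : ℝ) ^ 2 * B ^ 2)
  have hB2 : 1 ≤ B ^ 2 := one_le_pow₀ hB
  have hM1 : 2 * (K : ℝ) ^ 2 ≤ M := le_trans (le_mul_of_one_le_right (by positivity) hB2) hM
  have hM2 : (K : ℝ) ^ 2 * B ^ 2 ≤ M := by
    have : 0 ≤ (K : ℝ) ^ 2 * B ^ 2 := by positivity
    linarith
  obtain ⟨C2, hC2, h2⟩ := hom_core (max D 2) (max k (M + 2)) B hB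
  have hpi3 := Real.pi_gt_three
  have hpi0 := Real.pi_pos
  have hs0 : 0 < Real.sqrt 2 := by positivity
  have hss : Real.sqrt 2 * Real.sqrt 2 = 2 := Real.mul_self_sqrt (by norm_num)
  have hs1 : 1 ≤ Real.sqrt 2 := by
    rw [Real.one_le_sqrt]; norm_num
  refine ⟨max (C1 + |Real.log (2 * Real.exp (B + 1))|) (C2 + |Real.log (1 + B)|),
    lt_of_lt_of_le (by positivity : 0 < C1 + |Real.log (2 * Real.exp (B + 1))|) (le_max_left _ _),
    fun H hH a b c ha hb hc ha1 hla hb1 hc1 hlaB hlbB hlcB hδ1 hδ2 => ?_⟩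
  set C := max (C1 + |Real.log (2 * Real.exp (B + 1))|) (C2 + |Real.log (1 + B)|) with hC
  set δ := Real.exp (-(C * Real.log H ^ 26)) with hδ
  have hL := one_le_logH hH
  have hH3 : (3 : ℝ) ≤ H := by exact_mod_cast hH
  have hδ0 : 0 < δ := Real.exp_pos _
  have hC0 : 0 ≤ C := le_trans (by positivity) (le_max_left _ _)
  have hδle : δ ≤ 1 := by
    rw [hδ]
    apply Real.exp_le_one_iff.mpr
    have : 0 ≤ C * Real.log H ^ 26 := by positivity
    linarith
  have hlb0 : 0 < Real.log b := Real.log_pos hb1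
  have hlc0 : 0 < Real.log c := Real.log_pos hc1
  set y := Real.pi * Real.log b / Real.sqrt 2 with hy
  have hy0 : 0 ≤ y := by positivity
  by_cases hind : ∀ i j : ℤ, (i : ℝ) * Real.log a + j * Real.log c = 0 → i = 0 ∧ j = 0
  · have ab := absorb C1 (2 * Real.exp (B + 1)) C (by positivity) hC1.le 26 26 le_rfl
      (le_max_left _ _) hH
    have e2 : 1 ≤ Real.exp (B + 1) := Real.one_le_exp (by linarith)
    have hKδ2 : 2 * δ ≤ 2 * Real.exp (B + 1) * δ :=
      mul_le_mul_of_nonneg_right (by linarith) hδ0.le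
    refine h1 H hH a b c ha hb hc ha1 hb1 hc1 hlbB hind ?_ ?_ ?_
    · refine le_trans ?_ ab
      have h3 : |Real.exp (Real.log a) - Real.exp y| ≤ Real.exp (B + 1) * |Real.log a - y| :=
        exp_sub_le (by linarith) (by linarith [(abs_le.mp hδ1).1])
      rw [Real.exp_log (by linarith)] at h3
      refine h3.trans ?_
      calc Real.exp (B + 1) * |Real.log a - y| ≤ Real.exp (B + 1) * δ :=
            mul_le_mul_of_nonneg_left hδ1 (by positivity)
        _ ≤ 2 * Real.exp (B + 1) * δ := by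
          have := mul_pos (Real.exp_pos (B + 1)) hδ0
          rw [mul_assoc]
          linarith
    · refine le_trans ?_ ab
      have e1 : (a⁻¹) ^ 2 = Real.exp (-(2 * Real.log a)) := by
        rw [Real.exp_neg, mul_comm, Real.exp_mul, Real.exp_log (by linarith), inv_pow]
        norm_num
      have e3 : Real.sqrt 2 * Real.pi * Real.log b = 2 * y := by
        rw [hy, eq_comm, ← mul_div_assoc, div_eq_iff hs0.ne']
        have h9 : Real.sqrt 2 * Real.pi * Real.log b * Real.sqrt 2 =
            (Real.sqrt 2 * Real.sqrt 2) * (Real.pi * Real.log b) := by ring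
        rw [h9, hss]
      rw [e1, e3]
      have h3 : |Real.exp (-(2 * Real.log a)) - Real.exp (-(2 * y))| ≤
          Real.exp 0 * |-(2 * Real.log a) - -(2 * y)| :=
        exp_sub_le (by linarith) (by linarith)
      rw [Real.exp_zero, one_mul] at h3
      refine h3.trans ?_
      have h4 : -(2 * Real.log a) - -(2 * y) = -(2 * (Real.log a - y)) := by ring
      rw [h4, abs_neg, abs_mul, abs_of_pos (by norm_num : (0 : ℝ) < 2)]
      calc 2 * |Real.log a - y| ≤ 2 * δ := by linarith
        _ ≤ 2 * Real.exp (B + 1) * δ := hKδ2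
    · refine le_trans ?_ ab
      have e1 : c⁻¹ = Real.exp (-Real.log c) := by
        rw [Real.exp_neg, Real.exp_log (by linarith)]
      rw [e1]
      have h3 : |Real.exp (-Real.log c) - Real.exp (-Real.pi ^ 2)| ≤
          Real.exp 0 * |-Real.log c - -Real.pi ^ 2| :=
        exp_sub_le (by linarith) (by
          have := sq_nonneg Real.pi
          linarith)
      rw [Real.exp_zero, one_mul] at h3
      refine h3.trans ?_
      have h4 : -Real.log c - -Real.pi ^ 2 = -(Real.log c - Real.pi ^ 2) := by ring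
      rw [h4, abs_neg]
      calc |Real.log c - Real.pi ^ 2| ≤ δ := hδ2
        _ ≤ 2 * Real.exp (B + 1) * δ := by linarith
  · push Not at hind
    obtain ⟨i, j, hrel, hne⟩ := hind
    obtain ⟨u, v, hv, huv, hvK⟩ := hK H hH a c ha hc ha1 hc1 ⟨i, j, fun h => hne h.1 h.2, hrel⟩
    have hvR : (1 : ℝ) ≤ v := by exact_mod_cast hv
    have hv0 : (0 : ℝ) < v := by linarith
    have hla0 : 0 < Real.log a := by linarith
    have hq : (u / v : ℝ) = Real.log c / Real.log a := by
      rw [huv]; field_simp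
    have hq0 : 0 < (u / v : ℝ) := by rw [hq]; positivity
    have hqB : (u / v : ℝ) ≤ B := by
      rw [hq, div_le_iff₀ hla0]
      have h9 : B * 1 ≤ B * Real.log a := mul_le_mul_of_nonneg_left hla (by linarith)
      linarith
    have hu0 : 0 < (u : ℝ) := by
      have := mul_pos hq0 hv0
      rwa [div_mul_cancel₀ _ hv0.ne'] at this
    have huB : (u : ℝ) ≤ B * v := by
      rwa [div_le_iff₀ hv0] at hqB
    have hvK' : (v : ℝ) ≤ K * H := by exact_mod_cast hvK
    have hHM : (M : ℝ) ≤ (H : ℝ) ^ M := by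
      have h3 : M < 2 ^ M := Nat.lt_two_pow_self
      have h4 : (M : ℝ) ≤ 2 ^ M := by exact_mod_cast h3.le
      exact h4.trans (pow_le_pow_left₀ (by norm_num) (by linarith) _)
    have hHpos : (0 : ℝ) ≤ (H : ℝ) ^ 2 := by positivity
    have hAs : AlgHt 2 (H ^ (M + 2)) (((u : ℝ) / (v * Real.sqrt 2) : ℝ) : ℂ) := by
      apply algHt_sqrt u v hv
      · have : (2 : ℝ) * v ^ 2 ≤ (H : ℝ) ^ (M + 2) := by
          calc (2 : ℝ) * v ^ 2 ≤ 2 * (K * H) ^ 2 := by
                have := pow_le_pow_left₀ hv0.le hvK' 2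
                linarith
            _ = 2 * (K : ℝ) ^ 2 * (H : ℝ) ^ 2 := by ring
            _ ≤ M * (H : ℝ) ^ 2 := mul_le_mul_of_nonneg_right hM1 hHpos
            _ ≤ (H : ℝ) ^ M * (H : ℝ) ^ 2 := mul_le_mul_of_nonneg_right hHM hHpos
            _ = _ := by rw [← pow_add]
        exact_mod_cast this
      · have : (u : ℝ) ^ 2 ≤ (H : ℝ) ^ (M + 2) := by
          calc (u : ℝ) ^ 2 ≤ (B * (K * H)) ^ 2 := by
                apply pow_le_pow_left₀ hu0.le
                exact huB.trans (mul_le_mul_of_nonneg_left hvK' (by linarith))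
            _ = (K : ℝ) ^ 2 * B ^ 2 * (H : ℝ) ^ 2 := by ring
            _ ≤ M * (H : ℝ) ^ 2 := mul_le_mul_of_nonneg_right hM2 hHpos
            _ ≤ (H : ℝ) ^ M * (H : ℝ) ^ 2 := mul_le_mul_of_nonneg_right hHM hHpos
            _ = _ := by rw [← pow_add]
        exact_mod_cast this
    set s : ℝ := (u : ℝ) / (v * Real.sqrt 2) with hs
    have hs0' : 0 < s := by positivity
    have hsv : s * Real.sqrt 2 = u / v := by
      rw [hs]; field_simp
    have hsB : |s| ≤ B := by
      rw [abs_of_pos hs0']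
      have h9 : s * 1 ≤ s * Real.sqrt 2 := mul_le_mul_of_nonneg_left hs1 hs0'.le
      linarith
    have hHk : H ^ k ≤ H ^ (max k (M + 2)) := Nat.pow_le_pow_right (by omega) (le_max_left _ _)
    have hHk' : H ^ (M + 2) ≤ H ^ (max k (M + 2)) := Nat.pow_le_pow_right (by omega) (le_max_right _ _)
    have h3 := h2 H hH b s (hb.mono (le_max_left _ _) hHk) (hAs.mono (le_max_right _ _) hHk')
      hb1 hlbB hs0'.ne' hsB
    have h4 : |s * Real.log b - Real.pi| ≤ (1 + B) * δ := by
      have e1 : Real.pi * (s * Real.log b) = (u / v : ℝ) * y := by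
        rw [← hsv, hy]
        field_simp
      have e2 : Real.pi * (s * Real.log b - Real.pi) =
          (Real.log c - Real.pi ^ 2) - (u / v : ℝ) * (Real.log a - y) := by
        rw [mul_sub, e1, huv]; ring
      have e3 : |Real.pi * (s * Real.log b - Real.pi)| ≤ (1 + B) * δ := by
        rw [e2]
        refine (abs_sub _ _).trans ?_
        rw [abs_mul, abs_of_pos hq0]
        have e4 : (u / v : ℝ) * |Real.log a - y| ≤ B * δ :=
          mul_le_mul hqB hδ1 (abs_nonneg _) (by linarith)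
        linarith
      rw [abs_mul, abs_of_pos hpi0] at e3
      have e5 := abs_nonneg (s * Real.log b - Real.pi)
      have h9 : 1 * |s * Real.log b - Real.pi| ≤ Real.pi * |s * Real.log b - Real.pi| :=
        mul_le_mul_of_nonneg_right (by linarith) e5
      linarith
    have h5 := exp_I_near h4
    have h6 := absorb C2 (1 + B) C (by linarith) hC2.le 7 26 (by norm_num) (le_max_right _ _) hH
    have h7 : Complex.I * (s : ℂ) * (Real.log b : ℝ) = Complex.I * ((s * Real.log b : ℝ) : ℂ) := by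
      push_cast; ring
    rw [h7] at h3
    linarith

end Pool.Agent.H12
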