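import Pool.Agent.H12.QS
import Pool.Agent.H12.QH
import Pool.Graph.R_pool_sql_team_seeded_1acbe0a2.Y928.QN.App2

/-!
# The five pairs
-/

set_option autoImplicit false

namespace Pool.Agent.H12

open Polynomial Module Pool.Agent.H301R2.TR Pool.Agent.Y928.QN

theorem algHt_int (n : ℤ) (H : ℕ) (hH : 1 ≤ H) (h : |n| ≤ (H : ℤ)) : AlgHt 1 H (n : ℂ) := by
  refine ⟨X - C n, X_sub_C_ne_zero n, (natDegree_X_sub_C n).le, ?_, ?_⟩
  · intro i
    rw [Polynomial.coeff_sub, Polynomial.coeff_X, Polynomial.coeff_C]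
    by_cases h1 : i = 0
    · subst h1
      simpa using h
    · rw [if_neg h1]
      split_ifs
      · simpa using hH
      · simp
  · simp

theorem algHt_rsqrt (H : ℕ) (hH : 2 ≤ H) : AlgHt 2 H ((1 / Real.sqrt 2 : ℝ) : ℂ) := by
  have := algHt_sqrt 1 1 le_rfl H (by omega) (by
    have : (2 : ℤ) ≤ H := by exact_mod_cast hH
    linarith)
  simpa using this

theorem rsqrt_irr (q : ℚ) : ((1 / Real.sqrt 2 : ℝ) : ℂ) ≠ q := by
  intro h
  have h1 : (1 / Real.sqrt 2 : ℝ) = (q : ℝ) := by exact_mod_cast h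
  have h2 : Irrational (1 / Real.sqrt 2) := by
    rw [one_div]
    exact irrational_sqrt_two.inv
  exact h2 ⟨q, h1.symm⟩

theorem I_irr (q : ℚ) : Complex.I ≠ q := by
  intro h
  have := congrArg Complex.im h
  simp at this

/-- `e ^ e` and `s - π`, with `s` algebraic -/
theorem pair_I (D k : ℕ) : ∃ C0 : ℝ, 0 < C0 ∧ ∀ C : ℝ, C0 ≤ C → ∀ H : ℕ, 3 ≤ H → ∀ α s t : ℝ,
    AlgHt D (H ^ k) (α : ℂ) → AlgHt D (H ^ k) (s : ℂ) → α ≠ 0 → 0 < s → s ≤ 7 → t ≤ 4 →
    |Real.exp t - α| ≤ Real.exp (-(C * Real.log H ^ 26)) →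
    |Real.pi + t - s| ≤ Real.exp (-(C * Real.log H ^ 26)) → False := by
  obtain ⟨C1, hC1, h1⟩ := inh_core (max D 2) k 8 (by norm_num)
  refine ⟨C1 + |Real.log (1 + Real.exp 5)| + 1, by positivity,
    fun C hC H hH α s t hα hs hα0 hs1 hs7 ht e1 e2 => ?_⟩
  have hL := one_le_logH hH
  have hpi3 := Real.pi_gt_three
  have hpi4 := Real.pi_lt_four
  set δ := Real.exp (-(C * Real.log H ^ 26)) with hδ
  have hδ0 : 0 < δ := Real.exp_pos _
  have hCpos : 0 < C := by
    have := abs_nonneg (Real.log (1 + Real.exp 5))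
    linarith
  have hδ1 : δ ≤ 1 := by
    rw [hδ]
    apply Real.exp_le_one_iff.mpr
    have : 0 ≤ C * Real.log H ^ 26 := by positivity
    linarith
  have hone : 1 ≤ H ^ k := Nat.one_le_pow _ _ (by omega)
  have h2 := h1 H hH α (Real.pi * Complex.I) s Complex.I (hα.mono (le_max_left _ _) le_rfl)
    (by
      rw [Complex.exp_pi_mul_I]
      have := algHt_int (-1) (H ^ k) hone (by
        have h5 : (1 : ℤ) ≤ ((H ^ k : ℕ) : ℤ) := by exact_mod_cast hone
        simpa using h5)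
      simpa using this.mono (by omega : 1 ≤ max D 2) le_rfl)
    (hs.mono (le_max_left _ _) le_rfl) (algHt_I.mono (le_max_right _ _) hone)
    (by exact_mod_cast hα0)
    (by
      rw [norm_mul, Complex.norm_I, mul_one, Complex.norm_real, Real.norm_of_nonneg (by linarith)]
      linarith)
    (by
      have : s ≠ 0 := by linarith
      exact_mod_cast this)
    (by rw [Complex.norm_real, Real.norm_of_nonneg (by linarith)]; linarith)
    (by rw [Complex.norm_I]; norm_num) I_irr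
  have e3 : (α : ℂ) - Complex.exp (s + Complex.I * (Real.pi * Complex.I)) =
      ((α - Real.exp (s - Real.pi) : ℝ) : ℂ) := by
    push_cast
    congr 2
    linear_combination (Real.pi : ℂ) * Complex.I_mul_I
  rw [e3, Complex.norm_real, Real.norm_eq_abs] at h2
  have e4 : |α - Real.exp (s - Real.pi)| ≤ (1 + Real.exp 5) * δ := by
    have e5 : α - Real.exp (s - Real.pi) = -(Real.exp t - α) + (Real.exp t - Real.exp (s - Real.pi)) := by
      ring
    have e6 : |Real.exp t - Real.exp (s - Real.pi)| ≤ Real.exp 5 * |t - (s - Real.pi)| :=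
      exp_sub_le (by linarith) (by linarith)
    have e7 : t - (s - Real.pi) = Real.pi + t - s := by ring
    rw [e7] at e6
    rw [e5]
    refine (abs_add_le _ _).trans ?_
    rw [abs_neg]
    have e8 : Real.exp 5 * |Real.pi + t - s| ≤ Real.exp 5 * δ :=
      mul_le_mul_of_nonneg_left e2 (Real.exp_pos _).le
    linarith
  have e9 := absorb C1 (1 + Real.exp 5) C (by positivity) hC1.le 12 26 (by norm_num)
    (by linarith) hH
  linarith

/-- `s = exp (β0 + log α / √2)`, with `β0 = ± 1` -/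
theorem pair_S (D k : ℕ) (β0 : ℤ) (hβ0 : β0 ≠ 0) (hβ1 : |β0| ≤ 1) : ∃ C0 : ℝ, 0 < C0 ∧ ∀ C : ℝ, C0 ≤ C → ∀ H : ℕ, 3 ≤ H →
    ∀ α s t : ℝ, AlgHt D (H ^ k) (α : ℂ) → AlgHt D (H ^ k) (s : ℂ) → 1 ≤ α → Real.log α ≤ 7 →
    s ≠ 0 → 1 ≤ Real.exp (Real.sqrt 2 * t) → t ≤ 4 →
    |Real.exp (Real.sqrt 2 * t) - α| ≤ Real.exp (-(C * Real.log H ^ 26)) →
    |Real.exp (β0 + t) - s| ≤ Real.exp (-(C * Real.log H ^ 26)) → False := by
  obtain ⟨C1, hC1, h1⟩ := inh_core (max D 2) (k + 1) 8 (by norm_num)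
  refine ⟨C1 + |Real.log (1 + Real.exp 8)| + 1, by positivity,
    fun C hC H hH α s t hα hs hα1 hα7 hs0 hexp ht e1 e2 => ?_⟩
  have hL := one_le_logH hH
  set δ := Real.exp (-(C * Real.log H ^ 26)) with hδ
  have hδ0 : 0 < δ := Real.exp_pos _
  have hone : 1 ≤ H ^ (k + 1) := Nat.one_le_pow _ _ (by omega)
  have hHk : H ^ k ≤ H ^ (k + 1) := Nat.pow_le_pow_right (by omega) (by omega)
  have h2H : 2 ≤ H ^ (k + 1) := by
    calc 2 ≤ H := by omega
      _ = H ^ 1 := (pow_one H).symm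
      _ ≤ _ := Nat.pow_le_pow_right (by omega) (by omega)
  have hs1 : 1 ≤ Real.sqrt 2 := by
    rw [Real.one_le_sqrt]; norm_num
  have hs2 : 0 < Real.sqrt 2 := by positivity
  have hβR : |(β0 : ℝ)| ≤ 1 := by exact_mod_cast hβ1
  have h2 := h1 H hH s (Real.log α : ℝ) β0 ((1 / Real.sqrt 2 : ℝ) : ℂ)
    (hs.mono (le_max_left _ _) hHk)
    (by
      rw [← Complex.ofReal_exp, Real.exp_log (by linarith)]
      exact hα.mono (le_max_left _ _) hHk)
    ((algHt_int β0 (H ^ (k + 1)) hone (hβ1.trans (by exact_mod_cast hone))).mono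
      (by omega : 1 ≤ max D 2) le_rfl)
    ((algHt_rsqrt _ h2H).mono (le_max_right _ _) le_rfl)
    (by exact_mod_cast hs0)
    (by
      rw [Complex.norm_real, Real.norm_of_nonneg (Real.log_nonneg hα1)]
      linarith)
    (by exact_mod_cast hβ0)
    (by rw [Complex.norm_intCast]; linarith)
    (by
      rw [Complex.norm_real, Real.norm_of_nonneg (by positivity), div_le_iff₀ hs2]
      linarith) rsqrt_irr
  have e3 : (s : ℂ) - Complex.exp (β0 + ((1 / Real.sqrt 2 : ℝ) : ℂ) * (Real.log α : ℝ)) =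
      ((s - Real.exp (β0 + 1 / Real.sqrt 2 * Real.log α) : ℝ) : ℂ) := by
    push_cast
    rfl
  rw [e3, Complex.norm_real, Real.norm_eq_abs] at h2
  have e4 : |s - Real.exp (β0 + 1 / Real.sqrt 2 * Real.log α)| ≤ (1 + Real.exp 8) * δ := by
    have e5 : s - Real.exp (β0 + 1 / Real.sqrt 2 * Real.log α) = -(Real.exp (β0 + t) - s) +
        (Real.exp (β0 + t) - Real.exp (β0 + 1 / Real.sqrt 2 * Real.log α)) := by
      ring
    have hl0 := Real.log_nonneg hα1
    have e10 : 1 / Real.sqrt 2 ≤ 1 := by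
      rw [div_le_one hs2]; exact hs1
    have hb := (abs_le.mp hβR).2
    have e6 : |Real.exp (β0 + t) - Real.exp (β0 + 1 / Real.sqrt 2 * Real.log α)| ≤
        Real.exp 8 * |(β0 + t) - (β0 + 1 / Real.sqrt 2 * Real.log α)| := by
      apply exp_sub_le (by linarith)
      have : 1 / Real.sqrt 2 * Real.log α ≤ 1 * Real.log α :=
        mul_le_mul_of_nonneg_right e10 hl0
      linarith
    have e7 : (β0 + t) - (β0 + 1 / Real.sqrt 2 * Real.log α) =
        1 / Real.sqrt 2 * (Real.sqrt 2 * t - Real.log α) := by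
      field_simp
      ring
    have e8 : |Real.sqrt 2 * t - Real.log α| ≤ δ := by
      have := log_sub_le2 hexp hα1
      rw [Real.log_exp] at this
      exact this.trans e1
    rw [e7, abs_mul, abs_of_pos (by positivity : 0 < 1 / Real.sqrt 2)] at e6
    have e9 : 1 / Real.sqrt 2 * |Real.sqrt 2 * t - Real.log α| ≤ 1 * δ :=
      mul_le_mul e10 e8 (abs_nonneg _) (by norm_num)
    rw [e5]
    refine (abs_add_le _ _).trans ?_
    rw [abs_neg]
    have e11 : Real.exp 8 * (1 / Real.sqrt 2 * |Real.sqrt 2 * t - Real.log α|) ≤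
        Real.exp 8 * (1 * δ) := mul_le_mul_of_nonneg_left e9 (Real.exp_pos _).le
    linarith
  have e9 := absorb C1 (1 + Real.exp 8) C (by positivity) hC1.le 12 26 (by norm_num)
    (by linarith) hH
  linarith

/-- `s log α` and `π` -/
theorem pair_H (D k : ℕ) : ∃ C0 : ℝ, 0 < C0 ∧ ∀ C : ℝ, C0 ≤ C → ∀ H : ℕ, 3 ≤ H →
    ∀ α s : ℝ, AlgHt D (H ^ k) (α : ℂ) → AlgHt D (H ^ k) (s : ℂ) → 1 < α → Real.log α ≤ 4 →
    0 < s → s ≤ 4 →
    |Real.exp (Real.exp 1) - α| ≤ Real.exp (-(C * Real.log H ^ 26)) →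
    |Real.pi / Real.exp 1 - s| ≤ Real.exp (-(C * Real.log H ^ 26)) → False := by
  obtain ⟨C1, hC1, h1⟩ := hom_core D k 4 (by norm_num)
  refine ⟨C1 + |Real.log 7| + 1, by positivity,
    fun C hC H hH α s hα hs hα1 hα4 hs0 hs4 e1 e2 => ?_⟩
  set δ := Real.exp (-(C * Real.log H ^ 26)) with hδ
  have hδ0 : 0 < δ := Real.exp_pos _
  have h2 := h1 H hH α s hα hs hα1 hα4 hs0.ne' (by rw [abs_of_pos hs0]; exact hs4)
  have he3 : Real.exp 1 < 3 := by have := Real.exp_one_lt_d9; linarith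
  have he0 := Real.exp_pos 1
  have e3 : |s * Real.log α - Real.pi| ≤ 7 * δ := by
    have e4 : s * Real.log α - Real.pi = -(s * (Real.exp 1 - Real.log α)) -
        Real.exp 1 * (Real.pi / Real.exp 1 - s) := by
      field_simp
      ring
    have e5 : |Real.exp 1 - Real.log α| ≤ δ := by
      have := log_sub_le2 (Real.one_le_exp he0.le) hα1.le
      rw [Real.log_exp] at this
      exact this.trans e1
    rw [e4]
    refine (abs_sub _ _).trans ?_
    rw [abs_neg, abs_mul, abs_mul, abs_of_pos hs0, abs_of_pos he0]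
    have e6 : s * |Real.exp 1 - Real.log α| ≤ 4 * δ := mul_le_mul hs4 e5 (abs_nonneg _) (by norm_num)
    have e7 : Real.exp 1 * |Real.pi / Real.exp 1 - s| ≤ 3 * δ :=
      mul_le_mul he3.le e2 (abs_nonneg _) (by norm_num)
    linarith
  have h5 := exp_I_near e3
  have h6 := absorb C1 7 C (by norm_num) hC1.le 7 26 (by norm_num) (by linarith) hH
  have h7 : Complex.I * (s : ℂ) * (Real.log α : ℝ) = Complex.I * ((s * Real.log α : ℝ) : ℂ) := by
    push_cast; ring
  rw [h7] at h2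
  linarith

end Pool.Agent.H12
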