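import Pool.Agent.H12.QT
import Pool.Graph.R_pool_sql_team_seeded_843ab51a.Results.MP_a2f59b_nt.EveryScale

/-!
# The excluded pairs and triples among the nine numbers
-/

set_option autoImplicit false

namespace Pool.Agent.H12

open Polynomial Module Pool.Agent.H301R2.TR Pool.Agent.Y928.QN

/-- `x` is near to an algebraic number -/
def Near (D H : ℕ) (δ x : ℝ) : Prop := ∃ α : ℂ, AlgHt D H α ∧ ‖(x : ℂ) - α‖ ≤ δ

/-- the error at scale `H` -/
noncomputable def er (C : ℝ) (H : ℕ) : ℝ := Real.exp (-(C * Real.log H ^ 26))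

theorem Near.real {D H : ℕ} {δ x : ℝ} (hH : 3 ≤ H) (h : Near D H δ x) :
    ∃ a : ℝ, AlgHt (D ^ 2) (H ^ (19 * D ^ 2)) (a : ℂ) ∧ |x - a| ≤ δ := by
  obtain ⟨α, h1, h2⟩ := h
  refine ⟨α.re, h1.re hH, ?_⟩
  have h3 := Complex.abs_re_le_norm ((x : ℂ) - α)
  rw [Complex.sub_re, Complex.ofReal_re] at h3
  exact h3.trans h2

theorem er_small {C : ℝ} (hC : 10 ≤ C) {H : ℕ} (hH : 3 ≤ H) : er C H ≤ 1 / 10 := by
  unfold er
  have hL := one_le_logH hH
  have h1 : 1 ≤ Real.log H ^ 26 := one_le_pow₀ hL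
  have h2 : 10 ≤ C * Real.log H ^ 26 := by nlinarith
  have h3 : Real.exp (-(C * Real.log H ^ 26)) ≤ Real.exp (-10) := Real.exp_le_exp.mpr (by linarith)
  refine h3.trans ?_
  rw [Real.exp_neg, inv_eq_one_div]
  apply one_div_le_one_div_of_le (by norm_num)
  have := Real.add_one_le_exp (10 : ℝ)
  linarith

theorem exp_one_lo : 2.7 < Real.exp 1 := by have := Real.exp_one_gt_d9; linarith
theorem exp_one_hi : Real.exp 1 < 2.72 := by have := Real.exp_one_lt_d9; linarith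

theorem ex50 (D : ℕ) : ∃ C0 : ℝ, 0 < C0 ∧ ∀ C : ℝ, C0 ≤ C → ∀ H : ℕ, 3 ≤ H →
    Near D H (er C H) (Real.exp (Real.exp 1)) → Near D H (er C H) (Real.pi + Real.exp 1) →
    False := by
  obtain ⟨C0, hC0, h⟩ := pair_I (D ^ 2) (19 * D ^ 2)
  refine ⟨C0 + 10, by linarith, fun C hC H hH h1 h2 => ?_⟩
  obtain ⟨α, a1, a2⟩ := h1.real hH
  obtain ⟨s, s1, s2⟩ := h2.real hH
  have hs := er_small (C := C) (by linarith) hH
  have hpi := Real.pi_gt_three
  have hpi' := Real.pi_lt_four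
  have e1 := exp_one_lo
  have e2 := exp_one_hi
  have e3 : 1 ≤ Real.exp (Real.exp 1) := Real.one_le_exp (by linarith)
  have a3 := abs_le.mp (a2.trans hs)
  have s3 := abs_le.mp (s2.trans hs)
  exact h C (by linarith) H hH α s (Real.exp 1) a1 s1 (by linarith) (by linarith) (by linarith)
    (by linarith) a2 s2

theorem ex51 (D : ℕ) : ∃ C0 : ℝ, 0 < C0 ∧ ∀ C : ℝ, C0 ≤ C → ∀ H : ℕ, 3 ≤ H →
    Near D H (er C H) (Real.exp (Real.exp 1)) → Near D H (er C H) (Real.pi - Real.exp 1) →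
    False := by
  obtain ⟨C0, hC0, h⟩ := pair_I (D ^ 2) (19 * D ^ 2)
  refine ⟨C0 + 10, by linarith, fun C hC H hH h1 h2 => ?_⟩
  obtain ⟨α, a1, a2⟩ := h1.real hH
  obtain ⟨s, s1, s2⟩ := h2.real hH
  have hs := er_small (C := C) (by linarith) hH
  have hpi := Real.pi_gt_three
  have hpi' := Real.pi_lt_four
  have e1 := exp_one_lo
  have e2 := exp_one_hi
  have e3 : 2 ≤ Real.exp (Real.exp 1) := by
    have := Real.add_one_le_exp (Real.exp 1)
    linarith
  have a3 := abs_le.mp (a2.trans hs)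
  have s3 := abs_le.mp (s2.trans hs)
  have hα1 : 1 ≤ α := by linarith
  have hα0 : (α : ℂ) ≠ 0 := by exact_mod_cast (by linarith : α ≠ 0)
  have a4 : |Real.exp (-Real.exp 1) - α⁻¹| ≤ er C H := by
    have e4 : Real.exp (-Real.exp 1) - α⁻¹ =
        -((Real.exp (Real.exp 1) - α) / (Real.exp (Real.exp 1) * α)) := by
      rw [Real.exp_neg]
      have h0 : Real.exp (Real.exp 1) ≠ 0 := (Real.exp_pos _).ne'
      have h0' : α ≠ 0 := by linarith
      field_simp
      ring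
    rw [e4, abs_neg, abs_div, abs_of_pos (by positivity : 0 < Real.exp (Real.exp 1) * α)]
    refine le_trans (div_le_self (abs_nonneg _) ?_) a2
    exact one_le_mul_of_one_le_of_one_le (by linarith) hα1
  refine h C (by linarith) H hH α⁻¹ s (-Real.exp 1) ?_ s1 (by positivity) (by linarith)
    (by linarith) (by linarith) a4 ?_
  · have := a1.inv hα0
    push_cast
    exact this
  · have : Real.pi + -Real.exp 1 - s = Real.pi - Real.exp 1 - s := by ring
    rw [this]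
    exact s2

theorem ex53 (D : ℕ) : ∃ C0 : ℝ, 0 < C0 ∧ ∀ C : ℝ, C0 ≤ C → ∀ H : ℕ, 3 ≤ H →
    Near D H (er C H) (Real.exp (Real.exp 1)) → Near D H (er C H) (Real.pi / Real.exp 1) →
    False := by
  obtain ⟨C0, hC0, h⟩ := pair_H (D ^ 2) (19 * D ^ 2)
  refine ⟨C0 + 10, by linarith, fun C hC H hH h1 h2 => ?_⟩
  obtain ⟨α, a1, a2⟩ := h1.real hH
  obtain ⟨s, s1, s2⟩ := h2.real hH
  have hs := er_small (C := C) (by linarith) hH
  have hpi := Real.pi_gt_three
  have hpi' := Real.pi_lt_four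
  have e1 := exp_one_lo
  have e2 := exp_one_hi
  have e0 := Real.exp_pos 1
  have e3 : 3 ≤ Real.exp (Real.exp 1) := by
    have := Real.add_one_le_exp (Real.exp 1)
    linarith
  have a3 := abs_le.mp (a2.trans hs)
  have s3 := abs_le.mp (s2.trans hs)
  have e4 : 1 ≤ Real.pi / Real.exp 1 := by
    rw [le_div_iff₀ e0]; linarith
  have e5 : Real.pi / Real.exp 1 ≤ 2 := by
    rw [div_le_iff₀ e0]; linarith
  refine h C (by linarith) H hH α s a1 s1 (by linarith) ?_ (by linarith) (by linarith) a2 s2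
  rw [Real.log_le_iff_le_exp (by linarith)]
  have e6 : Real.exp (Real.exp 1) + 1 ≤ Real.exp 4 := by
    have e7 : Real.exp 4 = Real.exp (Real.exp 1) * Real.exp (4 - Real.exp 1) := by
      rw [← Real.exp_add]; congr 1; ring
    have e8 := Real.add_one_le_exp (4 - Real.exp 1)
    rw [e7]
    nlinarith
  linarith

theorem sqrt2_lo : 1.4 < Real.sqrt 2 := by
  rw [Real.lt_sqrt (by norm_num)]; norm_num
theorem sqrt2_hi : Real.sqrt 2 < 1.42 := by
  rw [Real.sqrt_lt' (by norm_num)]; norm_num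

theorem pi_rpow (y : ℝ) : Real.pi ^ y = Real.exp (y * Real.log Real.pi) := by
  rw [Real.rpow_def_of_pos Real.pi_pos, mul_comm]

theorem logpi_lo : 1 < Real.log Real.pi := by
  rw [Real.lt_log_iff_exp_lt Real.pi_pos]
  have := exp_one_hi
  have := Real.pi_gt_three
  linarith

theorem logpi_hi : Real.log Real.pi < 2 := by
  rw [Real.log_lt_iff_lt_exp Real.pi_pos]
  have h1 := exp_one_lo
  have h2 : Real.exp 2 = Real.exp 1 * Real.exp 1 := by rw [← Real.exp_add]; norm_num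
  have := Real.pi_lt_four
  rw [h2]
  nlinarith

theorem ex7 (D : ℕ) (β0 : ℤ) (hβ0 : β0 ≠ 0) (hβ1 : |β0| ≤ 1) : ∃ C0 : ℝ, 0 < C0 ∧ ∀ C : ℝ, C0 ≤ C →
    ∀ H : ℕ, 3 ≤ H → Near D H (er C H) (Real.pi ^ Real.sqrt 2) →
    Near D H (er C H) (Real.pi * Real.exp β0) → False := by
  obtain ⟨C0, hC0, h⟩ := pair_S (D ^ 2) (19 * D ^ 2) β0 hβ0 hβ1
  refine ⟨C0 + 10, by linarith, fun C hC H hH h1 h2 => ?_⟩
  obtain ⟨α, a1, a2⟩ := h1.real hH
  obtain ⟨s, s1, s2⟩ := h2.real hH
  have hs := er_small (C := C) (by linarith) hH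
  have hpi := Real.pi_gt_three
  have l1 := logpi_lo
  have l2 := logpi_hi
  have q1 := sqrt2_lo
  have q2 := sqrt2_hi
  rw [pi_rpow] at a2
  have e3 : 2.4 ≤ Real.exp (Real.sqrt 2 * Real.log Real.pi) := by
    have := Real.add_one_le_exp (Real.sqrt 2 * Real.log Real.pi)
    nlinarith
  have e4 : Real.exp (Real.sqrt 2 * Real.log Real.pi) + 1 ≤ Real.exp 7 := by
    have e5 : Real.sqrt 2 * Real.log Real.pi ≤ 3 := by nlinarith
    have e7 : Real.exp 7 = Real.exp (Real.sqrt 2 * Real.log Real.pi) *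
        Real.exp (7 - Real.sqrt 2 * Real.log Real.pi) := by
      rw [← Real.exp_add]; congr 1; ring
    have e8 := Real.add_one_le_exp (7 - Real.sqrt 2 * Real.log Real.pi)
    rw [e7]
    nlinarith
  have hβR : |(β0 : ℝ)| ≤ 1 := by exact_mod_cast hβ1
  have hb := abs_le.mp hβR
  have e6 : 1 ≤ Real.pi * Real.exp β0 := by
    have h3 : Real.exp (-1) ≤ Real.exp β0 := Real.exp_le_exp.mpr hb.1
    have h4 : 1 / 2.72 ≤ Real.exp (-1) := by
      rw [Real.exp_neg, inv_eq_one_div]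
      exact one_div_le_one_div_of_le (Real.exp_pos _) exp_one_hi.le
    nlinarith
  have a3 := abs_le.mp (a2.trans hs)
  have s3 := abs_le.mp (s2.trans hs)
  refine h C (by linarith) H hH α s (Real.log Real.pi) a1 s1 (by linarith) ?_ (by linarith)
    (by linarith) (by linarith) a2 ?_
  · rw [Real.log_le_iff_le_exp (by linarith)]
    linarith
  · have : Real.exp (β0 + Real.log Real.pi) = Real.pi * Real.exp β0 := by
      rw [Real.exp_add, Real.exp_log Real.pi_pos, mul_comm]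
    rw [this]
    exact s2

/-- the triple `π ^ π`, `π ^ √2`, `e ^ (π ^ 2)` -/
theorem ex478 (D : ℕ) : ∃ C0 : ℝ, 0 < C0 ∧ ∀ C : ℝ, C0 ≤ C → ∀ H : ℕ, 3 ≤ H →
    Near D H (er C H) (Real.pi ^ Real.pi) → Near D H (er C H) (Real.pi ^ Real.sqrt 2) →
    Near D H (er C H) (Real.exp (Real.pi ^ 2)) → False := by
  have hpi := Real.pi_gt_three
  have hpi' := Real.pi_lt_four
  have l1 := logpi_lo
  have l2 := logpi_hi
  have q1 := sqrt2_lo
  have q2 := sqrt2_hi
  obtain ⟨C1, hC1, h⟩ := tri_log (D ^ 2) (19 * D ^ 2) 20 (by norm_num)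
  refine ⟨C1 + |Real.log 5| + 10, by positivity, fun C hC H hH h1 h2 h3 => ?_⟩
  obtain ⟨a, a1, a2⟩ := h1.real hH
  obtain ⟨b, b1, b2⟩ := h2.real hH
  obtain ⟨c, c1, c2⟩ := h3.real hH
  have habs := abs_nonneg (Real.log 5)
  have hs := er_small (C := C) (by linarith) hH
  rw [pi_rpow] at a2 b2
  set A := Real.pi * Real.log Real.pi with hA
  set B := Real.sqrt 2 * Real.log Real.pi with hB
  have hA3 : 3 ≤ A := by nlinarith
  have hA8 : A ≤ 8 := by nlinarith
  have hB1 : 1.4 ≤ B := by nlinarith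
  have hB3 : B ≤ 3 := by nlinarith
  have hP9 : 9 ≤ Real.pi ^ 2 := by nlinarith
  have hP16 : Real.pi ^ 2 ≤ 16 := by nlinarith
  have up : ∀ x : ℝ, 0 ≤ x → x ≤ 16 → Real.exp x + 1 ≤ Real.exp 20 := by
    intro x hx0 hx
    have e7 : Real.exp 20 = Real.exp x * Real.exp (20 - x) := by
      rw [← Real.exp_add]; congr 1; ring
    have e8 := Real.add_one_le_exp (20 - x)
    have e9 : 1 ≤ Real.exp x := Real.one_le_exp hx0
    rw [e7]
    nlinarith
  have lo : ∀ x : ℝ, 1.4 ≤ x → 2.4 ≤ Real.exp x := by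
    intro x hx
    have := Real.add_one_le_exp x
    linarith
  have a3 := abs_le.mp (a2.trans hs)
  have b3 := abs_le.mp (b2.trans hs)
  have c3 := abs_le.mp (c2.trans hs)
  have ua := up A (by linarith) (by linarith)
  have ub := up B (by linarith) (by linarith)
  have uc := up (Real.pi ^ 2) (by linarith) (by linarith)
  have la := lo A (by linarith)
  have lb := lo B (by linarith)
  have lc := lo (Real.pi ^ 2) (by linarith)
  have hexpA : Real.exp 1 + 1 ≤ Real.exp A := by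
    have e1 : Real.exp 3 ≤ Real.exp A := Real.exp_le_exp.mpr hA3
    have e2 := Real.add_one_le_exp (3 : ℝ)
    have e3 := exp_one_hi
    linarith
  have da : |Real.log a - A| ≤ er C H := by
    have := log_sub_le2 (x := Real.exp A) (y := a) (by linarith) (by linarith)
    rw [Real.log_exp] at this
    rw [abs_sub_comm]
    exact this.trans a2
  have db : |Real.log b - B| ≤ er C H := by
    have := log_sub_le2 (x := Real.exp B) (y := b) (by linarith) (by linarith)
    rw [Real.log_exp] at this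
    rw [abs_sub_comm]
    exact this.trans b2
  have dc : |Real.log c - Real.pi ^ 2| ≤ er C H := by
    have := log_sub_le2 (x := Real.exp (Real.pi ^ 2)) (y := c) (by linarith) (by linarith)
    rw [Real.log_exp] at this
    rw [abs_sub_comm]
    exact this.trans c2
  have ab := absorb C1 5 C (by norm_num) hC1.le 26 26 le_rfl (by linarith) hH
  have her : 0 < er C H := Real.exp_pos _
  refine h H hH a b c a1 b1 c1 (by linarith) ?_ (by linarith) (by linarith) ?_ ?_ ?_ ?_ ?_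
  · rw [Real.le_log_iff_exp_le (by linarith)]
    linarith
  · rw [Real.log_le_iff_le_exp (by linarith)]
    linarith
  · rw [Real.log_le_iff_le_exp (by linarith)]
    linarith
  · rw [Real.log_le_iff_le_exp (by linarith)]
    linarith
  · refine le_trans ?_ ab
    have e1 : Real.log a - Real.pi * Real.log b / Real.sqrt 2 =
        (Real.log a - A) - Real.pi / Real.sqrt 2 * (Real.log b - B) := by
      rw [hA, hB]
      field_simp
      ring
    rw [e1]
    refine (abs_sub _ _).trans ?_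
    rw [abs_mul, abs_of_pos (by positivity : 0 < Real.pi / Real.sqrt 2)]
    have e2 : Real.pi / Real.sqrt 2 ≤ 4 := by
      rw [div_le_iff₀ (by linarith)]; linarith
    have e3 : Real.pi / Real.sqrt 2 * |Real.log b - B| ≤ 4 * er C H :=
      mul_le_mul e2 db (abs_nonneg _) (by norm_num)
    change _ ≤ 5 * er C H
    linarith
  · refine le_trans ?_ ab
    change _ ≤ 5 * er C H
    linarith

/-- the triple `π e`, `e ^ e`, `π ^ e` -/
theorem ex256 (D : ℕ) : ∃ C0 : ℝ, 0 < C0 ∧ ∀ C : ℝ, C0 ≤ C → ∀ H : ℕ, 3 ≤ H →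
    Near D H (er C H) (Real.pi * Real.exp 1) → Near D H (er C H) (Real.exp (Real.exp 1)) →
    Near D H (er C H) (Real.pi ^ Real.exp 1) → False := by
  obtain ⟨C1, hC1, h⟩ := main2 D 1 one_pos
  refine ⟨C1 + 1, by linarith, fun C hC H hH h1 h2 h3 => ?_⟩
  obtain ⟨p, p1, p2⟩ := h1
  obtain ⟨b, b1, b2⟩ := h2
  obtain ⟨a, a1, a2⟩ := h3
  have h4 := h H hH p a b p1 a1 b1
  have e1 : (Real.exp 1 ^ Real.exp 1 : ℝ) = Real.exp (Real.exp 1) := by
    rw [← Real.exp_one_rpow (Real.exp 1)]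
  rw [e1] at h4
  have h5 := h4.trans (max_le p2 (max_le a2 b2))
  have hL := one_le_logH hH
  unfold er at h5
  rw [Real.exp_le_exp] at h5
  have h6 : Real.log H ^ ((12 : ℝ) + 1) ≤ Real.log H ^ 26 := by
    have : ((12 : ℝ) + 1) ≤ ((26 : ℕ) : ℝ) := by norm_num
    have h7 := Real.rpow_le_rpow_of_exponent_le hL this
    rwa [Real.rpow_natCast] at h7
  have h8 : 1 ≤ Real.log H ^ 26 := one_le_pow₀ hL
  have h9 : C1 * Real.log H ^ ((12 : ℝ) + 1) ≤ C1 * Real.log H ^ 26 :=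
    mul_le_mul_of_nonneg_left h6 hC1.le
  nlinarith

open Pool.Agent.Results.MP_a2f59b_nt.EveryScale in
/-- two of the four numbers `π + e`, `π - e`, `π e`, `π / e` -/
theorem exFour (D : ℕ) : ∃ C0 : ℝ, 0 < C0 ∧ ∀ C : ℝ, C0 ≤ C → ∀ H : ℕ, 3 ≤ H → ∀ i j : Fin 4,
    (∃ α : ℂ, AlgHt D H α ∧ ‖four (Real.pi : ℂ) i - α‖ ≤ er C H) →
    (∃ α : ℂ, AlgHt D H α ∧ ‖four (Real.pi : ℂ) j - α‖ ≤ er C H) → i = j := by
  obtain ⟨κ, H₀, h⟩ := Pool.Agent.Results.MP_a2f59b_nt.EveryScale.result.1 D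
  obtain ⟨M, hM⟩ := exists_nat_ge H₀
  refine ⟨|κ| * (7 * D + M : ℕ) + 1, by positivity, fun C hC H hH i j hi hj => ?_⟩
  have hL := one_le_logH hH
  have hH3 : (3 : ℝ) ≤ H := by exact_mod_cast hH
  have hH1 : (1 : ℝ) ≤ H := by linarith
  have hHM : H₀ ≤ (H : ℝ) ^ (7 * D + M) := by
    have h3 : M < 2 ^ M := Nat.lt_two_pow_self
    have h4 : (M : ℝ) ≤ 2 ^ M := by exact_mod_cast h3.le
    calc H₀ ≤ M := hM
      _ ≤ 2 ^ M := h4
      _ ≤ (H : ℝ) ^ M := pow_le_pow_left₀ (by norm_num) (by linarith) _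
      _ ≤ _ := pow_le_pow_right₀ hH1 (by omega)
  have key : ∀ i : Fin 4, (∃ α : ℂ, AlgHt D H α ∧ ‖four (Real.pi : ℂ) i - α‖ ≤ er C H) →
      i ∈ close D κ (Real.pi : ℂ) ((H : ℝ) ^ (7 * D + M)) := by
    rintro i ⟨α, h1, h2⟩
    obtain ⟨A, b1, b2, b3, b4⟩ := h1.irr hH
    refine ⟨α, ⟨A, b1, b2, fun j => (b3 j).trans (pow_le_pow_right₀ hH1 (by omega)), b4⟩,
      h2.trans ?_⟩
    unfold er
    have hpos : (0 : ℝ) < (H : ℝ) ^ (7 * D + M) := by positivity
    rw [Real.rpow_def_of_pos hpos, Real.log_pow]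
    apply Real.exp_le_exp.mpr
    have e1 : (((7 * D + M : ℕ) : ℝ) * Real.log H) * κ ≤
        (((7 * D + M : ℕ) : ℝ) * Real.log H) * |κ| :=
      mul_le_mul_of_nonneg_left (le_abs_self κ) (by positivity)
    have e2 : Real.log H ≤ Real.log H ^ 26 := le_self_pow₀ hL (by norm_num)
    have e3 : (|κ| * (7 * D + M : ℕ)) * Real.log H ≤ C * Real.log H ^ 26 := by
      apply mul_le_mul (by linarith) e2 (by linarith)
      have : 0 ≤ |κ| * (7 * D + M : ℕ) := by positivity
      linarith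
    nlinarith
  exact h _ hHM (key i hi) (key j hj)

end Pool.Agent.H12
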