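import Pool.Agent.H12.QT

/-!
# A quantitative theorem of Gelfond-Schneider type
-/

set_option autoImplicit false

namespace Pool.Agent.H12

open Finset Module Pool.Agent.H301R2.TR Pool.Agent.H335R2.Obs Pool.Agent.Y928.QN

theorem gs_core (D k : ℕ) (B : ℝ) (hB : 1 ≤ B) : ∃ C : ℝ, 0 < C ∧ ∀ H : ℕ, 3 ≤ H → ∀ (a : ℝ) (β α : ℂ),
    AlgHt D (H ^ k) (a : ℂ) → AlgHt D (H ^ k) β → AlgHt D (H ^ k) α → 0 < a → a ≠ 1 →
    |Real.log a| ≤ B → (∀ q : ℚ, β ≠ q) → ‖β‖ ≤ B → α ≠ 0 →
    Real.exp (-(C * Real.log H ^ 7)) < ‖Complex.exp (β * (Real.log a : ℝ)) - α‖ := by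
  obtain ⟨C, hC, hmain⟩ := QTH (w := 1) (b := 2) (l := 1) (r := 0) ∅ 6 4 2 (D ^ 3) (k + 3) B hB
    (by norm_num) (by norm_num) (by simp)
  refine ⟨C, hC, fun H hH a β α ha hβ hα ha0 ha1 hlog hirr hβB hα0 => ?_⟩
  by_contra hcon
  rw [not_lt] at hcon
  have hH3 : (3 : ℝ) ≤ H := by exact_mod_cast hH
  have hH1 : (1 : ℝ) ≤ H := by linarith
  obtain ⟨F, _, _, φ, hDg, hφ⟩ := exists_field_fam D 3 ![(a : ℂ), β, α] (by
    intro i
    fin_cases i
    · exact ⟨H ^ k, ha⟩
    · exact ⟨H ^ k, hβ⟩
    · exact ⟨H ^ k, hα⟩)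
  obtain ⟨wa, hwa⟩ := hφ 0
  obtain ⟨wb, hwb⟩ := hφ 1
  obtain ⟨wc, hwc⟩ := hφ 2
  simp only [Matrix.cons_val_zero, Matrix.cons_val_one, Matrix.cons_val_fin_one, Matrix.cons_val] at hwa hwb hwc
  -- sizes
  have p1 : (H : ℝ) ^ (k + 1) ≤ (H : ℝ) ^ (k + 3) := pow_le_pow_right₀ hH1 (by omega)
  have p0 : (1 : ℝ) ≤ (H : ℝ) ^ (k + 3) := one_le_pow₀ hH1
  have sa : Sz ((H : ℝ) ^ (k + 3)) wa := ((ha.sz φ wa hwa).mono (pow_succ_bound hH k)).mono p1
  have sb : Sz ((H : ℝ) ^ (k + 3)) wb := ((hβ.sz φ wb hwb).mono (pow_succ_bound hH k)).mono p1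
  have sc : Sz ((H : ℝ) ^ (k + 3)) wc := ((hα.sz φ wc hwc).mono (pow_succ_bound hH k)).mono p1
  obtain ⟨Af, Rm, G0, h1, h2, h3⟩ := hmain H hH F φ hDg
    (fun _ j => ![1, wb] j) (fun _ _ => 0) (fun j _ => ![wa, wc] j)
    (fun ρ _ => ρ.elim0) (fun ρ _ => ρ.elim0) (fun _ _ => ((Real.log a : ℝ) : ℂ))
    (by
      intro i j
      fin_cases j
      · exact Sz.one p0
      · exact sb)
    (fun i p => Sz.zero p0)
    (by
      intro j p
      fin_cases j
      · exact sa
      · exact sc)
    (fun ρ => ρ.elim0) (fun ρ => ρ.elim0)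
    (by
      intro i p
      rw [Complex.norm_real, Real.norm_eq_abs]
      exact hlog)
    (by
      intro i j
      fin_cases j
      · simpa using hB
      · simp only [Fin.mk_one, Matrix.cons_val_one, Matrix.cons_val_fin_one, hwb]
        exact hβB)
    (by intro i hi; simp at hi)
    (by
      intro j p
      have h0 : (0 : ℝ) ≤ Real.exp (-(C * Real.log H ^ (6 + 1))) := (Real.exp_pos _).le
      fin_cases j
      · simp only [Finset.univ_eq_empty, Finset.sum_empty, zero_add, Fin.zero_eta,
          Matrix.cons_val_zero, map_one, one_mul, Fin.sum_univ_one, hwa]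
        rw [← Complex.ofReal_exp, Real.exp_log ha0, sub_self, norm_zero]
        exact h0
      · simp only [Finset.univ_eq_empty, Finset.sum_empty, zero_add, Fin.mk_one,
          Matrix.cons_val_one, Matrix.cons_val_fin_one, Fin.sum_univ_one, hwb, hwc]
        rw [norm_sub_rev]
        exact hcon)
    (by
      intro j p
      fin_cases j
      · simp only [Fin.zero_eta, Matrix.cons_val_zero, hwa]
        exact_mod_cast ha0.ne'
      · simp only [Fin.mk_one, Matrix.cons_val_one, Matrix.cons_val_fin_one, hwc]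
        exact hα0)
  have hAf : Af = ⊥ := by
    rw [eq_bot_iff]
    intro v hv
    rw [Submodule.mem_bot]
    funext i
    exact h1 v hv i (by simp)
  -- the space `N`
  let v : Fin 2 → ℂ := ![β, -1]
  by_cases hv : v ∈ kSpan ℂ Rm
  · -- then `Rm` has rank two
    have hforms : ∀ q : Fin 2 → ℚ, (∀ m ∈ Rm, ∑ i, q i * (m i : ℚ) = 0) → q = 0 := by
      intro q hq
      have h4 := form_cSpan hq hv
      rw [Fin.sum_univ_two] at h4
      simp only [v, Matrix.cons_val_zero, Matrix.cons_val_one, Matrix.cons_val_fin_one] at h4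
      have h5 : q 0 = 0 := by
        by_contra h
        apply hirr (q 1 / q 0)
        have h' : (q 0 : ℂ) ≠ 0 := by exact_mod_cast h
        push_cast
        field_simp
        linear_combination h4
      have h6 : q 1 = 0 := by
        rw [h5] at h4
        have : (q 1 : ℂ) = 0 := by
          push_cast at h4
          linear_combination -h4
        exact_mod_cast this
      funext i
      fin_cases i
      · exact h5
      · exact h6
    have hrk : finrank ℤ Rm = 2 := by
      apply le_antisymm
      · have := finrank_le_card Rm univ (by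
          intro s _ hs
          funext i
          exact hs i (mem_univ i))
        simpa using this
      · by_contra hlt
        obtain ⟨q, hq0, hq⟩ := exists_rat_form Rm (by omega)
        exact hq0 (hforms q hq)
    have h4 := h3 (Submodule.span ℂ {v}) (by
      intro m _ hm
      rw [hAf, Submodule.mem_bot] at hm
      have h5 := congrFun hm 0
      simp only [Fin.sum_univ_two, Matrix.cons_val_zero, Matrix.cons_val_one, Matrix.cons_val_fin_one, map_one, one_mul,
        hwb, Pi.zero_apply] at h5
      rw [Submodule.mem_span_singleton]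
      refine ⟨-(m 1), ?_⟩
      funext i
      fin_cases i
      · simp [v]
        linear_combination -h5
      · simp [v])
    have h5 : finrank ℂ (Submodule.span ℂ {v}) ≤ 1 := (finrank_span_le_card _).trans (by simp)
    have h6 : 1 ≤ finrank ℤ G0 := by omega
    obtain ⟨t, ht, ht0⟩ := exists_ne_zero_of_finrank G0 h6
    obtain ⟨N, hN, hN'⟩ := mem_of_forms Rm ![1, 0] (fun q hq => by rw [hforms q hq]; simp)
    have h7 := ((h2 t).mp ht).2 _ hN'
    simp only [Fin.prod_univ_two, Fin.prod_univ_one, Pi.smul_apply, Matrix.cons_val_zero,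
      Matrix.cons_val_one, Matrix.cons_val_fin_one, smul_eq_mul, mul_one, mul_zero, zpow_zero, hwa] at h7
    rw [← zpow_mul] at h7
    have ht' : t 0 ≠ 0 := by
      intro h
      apply ht0
      funext i
      rw [Subsingleton.elim i 0]
      exact h
    have h8 : a ^ (t 0 * (N : ℤ)) = 1 := by exact_mod_cast h7
    have h9 : t 0 * (N : ℤ) = 0 := by
      by_contra h10
      exact h10 ((zpow_right_injective₀ (a := a) ha0 ha1) (by simpa using h8))
    rcases mul_eq_zero.mp h9 with h | h
    · exact ht' h
    · have : (N : ℤ) ≠ 0 := by exact_mod_cast hN.ne'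
      exact this h
  · have h4 := h3 ⊥ (by
      intro m hm hm'
      rw [hAf, Submodule.mem_bot] at hm'
      have h5 := congrFun hm' 0
      simp only [Fin.sum_univ_two, Matrix.cons_val_zero, Matrix.cons_val_one, Matrix.cons_val_fin_one, map_one, one_mul,
        hwb, Pi.zero_apply] at h5
      rw [Submodule.mem_bot]
      by_contra hm0
      have h6 : m 1 ≠ 0 := by
        intro h
        apply hm0
        funext i
        fin_cases i
        · simpa [h] using h5
        · exact h
      apply hv
      have h7 : v = (-(m 1)⁻¹) • m := by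
        funext i
        fin_cases i
        · simp [v]
          field_simp
          linear_combination h5
        · simp [v]
          field_simp
      rw [h7]
      exact Submodule.smul_mem _ _ hm)
    rw [finrank_bot] at h4
    omega

end Pool.Agent.H12
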