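import Pool.Agent.H12.QV

/-!
# A transcendence measure of `b ^ d`
-/

set_option autoImplicit false

namespace Pool.Agent.H12

open Polynomial Module Pool.Agent.H301R2.TR Pool.Agent.Y928.QN

theorem eval_lower (Q : ℂ[X]) (t : ℂ) (ε : ℝ) (hε0 : 0 < ε) (hε1 : ε ≤ 1) (N : ℕ)
    (hN : Q.natDegree ≤ N) (hlc : 1 ≤ ‖Q.leadingCoeff‖)
    (h : ∀ ρ, Q.IsRoot ρ → ε ≤ ‖t - ρ‖) : ε ^ N ≤ ‖Q.eval t‖ := by
  have hQ0 : Q ≠ 0 := by
    rintro rfl
    simp at hlc
    linarith
  have hs : Q.Splits := IsAlgClosed.splits Q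
  have h1 := hs.eq_prod_roots
  have h2 : Q.eval t = Q.leadingCoeff * (Q.roots.map (fun a => t - a)).prod := by
    conv_lhs => rw [h1]
    rw [eval_mul, eval_C, eval_multiset_prod, Multiset.map_map]
    simp
  have h3 : ∀ s : Multiset ℂ, (∀ a ∈ s, ε ≤ ‖t - a‖) →
      ε ^ (Multiset.card s) ≤ ‖(s.map (fun a => t - a)).prod‖ := by
    intro s
    induction s using Multiset.induction_on with
    | empty => intro _; simp
    | cons a s ih =>
      intro hs
      rw [Multiset.map_cons, Multiset.prod_cons, norm_mul, Multiset.card_cons, pow_succ']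
      exact mul_le_mul (hs a (Multiset.mem_cons_self a s))
        (ih fun b hb => hs b (Multiset.mem_cons_of_mem hb)) (by positivity) (norm_nonneg _)
  have h4 := h3 Q.roots (fun a ha => h a (by
    rw [mem_roots hQ0] at ha
    exact ha))
  have h5 : Multiset.card Q.roots ≤ N := (card_roots' Q).trans hN
  rw [h2, norm_mul]
  calc ε ^ N ≤ ε ^ Multiset.card Q.roots := pow_le_pow_of_le_one hε0.le hε1 h5
    _ ≤ _ := h4
    _ ≤ _ := le_mul_of_one_le_left (norm_nonneg _) hlc

theorem le_three_pow (n : ℕ) {X : ℕ} (hX : 3 ≤ X) : n ≤ X ^ (n + 1) := by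
  calc n ≤ 2 ^ n := Nat.lt_two_pow_self.le
    _ ≤ X ^ n := Nat.pow_le_pow_left (by omega) n
    _ ≤ X ^ (n + 1) := Nat.pow_le_pow_right (by omega) (by omega)

/-- a transcendence measure of `b ^ d` -/
theorem tmeas (D0 H0 : ℕ) (b d : ℝ) (hb : AlgHt D0 H0 (b : ℂ)) (hd : AlgHt D0 H0 (d : ℂ))
    (hb0 : 0 < b) (hb1 : b ≠ 1) (hirr : Irrational d) (N : ℕ) :
    ∃ C : ℝ, 0 < C ∧ ∀ X : ℕ, 3 ≤ X → ∀ P : ℤ[X], P ≠ 0 → P.natDegree ≤ N →
      (∀ i, |P.coeff i| ≤ (X : ℤ)) →
      Real.exp (-(C * Real.log X ^ 7)) ≤ |aeval (b ^ d : ℝ) P| := by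
  set B : ℝ := 1 + |Real.log b| + |d| with hB
  have hB1 : 1 ≤ B := by
    have := abs_nonneg (Real.log b); have := abs_nonneg d
    rw [hB]; linarith
  obtain ⟨C1, hC1, h1⟩ := gs_core (max D0 N) (H0 + 1) B hB1
  refine ⟨(N + 1) * (C1 + B ^ 2), by positivity, fun X hX P hP hdeg hcoef => ?_⟩
  have hL := one_le_logH hX
  set t : ℝ := b ^ d with ht
  have ht' : t = Real.exp (d * Real.log b) := by
    rw [ht, Real.rpow_def_of_pos hb0, mul_comm]
  set ε : ℝ := Real.exp (-((C1 + B ^ 2) * Real.log X ^ 7)) with hε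
  have hL7 : 1 ≤ Real.log X ^ 7 := one_le_pow₀ hL
  have hε0 : 0 < ε := Real.exp_pos _
  have hε1 : ε ≤ 1 := by
    rw [hε]
    apply Real.exp_le_one_iff.mpr
    have : 0 ≤ (C1 + B ^ 2) * Real.log X ^ 7 := by positivity
    linarith
  have hX1 : X ≤ X ^ (H0 + 1) := by
    calc X = X ^ 1 := (pow_one X).symm
      _ ≤ _ := Nat.pow_le_pow_right (by omega) (by omega)
  have key := eval_lower (P.map (Int.castRingHom ℂ)) (t : ℂ) ε hε0 hε1 N
    ((natDegree_map_le).trans hdeg) (by
      rw [leadingCoeff_map_of_injective (RingHom.injective_int (Int.castRingHom ℂ))]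
      have : P.leadingCoeff ≠ 0 := leadingCoeff_ne_zero.mpr hP
      rw [eq_intCast, Complex.norm_intCast]
      exact_mod_cast Int.one_le_abs this) (by
      intro ρ hρ
      have hρ' : aeval ρ P = 0 := by
        rw [IsRoot, eval_map] at hρ
        rw [aeval_def]
        exact hρ
      by_cases hρ0 : ρ = 0
      · rw [hρ0, sub_zero, Complex.norm_real, ht', Real.norm_of_nonneg (Real.exp_pos _).le]
        apply Real.exp_le_exp.mpr
        have h3 : |d * Real.log b| ≤ B ^ 2 := by
          rw [abs_mul, sq]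
          apply mul_le_mul _ _ (abs_nonneg _) (by linarith)
          · have := abs_nonneg (Real.log b)
            rw [hB]; linarith
          · have := abs_nonneg d
            rw [hB]; linarith
        have h4 : B ^ 2 ≤ (C1 + B ^ 2) * Real.log X ^ 7 := by
          have : (C1 + B ^ 2) * 1 ≤ (C1 + B ^ 2) * Real.log X ^ 7 :=
            mul_le_mul_of_nonneg_left hL7 (by positivity)
          linarith
        have := (abs_le.mp h3).1
        linarith
      · have hAρ : AlgHt N X ρ := ⟨P, hP, hdeg, fun i => by exact_mod_cast hcoef i, hρ'⟩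
        have h3 := h1 X hX b d ρ (hb.mono (le_max_left _ _) (le_three_pow H0 hX))
          (hd.mono (le_max_left _ _) (le_three_pow H0 hX)) (hAρ.mono (le_max_right _ _) hX1)
          hb0 hb1 (by
            have := abs_nonneg d
            rw [hB]; linarith) (by
            intro q hq
            exact hirr ⟨q, by exact_mod_cast hq.symm⟩) (by
            rw [Complex.norm_real, Real.norm_eq_abs]
            have := abs_nonneg (Real.log b)
            rw [hB]; linarith) hρ0
        have h4 : Complex.exp ((d : ℂ) * (Real.log b : ℝ)) = (t : ℂ) := by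
          rw [ht']; push_cast; rfl
        rw [h4] at h3
        refine le_trans ?_ h3.le
        apply Real.exp_le_exp.mpr
        have : C1 * Real.log X ^ 7 ≤ (C1 + B ^ 2) * Real.log X ^ 7 :=
          mul_le_mul_of_nonneg_right (by nlinarith [sq_nonneg B]) (by positivity)
        linarith)
  have h5 : (P.map (Int.castRingHom ℂ)).eval (t : ℂ) = ((aeval t P : ℝ) : ℂ) := by
    have e0 : aeval (t : ℂ) P = eval₂ (Int.castRingHom ℂ) (t : ℂ) P := by
      rw [aeval_def]
      rfl
    rw [eval_map, ← e0]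
    have := Polynomial.aeval_algebraMap_apply (R := ℤ) (A := ℝ) ℂ t P
    simpa using this
  rw [h5, Complex.norm_real, Real.norm_eq_abs] at key
  refine le_trans ?_ key
  rw [hε, ← Real.exp_nat_mul]
  apply Real.exp_le_exp.mpr
  have : 0 ≤ (C1 + B ^ 2) * Real.log X ^ 7 := by positivity
  have e : (N : ℝ) * -((C1 + B ^ 2) * Real.log X ^ 7) = -(N * (C1 + B ^ 2) * Real.log X ^ 7) := by ring
  rw [e]
  have e2 : ((N : ℝ) + 1) * (C1 + B ^ 2) * Real.log X ^ 7 =
    N * (C1 + B ^ 2) * Real.log X ^ 7 + (C1 + B ^ 2) * Real.log X ^ 7 := by ring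
  rw [e2]
  linarith

end Pool.Agent.H12
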