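import Pool.Agent.H12.QW

/-!
# Small multiplicative relations
-/

set_option autoImplicit false

namespace Pool.Agent.H12

open Finset Module Pool.Agent.H301R2.TR Pool.Agent.Y928.QN

/-- powers of numbers which are not roots of unity are large -/
theorem pow_gap (n : ℕ) : ∃ c : ℝ, 1 < c ∧ ∀ (F : Type) [Field F] [NumberField F],
    Module.finrank ℚ F ≤ n → ∀ (x : F) (Q d : ℕ) (R0 : ℝ), 0 < d → 1 ≤ R0 → x ≠ 0 →
    (∀ m : ℕ, 0 < m → x ^ m ≠ 1) → IntD d 1 (x ^ Q) → (∀ σ : F →ₐ[ℚ] ℂ, ‖σ (x ^ Q)‖ ≤ R0) →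
    c ^ Q ≤ ((d : ℝ) * R0) ^ n := by
  obtain ⟨s, hs, hgap⟩ := house_gap n
  refine ⟨min 2 s, lt_min (by norm_num) hs, ?_⟩
  intro F _ _ hF x Q d R0 hd hR0 hx0 htor hint hσ
  have hc0 : (0 : ℝ) ≤ min 2 s := by
    have : (1 : ℝ) < min 2 s := lt_min (by norm_num) hs
    linarith
  have hd1 : (1 : ℝ) ≤ d := by exact_mod_cast hd
  have hdR : 1 ≤ (d : ℝ) * R0 := one_le_mul_of_one_le_of_one_le hd1 hR0
  have hn : 1 ≤ n := by
    have : 0 < Module.finrank ℚ F := Module.finrank_pos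
    omega
  by_cases hη : IsIntegral ℤ x
  · obtain ⟨σ, hσ1⟩ := hgap F hF x hη hx0 htor
    calc (min 2 s) ^ Q ≤ s ^ Q := pow_le_pow_left₀ hc0 (min_le_right _ _) _
      _ ≤ ‖σ x‖ ^ Q := pow_le_pow_left₀ (by linarith) hσ1.le _
      _ = ‖σ (x ^ Q)‖ := by rw [map_pow, norm_pow]
      _ ≤ R0 := hσ σ
      _ ≤ (d : ℝ) * R0 := le_mul_of_one_le_left (by linarith) hd1
      _ ≤ ((d : ℝ) * R0) ^ n := le_self_pow₀ hdR (by omega)
  · have h1 := den_gap (x ^ Q) 1 x Q d 1 hd hint one_pos (one_pow _) (one_mul _).symm hη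
    have h2 : (2 : ℝ) ^ Q ≤ (d : ℝ) ^ (Module.finrank ℚ F) := by exact_mod_cast h1
    calc (min 2 s) ^ Q ≤ 2 ^ Q := pow_le_pow_left₀ hc0 (min_le_left _ _) _
      _ ≤ (d : ℝ) ^ (Module.finrank ℚ F) := h2
      _ ≤ (d : ℝ) ^ n := pow_le_pow_right₀ hd1 hF
      _ ≤ ((d : ℝ) * R0) ^ n :=
        pow_le_pow_left₀ (by linarith) (le_mul_of_one_le_right (by linarith) hR0) _

/-- simultaneous approximation -/
theorem dirichlet {L : ℕ} (Q : ℕ) (hQ : 2 ≤ Q) (m : Fin L → ℤ) (M : ℕ) (hM : 0 < M) :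
    ∃ (q : ℕ) (p k : Fin L → ℤ), 0 < q ∧ q ≤ Q ^ L ∧
      ∀ i, (M : ℤ) * p i = q * m i - k i ∧ |(Q : ℤ) * k i| < M := by
  classical
  have hM' : (0 : ℤ) < M := by exact_mod_cast hM
  have hQ' : (0 : ℤ) < Q := by exact_mod_cast (by omega : 0 < Q)
  have hr0 : ∀ x : ℤ, 0 ≤ x % M := fun x => Int.emod_nonneg x hM'.ne'
  have hr1 : ∀ x : ℤ, x % M < M := fun x => Int.emod_lt_of_pos x hM'
  have hc0 : ∀ x : ℤ, 0 ≤ Q * (x % M) / M := fun x => Int.ediv_nonneg (mul_nonneg hQ'.le (hr0 x)) hM'.le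
  have hc1 : ∀ x : ℤ, Q * (x % M) / M < Q := fun x => by
    apply Int.ediv_lt_of_lt_mul hM'
    exact mul_lt_mul_of_pos_left (hr1 x) hQ'
  let f : Fin (Q ^ L + 1) → (Fin L → Fin Q) := fun a i =>
    ⟨(Q * (((a : ℕ) * m i) % M) / M).toNat, by
      have := hc1 ((a : ℕ) * m i)
      have := hc0 ((a : ℕ) * m i)
      omega⟩
  obtain ⟨a, b, hab, hf⟩ := Fintype.exists_ne_map_eq_of_card_lt f (by simp)
  have key : ∀ a b : Fin (Q ^ L + 1), a < b → f a = f b → ∃ (q : ℕ) (p k : Fin L → ℤ), 0 < q ∧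
      q ≤ Q ^ L ∧ ∀ i, (M : ℤ) * p i = q * m i - k i ∧ |(Q : ℤ) * k i| < M := by
    intro a b hab hf
    have hab' : (a : ℕ) < b := hab
    refine ⟨b - a, fun i => ((b : ℕ) * m i) / M - ((a : ℕ) * m i) / M,
      fun i => ((b : ℕ) * m i) % M - ((a : ℕ) * m i) % M, by omega, by omega, fun i => ⟨?_, ?_⟩⟩
    · have h1 := Int.mul_ediv_add_emod ((b : ℕ) * m i) M
      have h2 := Int.mul_ediv_add_emod ((a : ℕ) * m i) M
      have h3 : (((b : ℕ) - (a : ℕ) : ℕ) : ℤ) = (b : ℕ) - (a : ℕ) := by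
        push_cast [Nat.cast_sub hab'.le]; ring
      rw [h3]
      linear_combination h1 - h2
    · have h1 := congrArg Fin.val (congrFun hf i)
      have h2 : Q * (((a : ℕ) * m i) % M) / M = Q * (((b : ℕ) * m i) % M) / (M : ℤ) := by
        have h3 := hc0 ((a : ℕ) * m i)
        have h4 := hc0 ((b : ℕ) * m i)
        simp only [f] at h1
        omega
      set u := Q * (((a : ℕ) * m i) % M)
      set v := Q * (((b : ℕ) * m i) % (M : ℤ))
      have h3 := Int.mul_ediv_add_emod u M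
      have h4 := Int.mul_ediv_add_emod v M
      have h5 := hr0 u
      have h6 := hr1 u
      have h7 := hr0 v
      have h8 := hr1 v
      have h9 : (Q : ℤ) * (((b : ℕ) * m i) % M - ((a : ℕ) * m i) % M) = v - u := by
        simp only [u, v]; ring
      rw [h9, abs_lt]
      rw [h2] at h3
      constructor <;> linarith
  rcases lt_or_gt_of_ne hab with h | h
  · exact key a b h hf
  · exact key b a h hf.symm

/-- the monomial with exponents `m` -/
def ev {G : Type} [CommGroup G] {L : ℕ} (γ : Fin L → G) (m : Fin L → ℤ) : G := ∏ i, γ i ^ m i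

theorem ev_add {G : Type} [CommGroup G] {L : ℕ} (γ : Fin L → G) (m p : Fin L → ℤ) :
    ev γ (m + p) = ev γ m * ev γ p := by
  unfold ev
  rw [← Finset.prod_mul_distrib]
  exact Finset.prod_congr rfl fun i _ => zpow_add _ _ _

theorem ev_smul {G : Type} [CommGroup G] {L : ℕ} (γ : Fin L → G) (a : ℤ) (m : Fin L → ℤ) :
    ev γ (a • m) = ev γ m ^ a := by
  unfold ev
  rw [← Finset.prod_zpow]
  exact Finset.prod_congr rfl fun i _ => by rw [Pi.smul_apply, smul_eq_mul, mul_comm, zpow_mul]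

theorem fin_comb {G : Type} [CommGroup G] {L : ℕ} (γ : Fin L → G) (a b : ℤ) (m p : Fin L → ℤ)
    (hm : IsOfFinOrder (ev γ m)) (hp : IsOfFinOrder (ev γ p)) :
    IsOfFinOrder (ev γ (a • m + b • p)) := by
  rw [ev_add, ev_smul, ev_smul]
  exact (hm.zpow).mul (hp.zpow)

theorem unit_bd {F : Type} [Field F] [NumberField F] {T : ℝ} (g : Fˣ) (d d' : ℕ)
    (hd : IntD d 1 (g : F)) (hd' : IntD d' 1 ((g : F)⁻¹))
    (hs : ∀ σ : F →ₐ[ℚ] ℂ, ‖σ (g : F)‖ ≤ T) (hs' : ∀ σ : F →ₐ[ℚ] ℂ, ‖σ ((g : F)⁻¹)‖ ≤ T) (hT : 1 ≤ T)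
    (M : ℕ) (e : ℤ) (he : |e| ≤ M) :
    IsIntegral ℤ ((((d * d' : ℕ) : F)) ^ M * (g : F) ^ e) ∧ ∀ σ : F →ₐ[ℚ] ℂ, ‖σ ((g : F) ^ e)‖ ≤ T ^ M := by
  have hg0 : (g : F) ≠ 0 := g.ne_zero
  unfold IntD at hd hd'
  rw [pow_one] at hd hd'
  obtain ⟨k, rfl | rfl⟩ := e.eq_nat_or_neg
  · have hk : k ≤ M := by
      rw [Nat.abs_cast] at he
      exact_mod_cast he
    constructor
    · have e1 : (((d * d' : ℕ) : F)) ^ M * (g : F) ^ ((k : ℕ) : ℤ) =
          ((d : F) * g) ^ k * ((d : F) ^ (M - k) * (d' : F) ^ M) := by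
        rw [zpow_natCast]
        push_cast
        obtain ⟨j, rfl⟩ := Nat.exists_eq_add_of_le hk
        rw [Nat.add_sub_cancel_left]
        ring
      rw [e1]
      exact (hd.pow k).mul (((isIntegral_natCast' d).pow _).mul ((isIntegral_natCast' d').pow _))
    · intro σ
      rw [zpow_natCast, map_pow, norm_pow]
      exact (pow_le_pow_left₀ (norm_nonneg _) (hs σ) k).trans (pow_le_pow_right₀ hT hk)
  · have hk : k ≤ M := by
      rw [abs_neg, Nat.abs_cast] at he
      exact_mod_cast he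
    constructor
    · have e1 : (((d * d' : ℕ) : F)) ^ M * (g : F) ^ (-((k : ℕ) : ℤ)) =
          ((d' : F) * (g : F)⁻¹) ^ k * ((d' : F) ^ (M - k) * (d : F) ^ M) := by
        rw [zpow_neg, zpow_natCast, ← inv_pow]
        push_cast
        obtain ⟨j, rfl⟩ := Nat.exists_eq_add_of_le hk
        rw [Nat.add_sub_cancel_left]
        ring
      rw [e1]
      exact (hd'.pow k).mul (((isIntegral_natCast' d').pow _).mul ((isIntegral_natCast' d).pow _))
    · intro σ
      rw [zpow_neg, zpow_natCast, ← inv_pow, map_pow, norm_pow]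
      exact (pow_le_pow_left₀ (norm_nonneg _) (hs' σ) k).trans (pow_le_pow_right₀ hT hk)

theorem small_rel (n L : ℕ) : ∃ c : ℝ, 1 < c ∧ ∀ (F : Type) [Field F] [NumberField F],
    Module.finrank ℚ F ≤ n → ∀ (γ : Fin L → Fˣ) (T : ℝ), (∀ i, Sz T (γ i : F)) →
    (∀ i, Sz T ((γ i : F)⁻¹)) → ∀ Q : ℕ, 2 ≤ Q → (T ^ (3 * L)) ^ n < c ^ Q →
    ∀ m : Fin L → ℤ, m ≠ 0 → IsOfFinOrder (ev γ m) →
    ∃ p : Fin L → ℤ, p ≠ 0 ∧ (∀ i, m i = 0 → p i = 0) ∧ (∀ i, |p i| ≤ (Q : ℤ) ^ L + 1) ∧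
      IsOfFinOrder (ev γ p) := by
  classical
  obtain ⟨c, hc, hgap⟩ := pow_gap n
  refine ⟨c, hc, fun F _ _ hF γ T sγ sγ' Q hQ hlt m hm htor => ?_⟩
  obtain ⟨i1, hi1⟩ : ∃ i, m i ≠ 0 := by
    by_contra h
    push Not at h
    exact hm (funext h)
  obtain ⟨i0, -, hi0⟩ := Finset.exists_max_image univ (fun i => |m i|) ⟨i1, mem_univ _⟩
  have hT : 1 ≤ T := (sγ i0).one_le
  obtain ⟨M, hMdef⟩ : ∃ M : ℕ, (M : ℤ) = |m i0| := ⟨(m i0).natAbs, by simp⟩
  have hM : 0 < M := by
    have h1 := hi0 i1 (mem_univ _)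
    have h2 : 0 < |m i1| := abs_pos.mpr hi1
    have h3 : (0 : ℤ) < M := by rw [hMdef]; linarith
    exact_mod_cast h3
  have hMm : ∀ i, |m i| ≤ M := fun i => by rw [hMdef]; exact hi0 i (mem_univ _)
  obtain ⟨q, p, k, hq0, hqQ, hpk⟩ := dirichlet Q hQ m M hM
  have hM' : (0 : ℤ) < M := by exact_mod_cast hM
  have hQ' : (2 : ℤ) ≤ Q := by exact_mod_cast hQ
  have hk : ∀ i, |k i| < M := by
    intro i
    have h1 := (hpk i).2
    rw [abs_mul, abs_of_pos (by linarith : (0 : ℤ) < Q)] at h1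
    have h2 := abs_nonneg (k i)
    nlinarith
  have hzero : ∀ i x, (M : ℤ) * x = -k i → x = 0 := by
    intro i x hx
    by_contra hx0
    have h1 := hk i
    have h2 : |(M : ℤ) * x| = |k i| := by rw [hx, abs_neg]
    rw [abs_mul, abs_of_pos hM'] at h2
    have h3 : 1 ≤ |x| := Int.one_le_abs hx0
    nlinarith
  refine ⟨p, ?_, ?_, ?_, ?_⟩
  · intro hp0
    have h1 := (hpk i0).1
    rw [hp0, Pi.zero_apply, mul_zero] at h1
    have h2 := hk i0
    have h3 : k i0 = q * m i0 := by linarith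
    rw [h3, abs_mul, ← hMdef, Nat.abs_cast] at h2
    have h4 : (1 : ℤ) ≤ q := by exact_mod_cast hq0
    nlinarith
  · intro i hi
    have h1 := (hpk i).1
    rw [hi, mul_zero, zero_sub] at h1
    exact hzero i _ h1
  · intro i
    have h1 := (hpk i).1
    have h2 : |(M : ℤ) * p i| ≤ M * (Q ^ L + 1) := by
      rw [h1]
      refine (abs_sub _ _).trans ?_
      rw [abs_mul, Nat.abs_cast]
      have h3 := hMm i
      have h4 := (hk i).le
      have h5 : (q : ℤ) ≤ Q ^ L := by exact_mod_cast hqQ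
      have h6 : (q : ℤ) * |m i| ≤ Q ^ L * M :=
        mul_le_mul h5 h3 (abs_nonneg _) (by positivity)
      linarith
    rw [abs_mul, abs_of_pos hM'] at h2
    exact le_of_mul_le_mul_left h2 hM'
  · -- the element is a root of unity
    by_contra hnot
    choose d hd1 hd2 hd3 hd4 using sγ
    choose d' hd1' hd2' hd3' hd4' using sγ'
    set x := ev γ p with hx
    have hx0 : (x : F) ≠ 0 := x.ne_zero
    have hxtor : ∀ j : ℕ, 0 < j → (x : F) ^ j ≠ 1 := by
      intro j hj h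
      apply hnot
      rw [isOfFinOrder_iff_pow_eq_one]
      refine ⟨j, hj, ?_⟩
      apply Units.ext
      rw [Units.val_pow_eq_pow_val, h, Units.val_one]
    -- the `M`-th power
    have hrel : x ^ (Q * M) = (ev γ m) ^ (Q * q) * ev γ (fun i => -((Q : ℤ) * k i)) := by
      rw [← zpow_natCast, ← zpow_natCast, hx, ← ev_smul, ← ev_smul, ← ev_add]
      congr 1
      funext i
      simp only [Pi.smul_apply, Pi.add_apply, smul_eq_mul]
      push_cast
      linear_combination (Q : ℤ) * (hpk i).1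
    set ζ := (ev γ m) ^ (Q * q) with hζ
    have hζtor : IsOfFinOrder ζ := htor.pow
    obtain ⟨kz, hkz, hζ1⟩ := isOfFinOrder_iff_pow_eq_one.mp hζtor
    have hζF : ((ζ : F)) ^ kz = 1 := by
      rw [← Units.val_pow_eq_pow_val, hζ1, Units.val_one]
    set D : ℕ := ∏ i, (d i * d' i) with hD
    have hD0 : 0 < D := Finset.prod_pos fun i _ => Nat.mul_pos (hd1 i) (hd1' i)
    have hub := fun i => unit_bd (T := T) (γ i) (d i) (d' i) (hd3 i) (hd3' i) (hd4 i) (hd4' i) hT M
      (-((Q : ℤ) * k i)) (by rw [abs_neg]; exact (hpk i).2.le)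
    have hprod : ((x : F) ^ Q) ^ M = (ζ : F) * ∏ i, (γ i : F) ^ (-((Q : ℤ) * k i)) := by
      rw [← pow_mul, ← Units.val_pow_eq_pow_val, hrel, Units.val_mul]
      congr 1
      unfold ev
      rw [Units.coe_prod]
      exact Finset.prod_congr rfl fun i _ => Units.val_zpow_eq_zpow_val _ _
    have hint : IntD D 1 ((x : F) ^ Q) := by
      unfold IntD
      rw [pow_one]
      apply IsIntegral.of_pow hM
      rw [mul_pow, hprod]
      have e1 : ((D : F)) ^ M * ((ζ : F) * ∏ i, (γ i : F) ^ (-((Q : ℤ) * k i))) =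
          (ζ : F) * ∏ i, ((((d i * d' i : ℕ) : F)) ^ M * (γ i : F) ^ (-((Q : ℤ) * k i))) := by
        rw [Finset.prod_mul_distrib, hD]
        push_cast
        rw [Finset.prod_pow]
        ring
      rw [e1]
      refine IsIntegral.mul ?_ (IsIntegral.prod _ fun i _ => (hub i).1)
      apply IsIntegral.of_pow hkz
      rw [hζF]
      exact isIntegral_one
    have hhouse : ∀ σ : F →ₐ[ℚ] ℂ, ‖σ ((x : F) ^ Q)‖ ≤ T ^ L := by
      intro σ
      have h1 : ‖σ ((x : F) ^ Q)‖ ^ M ≤ (T ^ L) ^ M := by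
        rw [← norm_pow, ← map_pow, hprod, map_mul, norm_mul, map_prod, norm_prod]
        have h2 : ‖σ (ζ : F)‖ = 1 := by
          have h3 : ‖σ (ζ : F)‖ ^ kz = 1 := by rw [← norm_pow, ← map_pow, hζF, map_one, norm_one]
          exact (pow_eq_one_iff_of_nonneg (norm_nonneg _) hkz.ne').mp h3
        rw [h2, one_mul]
        calc ∏ i, ‖σ ((γ i : F) ^ (-((Q : ℤ) * k i)))‖ ≤ ∏ _i : Fin L, T ^ M :=
              Finset.prod_le_prod (fun i _ => norm_nonneg _) fun i _ => (hub i).2 σ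
          _ = (T ^ L) ^ M := by
            rw [Finset.prod_const, Finset.card_univ, Fintype.card_fin, ← pow_mul, ← pow_mul, mul_comm]
      exact (pow_le_pow_iff_left₀ (norm_nonneg _) (by positivity) hM.ne').mp h1
    have h1 := hgap F hF (x : F) Q D (T ^ L) hD0 (one_le_pow₀ hT) hx0 hxtor hint hhouse
    have h2 : (D : ℝ) ≤ T ^ (2 * L) := by
      rw [hD]
      push_cast
      calc ∏ i, ((d i : ℝ) * d' i) ≤ ∏ _i : Fin L, T * T :=
            Finset.prod_le_prod (fun i _ => by positivity) fun i _ =>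
              mul_le_mul (hd2 i) (hd2' i) (Nat.cast_nonneg _) (by linarith)
        _ = T ^ (2 * L) := by
          rw [Finset.prod_const, Finset.card_univ, Fintype.card_fin, ← sq, ← pow_mul]
    have h3 : ((D : ℝ) * T ^ L) ^ n ≤ (T ^ (3 * L)) ^ n := by
      apply pow_le_pow_left₀ (by positivity)
      calc (D : ℝ) * T ^ L ≤ T ^ (2 * L) * T ^ L := mul_le_mul_of_nonneg_right h2 (by positivity)
        _ = T ^ (3 * L) := by rw [← pow_add]; congr 1; ring
    linarith

/-- **Relation principle.** -/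
theorem rel_principle {G : Type} [CommGroup G] {L : ℕ} (γ : Fin L → G) (P : ℤ)
    (hsm : ∀ m : Fin L → ℤ, m ≠ 0 → IsOfFinOrder (ev γ m) →
      ∃ p : Fin L → ℤ, p ≠ 0 ∧ (∀ i, m i = 0 → p i = 0) ∧ (∀ i, |p i| ≤ P) ∧ IsOfFinOrder (ev γ p))
    (f : (Fin L → ℤ) →+ ℝ) (hf : ∀ p, (∀ i, |p i| ≤ P) → IsOfFinOrder (ev γ p) → f p = 0) :
    ∀ m, IsOfFinOrder (ev γ m) → f m = 0 := by
  classical
  have key : ∀ (s : ℕ) (m : Fin L → ℤ), (univ.filter fun i => m i ≠ 0).card ≤ s →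
      IsOfFinOrder (ev γ m) → f m = 0 := by
    intro s
    induction s with
    | zero =>
      intro m hm _
      have : m = 0 := by
        funext i
        by_contra hi
        have : i ∈ (univ.filter fun i => m i ≠ 0) := by simpa using hi
        rw [Finset.card_eq_zero.mp (Nat.le_zero.mp hm)] at this
        exact absurd this (Finset.notMem_empty i)
      rw [this, map_zero]
    | succ s ih =>
      intro m hm htor
      by_cases hm0 : m = 0
      · rw [hm0, map_zero]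
      obtain ⟨p, hp0, hsupp, hpP, hptor⟩ := hsm m hm0 htor
      obtain ⟨i0, hi0⟩ : ∃ i, p i ≠ 0 := by
        by_contra h
        push Not at h
        exact hp0 (funext h)
      have hmi : m i0 ≠ 0 := fun h => hi0 (hsupp i0 h)
      have h1 := ih (p i0 • m + (-m i0) • p) (by
        have hsub : (univ.filter fun i => (p i0 • m + (-m i0) • p) i ≠ 0) ⊂
            (univ.filter fun i => m i ≠ 0) := by
          rw [Finset.ssubset_iff_of_subset]
          · refine ⟨i0, by simpa using hmi, ?_⟩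
            simp only [mem_filter, mem_univ, true_and, ne_eq, not_not, Pi.add_apply, Pi.smul_apply,
              smul_eq_mul]
            ring
          · intro i hi
            simp only [mem_filter, mem_univ, true_and, ne_eq, Pi.add_apply, Pi.smul_apply,
              smul_eq_mul] at hi ⊢
            intro h
            apply hi
            rw [h, hsupp i h]
            ring
        have := Finset.card_lt_card hsub
        omega) (fin_comb γ _ _ _ _ htor hptor)
      rw [map_add, map_zsmul, map_zsmul, hf p hpP hptor, smul_zero, add_zero, zsmul_eq_mul] at h1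
      rcases mul_eq_zero.mp h1 with h | h
      · exact absurd (by exact_mod_cast h) hi0
      · exact h
  intro m htor
  exact key _ m le_rfl htor

end Pool.Agent.H12
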