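import Pool.Agent.H12.QX

/-!
# Preparations for towers of exponentials
-/

set_option autoImplicit false

namespace Pool.Agent.H12

open Finset Module Pool.Agent.H301R2.TR Pool.Agent.Y928.QN

section poly

open Polynomial

/-- a polynomial with given exponents -/
noncomputable def sp {ι : Type} [Fintype ι] (g : ι → ℕ) (c : ι → ℤ) : ℤ[X] := ∑ i, C (c i) * X ^ g i

variable {ι : Type} [Fintype ι] (g : ι → ℕ) (c : ι → ℤ)

theorem sp_aeval (t : ℝ) : aeval t (sp g c) = ∑ i, (c i : ℝ) * t ^ g i := by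
  unfold sp
  rw [map_sum]
  exact Finset.sum_congr rfl fun i _ => by simp

theorem sp_natDegree (N : ℕ) (h : ∀ i, g i ≤ N) : (sp g c).natDegree ≤ N := by
  unfold sp
  apply natDegree_sum_le_of_forall_le
  intro i _
  exact (natDegree_C_mul_X_pow_le _ _).trans (h i)

theorem sp_coeff (k : ℕ) : (sp g c).coeff k = ∑ i, if k = g i then c i else 0 := by
  unfold sp
  rw [finsetSum_coeff]
  exact Finset.sum_congr rfl fun i _ => by rw [coeff_C_mul_X_pow]

theorem sp_coeff_le (k : ℕ) : |(sp g c).coeff k| ≤ ∑ i, |c i| := by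
  rw [sp_coeff]
  refine (Finset.abs_sum_le_sum_abs _ _).trans (Finset.sum_le_sum fun i _ => ?_)
  split_ifs
  · exact le_rfl
  · rw [abs_zero]; exact abs_nonneg _

theorem sp_ne_zero (hg : Function.Injective g) (hc : c ≠ 0) : sp g c ≠ 0 := by
  classical
  obtain ⟨i0, hi0⟩ : ∃ i, c i ≠ 0 := by
    by_contra h
    push Not at h
    exact hc (funext h)
  intro h
  have h1 := congrArg (fun p => p.coeff (g i0)) h
  simp only [coeff_zero] at h1
  rw [sp_coeff, Finset.sum_eq_single i0] at h1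
  · rw [if_pos rfl] at h1
    exact hi0 h1
  · intro j _ hj
    rw [if_neg]
    intro h2
    exact hj (hg h2).symm
  · intro h2
    exact absurd (mem_univ _) h2

/-- a measure up to degree `N` -/
def Meas (t : ℝ) (N : ℕ) (C : ℝ) : Prop := ∀ X : ℕ, 3 ≤ X → ∀ P : ℤ[X], P ≠ 0 → P.natDegree ≤ N →
  (∀ i, |P.coeff i| ≤ (X : ℤ)) → Real.exp (-(C * Real.log X ^ 7)) ≤ |aeval t P|

theorem Meas.ne_zero {t : ℝ} {N : ℕ} {C : ℝ} (h : Meas t N C) (P : ℤ[X]) (hP : P ≠ 0)
    (hdeg : P.natDegree ≤ N) : aeval t P ≠ 0 := by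
  classical
  have h1 := h (3 + ∑ i ∈ P.support, (P.coeff i).natAbs) (by omega) P hP hdeg (by
    intro i
    by_cases hi : i ∈ P.support
    · have h2 := Finset.single_le_sum (f := fun i => (P.coeff i).natAbs) (fun i _ => Nat.zero_le _) hi
      rw [Int.abs_eq_natAbs]
      exact_mod_cast (by omega : (P.coeff i).natAbs ≤ 3 + ∑ i ∈ P.support, (P.coeff i).natAbs)
    · rw [notMem_support_iff.mp hi, abs_zero]
      positivity)
  intro h2
  rw [h2, abs_zero] at h1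
  exact absurd h1 (not_le.mpr (Real.exp_pos _))

end poly

theorem log_diff {x y m : ℝ} (hm : 0 < m) (hx : m ≤ x) (hy : m ≤ y) :
    |Real.log x - Real.log y| ≤ |x - y| / m := by
  have key : ∀ x y : ℝ, m ≤ x → m ≤ y → Real.log x - Real.log y ≤ |x - y| / m := by
    intro x y hx hy
    have hx0 : 0 < x := by linarith
    have hy0 : 0 < y := by linarith
    rw [← Real.log_div hx0.ne' hy0.ne']
    have h1 := Real.log_le_sub_one_of_pos (div_pos hx0 hy0)
    have h2 : x / y - 1 = (x - y) / y := by field_simp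
    rw [h2] at h1
    refine h1.trans ?_
    calc (x - y) / y ≤ |x - y| / y := div_le_div_of_nonneg_right (le_abs_self _) hy0.le
      _ ≤ |x - y| / m := div_le_div_of_nonneg_left (abs_nonneg _) hm hy
  rw [abs_le]
  constructor
  · have := key y x hy hx
    rw [abs_sub_comm] at this
    linarith
  · exact key x y hx hy

theorem near_log {v M ε : ℝ} {α : ℂ} (hv : |v| ≤ M) (hε : ε ≤ Real.exp (-M) / 2)
    (h : ‖((Real.exp v : ℝ) : ℂ) - α‖ ≤ ε) :
    α ≠ 0 ∧ |v - Real.log ‖α‖| ≤ 2 * Real.exp M * ε := by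
  have he : Real.exp (-M) ≤ Real.exp v := Real.exp_le_exp.mpr (abs_le.mp hv).1
  have hp : 0 < Real.exp (-M) := Real.exp_pos _
  have h1 : |Real.exp v - ‖α‖| ≤ ε := by
    have h2 := abs_norm_sub_norm_le ((Real.exp v : ℝ) : ℂ) α
    rw [Complex.norm_real, Real.norm_of_nonneg (Real.exp_pos _).le] at h2
    exact h2.trans h
  have h2 := abs_le.mp h1
  have h3 : Real.exp (-M) / 2 ≤ ‖α‖ := by linarith
  refine ⟨fun h0 => ?_, ?_⟩
  · rw [h0, norm_zero] at h3
    linarith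
  · have h4 := log_diff (x := Real.exp v) (y := ‖α‖) (m := Real.exp (-M) / 2) (by linarith)
      (by linarith) h3
    rw [Real.log_exp] at h4
    refine h4.trans ?_
    rw [div_le_iff₀ (by linarith)]
    have h5 : 2 * Real.exp M * ε * (Real.exp (-M) / 2) = ε * (Real.exp M * Real.exp (-M)) := by ring
    rw [h5, ← Real.exp_add, add_neg_cancel, Real.exp_zero, mul_one]
    exact h1

theorem choose_Q (c : ℝ) (hc : 1 < c) (n : ℕ) : ∃ k' : ℕ, ∀ H : ℕ, 3 ≤ H → ∃ Q : ℕ, 2 ≤ Q ∧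
    (((H : ℝ) ^ 2) ^ (3 * (2 * 3))) ^ n < c ^ Q ∧ 6 * ((Q : ℤ) ^ (2 * 3) + 1) ≤ ((H ^ k' : ℕ) : ℤ) := by
  have hlc : 0 < Real.log c := Real.log_pos hc
  set c3 : ℝ := 36 * n / Real.log c + 2 with hc3
  have hc30 : 0 ≤ (36 * n / Real.log c : ℝ) := by positivity
  obtain ⟨k1, hk1⟩ := exists_nat_ge (6 * (c3 ^ 6 + 1))
  refine ⟨k1 + 6, fun H hH => ?_⟩
  have hH3 : (3 : ℝ) ≤ H := by exact_mod_cast hH
  have hH0 : (0 : ℝ) < H := by linarith
  have hL := one_le_logH hH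
  set u : ℝ := 36 * n / Real.log c * Real.log H with hu
  have hu0 : 0 ≤ u := by positivity
  refine ⟨⌊u⌋₊ + 2, by omega, ?_, ?_⟩
  · have h1 : u < (⌊u⌋₊ : ℝ) + 2 := by
      have := Nat.lt_floor_add_one u
      linarith
    have h2 : (36 * n : ℝ) * Real.log H < ((⌊u⌋₊ + 2 : ℕ) : ℝ) * Real.log c := by
      push_cast
      have h3 : (36 * n : ℝ) * Real.log H = u * Real.log c := by
        rw [hu]; field_simp
      rw [h3]
      exact mul_lt_mul_of_pos_right h1 hlc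
    have h3 : (((H : ℝ) ^ 2) ^ (3 * (2 * 3))) ^ n = Real.exp ((36 * n : ℝ) * Real.log H) := by
      rw [← pow_mul, ← pow_mul]
      have : (36 * n : ℝ) * Real.log H = ((2 * (3 * (2 * 3)) * n : ℕ) : ℝ) * Real.log H := by
        push_cast; ring
      rw [this, Real.exp_nat_mul, Real.exp_log hH0]
      congr 1
      ring
    have h4 : c ^ (⌊u⌋₊ + 2) = Real.exp (((⌊u⌋₊ + 2 : ℕ) : ℝ) * Real.log c) := by
      rw [Real.exp_nat_mul, Real.exp_log (by linarith)]
    rw [h3, h4]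
    exact Real.exp_lt_exp.mpr h2
  · have h1 : ((⌊u⌋₊ : ℝ) + 2) ≤ c3 * H := by
      have h2 : (⌊u⌋₊ : ℝ) ≤ u := Nat.floor_le hu0
      have h3 : Real.log H ≤ H := (Real.log_le_sub_one_of_pos hH0).trans (by linarith)
      have h4 : u ≤ 36 * n / Real.log c * H := mul_le_mul_of_nonneg_left h3 hc30
      rw [hc3, add_mul]
      linarith
    have h2 : (6 : ℝ) * (((⌊u⌋₊ : ℝ) + 2) ^ 6 + 1) ≤ (H : ℝ) ^ (k1 + 6) := by
      have h3 : ((⌊u⌋₊ : ℝ) + 2) ^ 6 ≤ (c3 * H) ^ 6 := pow_le_pow_left₀ (by positivity) h1 6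
      have h4 : (1 : ℝ) ≤ (H : ℝ) ^ 6 := one_le_pow₀ (by linarith)
      have h5 : (k1 : ℝ) ≤ (H : ℝ) ^ k1 := by
        have h6 : (k1 : ℝ) ≤ 2 ^ k1 := by exact_mod_cast (Nat.lt_two_pow_self (n := k1)).le
        exact h6.trans (pow_le_pow_left₀ (by norm_num) (by linarith) _)
      calc (6 : ℝ) * (((⌊u⌋₊ : ℝ) + 2) ^ 6 + 1) ≤ 6 * ((c3 * H) ^ 6 + (H : ℝ) ^ 6) := by linarith
        _ = 6 * (c3 ^ 6 + 1) * (H : ℝ) ^ 6 := by ring
        _ ≤ (H : ℝ) ^ k1 * (H : ℝ) ^ 6 := mul_le_mul_of_nonneg_right (hk1.trans h5) (by positivity)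
        _ = _ := by rw [← pow_add]
    have h3 : (2 * 3 : ℕ) = 6 := by norm_num
    rw [h3]
    exact_mod_cast h2

end Pool.Agent.H12
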