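import Pool.Agent.H12.QY

/-!
# Six exponentials `exp (l t ^ (e p + j r))`
-/

set_option autoImplicit false

namespace Pool.Agent.H12

open Finset Module Pool.Agent.H301R2.TR Pool.Agent.H335R2.Obs Pool.Agent.Y928.QN

/-- `x` is within `ε` of a number of degree at most `D` and height at most `H` -/
def NearT (D H : ℕ) (ε x : ℝ) : Prop := ∃ α : ℂ, AlgHt D H α ∧ ‖(x : ℂ) - α‖ ≤ ε

/-- the small relations are exact -/
theorem small_exact (N : ℕ) (t B : ℝ) (hB : 1 ≤ B) (C7 : ℝ) (hC7 : 0 < C7)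
    (hM : Meas t N C7) (M : ℝ) (k' : ℕ) : ∃ C : ℝ, 0 < C ∧ ∀ H : ℕ, 3 ≤ H →
    Real.exp (-(C * Real.log H ^ 11)) ≤ Real.exp (-M) / 2 ∧
    ∀ (l : ℝ), 1 / B ≤ |l| → ∀ (g : Fin (2 * 3) → ℕ), (∀ i, g i ≤ N) →
      (∀ i, |l * t ^ g i| ≤ M) → ∀ (w : Fin (2 * 3) → ℂ),
      (∀ i, ‖((Real.exp (l * t ^ g i) : ℝ) : ℂ) - w i‖ ≤ Real.exp (-(C * Real.log H ^ 11))) →
      ∀ (p : Fin (2 * 3) → ℤ) (P : ℤ), (∀ i, |p i| ≤ P) → 6 * P ≤ ((H ^ k' : ℕ) : ℤ) →
      ∑ i, (p i : ℝ) * Real.log ‖w i‖ = 0 → ∑ i, (p i : ℝ) * (l * t ^ g i) = 0 := by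
  set K : ℝ := 4 * B * Real.exp M with hK
  have hK0 : 0 < K := by positivity
  set C0 : ℝ := C7 * (k' + 1 : ℕ) ^ 7 with hC0
  have hC00 : 0 < C0 := by positivity
  set CA : ℝ := C0 + |Real.log K| with hCA
  set CB : ℝ := 0 + |Real.log (2 * Real.exp M)| with hCB
  have hCA0 : 0 < CA := by positivity
  have hCB0 : 0 ≤ CB := by positivity
  refine ⟨CA + CB + k' + 1, by positivity, fun H hH => ?_⟩
  set C := CA + CB + k' + 1 with hC
  have hL := one_le_logH hH
  have hH3 : (3 : ℝ) ≤ H := by exact_mod_cast hH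
  have hH0 : (0 : ℝ) < H := by linarith
  set ε := Real.exp (-(C * Real.log H ^ 11)) with hε
  have hε0 : 0 < ε := Real.exp_pos _
  have hεM : ε ≤ Real.exp (-M) / 2 := by
    have h1 := absorb 0 (2 * Real.exp M) C (by positivity) le_rfl 0 11 (by norm_num)
      (by rw [← hCB, hC]; linarith [Nat.cast_nonneg (α := ℝ) k']) hH
    rw [zero_mul, neg_zero, Real.exp_zero] at h1
    rw [Real.exp_neg, le_div_iff₀ (by norm_num), ← one_div, le_div_iff₀ (Real.exp_pos M)]
    linarith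
  refine ⟨hεM, fun l hl g hg hb w hw p P hp hP hlog => ?_⟩
  have hfl := fun i => (near_log (hb i) hεM (hw i)).2
  by_cases hQ : sp g p = 0
  · have h1 := sp_aeval g p t
    rw [hQ, map_zero] at h1
    have h2 : ∑ i, (p i : ℝ) * (l * t ^ g i) = l * ∑ i, (p i : ℝ) * t ^ g i := by
      rw [Finset.mul_sum]
      exact Finset.sum_congr rfl fun i _ => by ring
    rw [h2, ← h1, mul_zero]
  · exfalso
    have hP0 : 0 ≤ P := (abs_nonneg _).trans (hp 0)
    have hHk : (H : ℕ) ^ k' ≤ H ^ (k' + 1) := Nat.pow_le_pow_right (by omega) (by omega)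
    have h3 : 3 ≤ H ^ (k' + 1) := by
      calc 3 ≤ H := hH
        _ = H ^ 1 := (pow_one H).symm
        _ ≤ _ := Nat.pow_le_pow_right (by omega) (by omega)
    have h1 := hM (H ^ (k' + 1)) h3 (sp g p) hQ (sp_natDegree g p N hg) (by
      intro i
      refine (sp_coeff_le g p i).trans ?_
      calc ∑ i, |p i| ≤ ∑ _i : Fin (2 * 3), P := Finset.sum_le_sum fun i _ => hp i
        _ = 6 * P := by simp
        _ ≤ ((H ^ k' : ℕ) : ℤ) := hP
        _ ≤ _ := by exact_mod_cast hHk)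
    rw [sp_aeval] at h1
    have h4 : Real.log ((H ^ (k' + 1) : ℕ) : ℝ) = ((k' + 1 : ℕ) : ℝ) * Real.log H := by
      push_cast
      rw [Real.log_pow]
      push_cast
      ring
    rw [h4, mul_pow, ← mul_assoc, ← hC0] at h1
    -- upper bound
    have h5 : l * ∑ i, (p i : ℝ) * t ^ g i =
        ∑ i, (p i : ℝ) * (l * t ^ g i - Real.log ‖w i‖) := by
      have e1 : ∑ i, (p i : ℝ) * (l * t ^ g i - Real.log ‖w i‖) =
          ∑ i, (p i : ℝ) * (l * t ^ g i) - ∑ i, (p i : ℝ) * Real.log ‖w i‖ := by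
        rw [← Finset.sum_sub_distrib]
        exact Finset.sum_congr rfl fun i _ => by ring
      rw [e1, hlog, sub_zero, Finset.mul_sum]
      exact Finset.sum_congr rfl fun i _ => by ring
    have h6 : |l| * |∑ i, (p i : ℝ) * t ^ g i| ≤ 6 * (P : ℝ) * (2 * Real.exp M * ε) := by
      rw [← abs_mul, h5]
      refine (Finset.abs_sum_le_sum_abs _ _).trans ?_
      calc ∑ i, |(p i : ℝ) * (l * t ^ g i - Real.log ‖w i‖)| ≤
            ∑ _i : Fin (2 * 3), (P : ℝ) * (2 * Real.exp M * ε) := by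
            apply Finset.sum_le_sum
            intro i _
            rw [abs_mul]
            refine mul_le_mul ?_ (hfl i) (abs_nonneg _) (by exact_mod_cast hP0)
            exact_mod_cast hp i
        _ = 6 * (P : ℝ) * (2 * Real.exp M * ε) := by
          rw [Finset.sum_const, Finset.card_univ, Fintype.card_fin, nsmul_eq_mul]
          push_cast
          ring
    have h7 : (6 : ℝ) * P ≤ (H : ℝ) ^ k' := by exact_mod_cast hP
    have hB0 : 0 < B := by linarith
    have h8 : |∑ i, (p i : ℝ) * t ^ g i| ≤ B * ((H : ℝ) ^ k' * (2 * Real.exp M * ε)) := by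
      have h9 := abs_nonneg (∑ i, (p i : ℝ) * t ^ g i)
      have h10 : 1 / B * |∑ i, (p i : ℝ) * t ^ g i| ≤ (H : ℝ) ^ k' * (2 * Real.exp M * ε) :=
        (mul_le_mul_of_nonneg_right hl h9).trans (h6.trans
          (mul_le_mul_of_nonneg_right h7 (by positivity)))
      rwa [one_div, inv_mul_le_iff₀ hB0] at h10
    have h11 := absorb C0 K (C - k') hK0 hC00.le 7 11 (by norm_num)
      (by rw [← hCA, hC]; linarith) hH
    have h12 : (H : ℝ) ^ k' * ε ≤ Real.exp (-((C - k') * Real.log H ^ 11)) := by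
      rw [hε, ← Real.exp_log (pow_pos hH0 k'), ← Real.exp_add, Real.log_pow]
      apply Real.exp_le_exp.mpr
      have h13 : Real.log H ≤ Real.log H ^ 11 := le_self_pow₀ hL (by norm_num)
      have h14 : (k' : ℝ) * Real.log H ≤ k' * Real.log H ^ 11 :=
        mul_le_mul_of_nonneg_left h13 (Nat.cast_nonneg _)
      nlinarith
    have h15 : K * ((H : ℝ) ^ k' * ε) ≤ Real.exp (-(C0 * Real.log H ^ 7)) :=
      (mul_le_mul_of_nonneg_left h12 hK0.le).trans h11
    have h16 : 0 < B * ((H : ℝ) ^ k' * (2 * Real.exp M * ε)) := by positivity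
    have h17 : K * ((H : ℝ) ^ k' * ε) = 2 * (B * ((H : ℝ) ^ k' * (2 * Real.exp M * ε))) := by
      rw [hK]; ring
    rw [h17] at h15
    linarith

theorem six_core (D N : ℕ) (t B : ℝ) (ht : 0 < t) (hB : 1 ≤ B) (C7 : ℝ) (hC7 : 0 < C7)
    (hM : Meas t N C7) : ∃ C : ℝ, 0 < C ∧ ∀ H : ℕ, 3 ≤ H → ∀ l : ℝ, 1 / B ≤ |l| → |l| ≤ B →
    ∀ (e : Fin 3 → ℕ) (r : ℕ), Function.Injective e → 1 ≤ r → (∀ p, e p + r ≤ N) →
    (∀ (j : Fin 2) (p : Fin 3),
      NearT D H (Real.exp (-(C * Real.log H ^ 11))) (Real.exp (l * t ^ (e p + j * r)))) → False := by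
  classical
  set M : ℝ := B * (1 + t) ^ N with hMdef
  have ht1 : 1 ≤ 1 + t := by linarith
  have hM1 : 1 ≤ M := one_le_mul_of_one_le_of_one_le hB (one_le_pow₀ ht1)
  have htj : ∀ j ≤ N, t ^ j ≤ (1 + t) ^ N := fun j hj =>
    (pow_le_pow_left₀ ht.le (by linarith) j).trans (pow_le_pow_right₀ ht1 hj)
  obtain ⟨C1, hC1, hmain⟩ := QTH (w := 0) (b := 2) (l := 3) (r := 1) ∅ 10 6 4 (D ^ (2 * 3)) 2 M hM1
    (by norm_num) (by norm_num) (by simp)
  obtain ⟨c, hc, hrel⟩ := small_rel (D ^ (2 * 3)) (2 * 3)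
  obtain ⟨k', hk'⟩ := choose_Q c hc (D ^ (2 * 3))
  obtain ⟨C2, hC2, hex⟩ := small_exact N t B hB C7 hC7 hM M k'
  refine ⟨C1 + C2, by positivity, fun H hH l hl hlB e r he hr heN hnear => ?_⟩
  have hL := one_le_logH hH
  have hH3 : (3 : ℝ) ≤ H := by exact_mod_cast hH
  have hH1 : (1 : ℝ) ≤ H := by linarith
  have hL11 : 0 ≤ Real.log H ^ 11 := by positivity
  set ε := Real.exp (-((C1 + C2) * Real.log H ^ 11)) with hε
  have hε1 : ε ≤ Real.exp (-(C1 * Real.log H ^ 11)) := by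
    apply Real.exp_le_exp.mpr
    nlinarith [mul_nonneg hC2.le hL11]
  have hε2 : ε ≤ Real.exp (-(C2 * Real.log H ^ 11)) := by
    apply Real.exp_le_exp.mpr
    nlinarith [mul_nonneg hC1.le hL11]
  obtain ⟨hεM, hex'⟩ := hex H hH
  -- indices
  set idx : Fin (2 * 3) ≃ Fin 2 × Fin 3 := finProdFinEquiv.symm with hidx
  choose α hα1 hα2 using hnear
  set g : Fin (2 * 3) → ℕ := fun i => e (idx i).2 + ((idx i).1 : ℕ) * r with hg
  have hgN : ∀ i, g i ≤ N := by
    intro i
    have h1 := heN (idx i).2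
    have h2 : ((idx i).1 : ℕ) * r ≤ 1 * r := Nat.mul_le_mul_right _ (by omega)
    simp only [hg]
    omega
  have hbd : ∀ i, |l * t ^ g i| ≤ M := by
    intro i
    rw [abs_mul, abs_of_pos (pow_pos ht _)]
    exact mul_le_mul hlB (htj _ (hgN i)) (pow_pos ht _).le (by linarith)
  have hw : ∀ i : Fin (2 * 3), ‖((Real.exp (l * t ^ g i) : ℝ) : ℂ) - α (idx i).1 (idx i).2‖ ≤ ε :=
    fun i => hα2 _ _
  have hα0 : ∀ i : Fin (2 * 3), α (idx i).1 (idx i).2 ≠ 0 := fun i =>
    (near_log (hbd i) hεM ((hw i).trans hε2)).1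
  have hα0' : ∀ j p, α j p ≠ 0 := by
    intro j p
    have := hα0 (idx.symm (j, p))
    rwa [Equiv.apply_symm_apply] at this
  -- the field
  obtain ⟨F, _, _, φ, hDg, hφ⟩ := exists_field_fam D (2 * 3) (fun i => α (idx i).1 (idx i).2)
    (fun i => ⟨H, hα1 _ _⟩)
  choose w hwφ using hφ
  have hw0 : ∀ i, w i ≠ 0 := by
    intro i h
    apply hα0 i
    rw [← hwφ i, h, map_zero]
  set γ : Fin (2 * 3) → Fˣ := fun i => Units.mk0 (w i) (hw0 i) with hγ
  have hγv : ∀ i, ((γ i : Fˣ) : F) = w i := fun i => rfl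
  have hsz : ∀ i, Sz ((H : ℝ) ^ 2) (w i) := fun i =>
    ((hα1 _ _).sz φ (w i) (hwφ i)).mono (succ_le_sq hH)
  have hsz' : ∀ i, Sz ((H : ℝ) ^ 2) ((w i)⁻¹) := fun i =>
    (((hα1 _ _).inv (hα0 i)).sz φ (w i)⁻¹ (by rw [map_inv₀, hwφ i])).mono (succ_le_sq hH)
  -- the obstruction
  obtain ⟨Af, Rm, G0, h1, h2, h3⟩ := hmain H hH F φ hDg
    (fun i _ => i.elim0) (fun i _ => i.elim0) (fun j p => w (idx.symm (j, p)))
    (fun _ j => (t : ℂ) ^ ((j : ℕ) * r)) (fun _ p => (l : ℂ) * (t : ℂ) ^ e p) (fun i _ => i.elim0)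
    (fun i => i.elim0) (fun i => i.elim0) (fun j p => hsz _)
    (by
      intro ρ j
      rw [norm_pow, Complex.norm_real, Real.norm_of_nonneg ht.le]
      have h4 := heN 0
      have h5 : (j : ℕ) * r ≤ 1 * r := Nat.mul_le_mul_right _ (by omega)
      refine (htj _ (by omega)).trans ?_
      exact le_mul_of_one_le_left (by positivity) hB)
    (by
      intro ρ p
      rw [norm_mul, norm_pow, Complex.norm_real, Complex.norm_real, Real.norm_of_nonneg ht.le,
        Real.norm_eq_abs]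
      have h4 := heN p
      exact mul_le_mul hlB (htj _ (by omega)) (by positivity) (by linarith))
    (fun i => i.elim0) (fun i => i.elim0) (fun i => i.elim0)
    (by
      intro j p
      rw [hwφ, Equiv.apply_symm_apply]
      simp only [Finset.univ_eq_empty, Finset.sum_empty, add_zero, Fin.sum_univ_one]
      have e1 : (t : ℂ) ^ ((j : ℕ) * r) * ((l : ℂ) * (t : ℂ) ^ e p) =
          ((l * t ^ (e p + (j : ℕ) * r) : ℝ) : ℂ) := by
        push_cast
        rw [pow_add]
        ring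
      rw [e1, ← Complex.ofReal_exp, norm_sub_rev]
      exact (hα2 j p).trans hε1)
    (by
      intro j p
      rw [hwφ, Equiv.apply_symm_apply]
      exact hα0' j p)
  have h4 := h3 (kSpan ℂ Rm) (fun m hm _ => hm)
  rw [finrank_kSpan] at h4
  have h5 : finrank ℤ Rm ≤ 2 := by
    have := finrank_le_card Rm univ (by
      intro s _ hs
      funext i
      exact hs i (mem_univ i))
    simpa using this
  have h6 : 1 ≤ finrank ℤ Rm := by omega
  have h7 : 1 ≤ finrank ℤ G0 := by omega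
  obtain ⟨m, hm, hm0⟩ := exists_ne_zero_of_finrank Rm h6
  obtain ⟨s, hs, hs0⟩ := exists_ne_zero_of_finrank G0 h7
  have h8 := ((h2 s).mp hs).2 m hm
  -- the relation
  set n : Fin (2 * 3) → ℤ := fun i => m (idx i).1 * s (idx i).2 with hn
  have hφγ : ∀ q : Fin (2 * 3) → ℤ, φ ((ev γ q : Fˣ) : F) =
      ∏ i, (α (idx i).1 (idx i).2) ^ q i := by
    intro q
    unfold ev
    rw [Units.coe_prod, map_prod]
    exact Finset.prod_congr rfl fun i _ => by
      rw [Units.val_zpow_eq_zpow_val, map_zpow₀, hγv, hwφ]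
  have h9 : ev γ n = 1 := by
    apply Units.ext
    rw [Units.val_one]
    apply (φ : F →+* ℂ).injective
    change φ ((ev γ n : Fˣ) : F) = φ 1
    rw [hφγ, map_one, ← h8]
    rw [← Equiv.prod_comp idx.symm, Fintype.prod_prod_type]
    apply Finset.prod_congr rfl
    intro j _
    rw [← Finset.prod_zpow]
    apply Finset.prod_congr rfl
    intro p _
    rw [hwφ, hn]
    simp only [Equiv.apply_symm_apply]
    rw [mul_comm, zpow_mul]
  -- the additive map
  let f : (Fin (2 * 3) → ℤ) →+ ℝ :=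
    { toFun := fun q => ∑ i, (q i : ℝ) * (l * t ^ g i)
      map_zero' := by simp
      map_add' := by
        intro x y
        rw [← Finset.sum_add_distrib]
        exact Finset.sum_congr rfl fun i _ => by rw [Pi.add_apply]; push_cast; ring }
  obtain ⟨Q, hQ2, hQc, hQP⟩ := hk' H hH
  have hf := rel_principle γ ((Q : ℤ) ^ (2 * 3) + 1)
    (fun q hq hqt => hrel F hDg γ ((H : ℝ) ^ 2) hsz hsz' Q hQ2 hQc q hq hqt) f
    (by
      intro q hq hqt
      refine hex' l hl g hgN hbd (fun i => α (idx i).1 (idx i).2) (fun i => (hw i).trans hε2) q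
        ((Q : ℤ) ^ (2 * 3) + 1) hq hQP ?_
      obtain ⟨k, hk, hk1⟩ := isOfFinOrder_iff_pow_eq_one.mp hqt
      have e1 : ‖∏ i, (α (idx i).1 (idx i).2) ^ q i‖ = 1 := by
        have e2 : (∏ i, (α (idx i).1 (idx i).2) ^ q i) ^ k = 1 := by
          rw [← hφγ, ← map_pow, ← Units.val_pow_eq_pow_val, hk1, Units.val_one, map_one]
        have e3 : ‖∏ i, (α (idx i).1 (idx i).2) ^ q i‖ ^ k = 1 := by
          rw [← norm_pow, e2, norm_one]
        exact (pow_eq_one_iff_of_nonneg (norm_nonneg _) hk.ne').mp e3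
      have e4 := congrArg Real.log e1
      rw [Real.log_one, norm_prod, Real.log_prod (fun i _ => by
        rw [norm_zpow]
        exact zpow_ne_zero _ (norm_ne_zero_iff.mpr (hα0 i)))] at e4
      rw [← e4]
      exact Finset.sum_congr rfl fun i _ => by rw [norm_zpow, Real.log_zpow]) n
    (by rw [h9]; exact IsOfFinOrder.one)
  -- conclusion
  have h10 : (∑ j : Fin 2, (m j : ℝ) * t ^ ((j : ℕ) * r)) * (∑ p : Fin 3, (s p : ℝ) * t ^ e p) = 0 := by
    have h11 : f n = l * ((∑ j : Fin 2, (m j : ℝ) * t ^ ((j : ℕ) * r)) *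
        (∑ p : Fin 3, (s p : ℝ) * t ^ e p)) := by
      change ∑ i, (n i : ℝ) * (l * t ^ g i) = _
      rw [← Equiv.sum_comp idx.symm, Fintype.sum_prod_type, Finset.sum_mul, Finset.mul_sum]
      apply Finset.sum_congr rfl
      intro j _
      rw [Finset.mul_sum, Finset.mul_sum]
      apply Finset.sum_congr rfl
      intro p _
      simp only [hn, hg, Equiv.apply_symm_apply]
      push_cast
      rw [pow_add]
      ring
    rw [h11] at hf
    rcases mul_eq_zero.mp hf with h | h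
    · exfalso
      rw [h, abs_zero] at hl
      have : 0 < 1 / B := by positivity
      linarith
    · exact h
  rcases mul_eq_zero.mp h10 with h | h
  · have h12 := sp_aeval (fun j : Fin 2 => (j : ℕ) * r) m t
    rw [h] at h12
    refine hM.ne_zero _ (sp_ne_zero _ m (fun a b hab => ?_) hm0) (sp_natDegree _ m N fun j => ?_) h12
    · apply Fin.ext
      exact Nat.eq_of_mul_eq_mul_right (by omega) hab
    · have h13 := heN 0
      have h5 : (j : ℕ) * r ≤ 1 * r := Nat.mul_le_mul_right _ (by omega)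
      omega
  · have h12 := sp_aeval e s t
    rw [h] at h12
    exact hM.ne_zero _ (sp_ne_zero _ s he hs0) (sp_natDegree _ s N fun p => by
      have := heN p
      omega) h12

end Pool.Agent.H12
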