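import Pool.Agent.H12.QP

/-!
# Factorization of matrices of small rank
-/

set_option autoImplicit false

namespace Pool.Agent.H12

open Module

theorem fact {b l r : ℕ} (A : Matrix (Fin b) (Fin l) ℂ) (hr : A.rank ≤ r) (B : ℝ) (hB : 0 ≤ B)
    (hA : ∀ j p, ‖A j p‖ ≤ B) :
    ∃ (x : Fin r → Fin b → ℂ) (y : Fin r → Fin l → ℂ), (∀ j p, A j p = ∑ ρ, x ρ j * y ρ p) ∧
      (∀ ρ j, ‖x ρ j‖ ≤ l * B) ∧ (∀ ρ p, ‖y ρ p‖ ≤ 1) := by
  classical
  let row : Fin b → EuclideanSpace ℂ (Fin l) := fun j => WithLp.toLp 2 (A j)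
  let V : Submodule ℂ (EuclideanSpace ℂ (Fin l)) := Submodule.span ℂ (Set.range row)
  have hk : finrank ℂ V = A.rank := by
    rw [Matrix.rank_eq_finrank_span_row]
    have h1 : V = (Submodule.span ℂ (Set.range A.row)).map
        ((WithLp.linearEquiv 2 ℂ (Fin l → ℂ)).symm : (Fin l → ℂ) →ₗ[ℂ] EuclideanSpace ℂ (Fin l)) := by
      rw [Submodule.map_span, ← Set.range_comp]
      rfl
    rw [h1]
    exact LinearEquiv.finrank_map_eq (WithLp.linearEquiv 2 ℂ (Fin l → ℂ)).symm _
  let e := stdOrthonormalBasis ℂ V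
  let rv : Fin b → V := fun j => ⟨row j, Submodule.subset_span ⟨j, rfl⟩⟩
  have hrow : ∀ j, ‖row j‖ ≤ l * B := by
    intro j
    have h0 : 0 ≤ (l : ℝ) * B := by positivity
    rw [EuclideanSpace.norm_eq]
    apply Real.sqrt_le_iff.mpr
    refine ⟨h0, ?_⟩
    calc ∑ i, ‖(row j).ofLp i‖ ^ 2 ≤ ∑ _i : Fin l, B ^ 2 :=
          Finset.sum_le_sum fun i _ => pow_le_pow_left₀ (norm_nonneg _) (hA j i) 2
      _ = l * B ^ 2 := by rw [Finset.sum_const, Finset.card_univ, Fintype.card_fin, nsmul_eq_mul]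
      _ ≤ (l * B) ^ 2 := by
        rw [mul_pow]
        apply mul_le_mul_of_nonneg_right _ (sq_nonneg _)
        rcases Nat.eq_zero_or_pos l with h | h
        · rw [h]; norm_num
        · have : (1 : ℝ) ≤ l := by exact_mod_cast h
          nlinarith
  let k := finrank ℂ V
  have hkr : k ≤ r := by
    change finrank ℂ V ≤ r
    rw [hk]; exact hr
  refine ⟨fun ρ j => if h : ρ.1 < k then inner ℂ (e ⟨ρ.1, h⟩ : EuclideanSpace ℂ (Fin l)) (row j) else 0,
    fun ρ p => if h : ρ.1 < k then ((e ⟨ρ.1, h⟩ : V) : EuclideanSpace ℂ (Fin l)).ofLp p else 0,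
    fun j p => ?_, fun ρ j => ?_, fun ρ p => ?_⟩
  · have h1 := e.sum_repr' (rv j)
    have h2 := congrArg (fun v : V => (v : EuclideanSpace ℂ (Fin l)).ofLp p) h1
    simp only at h2
    have h3 : ((rv j : V) : EuclideanSpace ℂ (Fin l)).ofLp p = A j p := rfl
    rw [h3] at h2
    rw [← h2]
    rw [Submodule.coe_sum]
    have h4 : (∑ i, ((inner ℂ (e i) (rv j) • e i : V) : EuclideanSpace ℂ (Fin l))).ofLp p =
        ∑ i : Fin k, inner ℂ (e i : EuclideanSpace ℂ (Fin l)) (row j) *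
          ((e i : V) : EuclideanSpace ℂ (Fin l)).ofLp p := by
      rw [WithLp.ofLp_sum, Finset.sum_apply]
      rfl
    rw [h4]
    -- padding
    let F : ℕ → ℂ := fun n => if h : n < k then
      inner ℂ (e ⟨n, h⟩ : EuclideanSpace ℂ (Fin l)) (row j) *
        ((e ⟨n, h⟩ : V) : EuclideanSpace ℂ (Fin l)).ofLp p else 0
    have h5 : ∑ i : Fin k, inner ℂ (e i : EuclideanSpace ℂ (Fin l)) (row j) *
          ((e i : V) : EuclideanSpace ℂ (Fin l)).ofLp p = ∑ n ∈ Finset.range k, F n := by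
      rw [← Fin.sum_univ_eq_sum_range]
      apply Finset.sum_congr rfl
      intro i _
      simp only [F]
      rw [dif_pos i.2]
    have h6 : ∑ n ∈ Finset.range k, F n = ∑ n ∈ Finset.range r, F n := by
      apply Finset.sum_subset
      · intro n hn
        rw [Finset.mem_range] at hn ⊢
        omega
      · intro n _ hn
        rw [Finset.mem_range] at hn
        simp only [F]
        rw [dif_neg hn]
    rw [h5, h6, ← Fin.sum_univ_eq_sum_range]
    apply Finset.sum_congr rfl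
    intro i _
    simp only [F]
    split_ifs with h
    · rfl
    · rw [mul_zero]
  · simp only
    split_ifs with h
    · have h1 : ‖((e ⟨ρ.1, h⟩ : V) : EuclideanSpace ℂ (Fin l))‖ = 1 := e.norm_eq_one _
      refine (norm_inner_le_norm _ _).trans ?_
      rw [h1, one_mul]
      exact hrow j
    · rw [norm_zero]; positivity
  · simp only
    split_ifs with h
    · have h1 : ‖((e ⟨ρ.1, h⟩ : V) : EuclideanSpace ℂ (Fin l))‖ = 1 := e.norm_eq_one _
      rw [← h1]
      exact PiLp.norm_apply_le _ p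
    · rw [norm_zero]; exact zero_le_one

end Pool.Agent.H12
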