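import Pool.Agent.H12.RA
import Pool.Agent.H12.QF

/-!
# Matrices of logarithms are far from matrices of small rank
-/

set_option autoImplicit false

namespace Pool.Agent.H12

open Finset Module Pool.Agent.H301R2.TR Pool.Agent.H335R2.Obs Pool.Agent.Y928.QN

theorem exp_near {z w : ℂ} {B ε : ℝ} (hz : ‖z‖ ≤ B) (hε : ε ≤ 1) (h : ‖z - w‖ ≤ ε) :
    ‖Complex.exp z - Complex.exp w‖ ≤ 2 * Real.exp B * ε := by
  have h1 : Complex.exp z - Complex.exp w = -(Complex.exp z * (Complex.exp (w - z) - 1)) := by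
    rw [mul_sub, ← Complex.exp_add, mul_one]
    have : z + (w - z) = w := by ring
    rw [this]; ring
  have h2 : ‖w - z‖ ≤ ε := by rw [norm_sub_rev]; exact h
  have h3 : ‖Complex.exp (w - z) - 1‖ ≤ 2 * ‖w - z‖ := Complex.norm_exp_sub_one_le (h2.trans hε)
  have h4 : ‖Complex.exp z‖ ≤ Real.exp B := by
    rw [Complex.norm_exp]
    exact Real.exp_le_exp.mpr ((Complex.re_le_norm z).trans hz)
  rw [h1, norm_neg, norm_mul]
  calc ‖Complex.exp z‖ * ‖Complex.exp (w - z) - 1‖ ≤ Real.exp B * (2 * ε) :=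
        mul_le_mul h4 (h3.trans (by linarith)) (norm_nonneg _) (Real.exp_pos _).le
    _ = _ := by ring

/-- products of elements of two lattices which are in a lattice of rank one -/
theorem rank_one {b l : ℕ} (t : Fin b → Fin l → ℂ)
    (hind : ∀ n : Fin b → Fin l → ℤ, ∑ j, ∑ p, (n j p : ℂ) * t j p = 0 → n = 0) (w : ℂ)
    (R : AddSubgroup (Fin b → ℤ)) (s : Fin l → ℤ) (hs : s ≠ 0)
    (h : ∀ m ∈ R, ∃ k : ℤ, ∑ j, ∑ p, ((m j * s p : ℤ) : ℂ) * t j p = k * w) :
    finrank ℤ R ≤ 1 := by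
  classical
  obtain ⟨p0, hp0⟩ : ∃ p, s p ≠ 0 := by
    by_contra h
    push Not at h
    exact hs (funext h)
  by_cases hR : ∀ m ∈ R, m = 0
  · have h1 := finrank_le_card R ∅ (fun m hm _ => hR m hm)
    rw [Finset.card_empty] at h1
    omega
  push Not at hR
  obtain ⟨m0, hm0, hm00⟩ := hR
  obtain ⟨i0, hi0⟩ : ∃ i, m0 i ≠ 0 := by
    by_contra h
    push Not at h
    exact hm00 (funext h)
  obtain ⟨k0, hk0⟩ := h m0 hm0
  have hzero : ∀ m : Fin b → ℤ, ∑ j, ∑ p, ((m j * s p : ℤ) : ℂ) * t j p = 0 → m = 0 := by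
    intro m hm
    have h1 := hind (fun j p => m j * s p) hm
    funext j
    have h2 := congrFun (congrFun h1 j) p0
    simp only [Pi.zero_apply] at h2
    exact (mul_eq_zero.mp h2).resolve_right hp0
  have h1 := finrank_le_card R {i0} (fun m hm hmi => by
    obtain ⟨k, hk⟩ := h m hm
    have hmi' : m i0 = 0 := hmi i0 (Finset.mem_singleton_self _)
    have h2 : k • m0 - k0 • m = 0 := by
      apply hzero
      have h3 : ∑ j, ∑ p, (((k • m0 - k0 • m) j * s p : ℤ) : ℂ) * t j p =
          k * ∑ j, ∑ p, ((m0 j * s p : ℤ) : ℂ) * t j p -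
          k0 * ∑ j, ∑ p, ((m j * s p : ℤ) : ℂ) * t j p := by
        rw [Finset.mul_sum, Finset.mul_sum, ← Finset.sum_sub_distrib]
        apply Finset.sum_congr rfl
        intro j _
        rw [Finset.mul_sum, Finset.mul_sum, ← Finset.sum_sub_distrib]
        apply Finset.sum_congr rfl
        intro p _
        simp only [Pi.sub_apply, Pi.smul_apply, smul_eq_mul]
        push_cast
        ring
      rw [h3, hk, hk0]
      ring
    have h3 := congrFun h2 i0
    simp only [Pi.sub_apply, Pi.smul_apply, smul_eq_mul, Pi.zero_apply, hmi', mul_zero, sub_zero] at h3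
    have hk1 : k = 0 := (mul_eq_zero.mp h3).resolve_right hi0
    apply hzero
    rw [hk, hk1]
    push_cast
    ring)
  simpa using h1

theorem rank_core (b l r D : ℕ) (B : ℝ) (hB : 1 ≤ B) (hr1 : 1 ≤ r) (hr : r * (b + l) < b * l) :
    ∃ C : ℝ, 0 < C ∧ ∀ H : ℕ, 3 ≤ H → ∀ t : Fin b → Fin l → ℂ,
    (∀ j p, AlgHt D H (Complex.exp (t j p))) → (∀ j p, ‖t j p‖ ≤ B) →
    (∀ n : Fin b → Fin l → ℤ, ∑ j, ∑ p, (n j p : ℂ) * t j p = 0 → n = 0) →
    ∀ A : Matrix (Fin b) (Fin l) ℂ, A.rank ≤ r →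
    ∃ j p, Real.exp (-(C * Real.log H ^ ((b + l) * (r + 1) + 1))) < ‖t j p - A j p‖ := by
  classical
  have hb : 1 ≤ b := by
    rcases Nat.eq_zero_or_pos b with h | h
    · rw [h, zero_mul] at hr; omega
    · exact h
  have hl : 1 ≤ l := by
    rcases Nat.eq_zero_or_pos l with h | h
    · rw [h, mul_zero] at hr; omega
    · exact h
  set M : ℝ := l * (B + 1) + 1 with hMdef
  have hM1 : 1 ≤ M := by
    have : 0 ≤ (l : ℝ) * (B + 1) := by positivity
    linarith
  obtain ⟨C1, hC1, hmain⟩ := QTH (w := 0) (b := b) (l := l) (r := r) ∅ ((b + l) * (r + 1))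
    (l * (r + 1)) (b * (r + 1)) (D ^ (b * l)) 2 M hM1
    (by ring) (Nat.mul_pos hl (by omega)) (by
      rw [Finset.card_empty, zero_mul, zero_add, add_zero]
      nlinarith)
  set κ := (b + l) * (r + 1) with hκ
  refine ⟨C1 + |Real.log (2 * Real.exp B)|, by positivity, fun H hH t ht htB hind A hA => ?_⟩
  by_contra hcon
  push Not at hcon
  have hL := one_le_logH hH
  set C := C1 + |Real.log (2 * Real.exp B)| with hC
  set ε := Real.exp (-(C * Real.log H ^ (κ + 1))) with hε
  have hC0 : 0 < C := by positivity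
  have hε1 : ε ≤ 1 := by
    rw [hε]
    apply Real.exp_le_one_iff.mpr
    have : 0 ≤ C * Real.log H ^ (κ + 1) := by positivity
    linarith
  have habs := absorb C1 (2 * Real.exp B) C (by positivity) hC1.le (κ + 1) (κ + 1) le_rfl
    (by rw [hC]) hH
  have hAB : ∀ j p, ‖A j p‖ ≤ B + 1 := by
    intro j p
    have e1 : A j p = t j p - (t j p - A j p) := by ring
    rw [e1]
    exact (norm_sub_le _ _).trans (add_le_add (htB j p) ((hcon j p).trans hε1))
  obtain ⟨x, y, hxy, hx, hy⟩ := fact A hA (B + 1) (by linarith) hAB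
  -- indices and the field
  set idx : Fin (b * l) ≃ Fin b × Fin l := finProdFinEquiv.symm with hidx
  obtain ⟨F, _, _, φ, hDg, hφ⟩ := exists_field_fam D (b * l)
    (fun i => Complex.exp (t (idx i).1 (idx i).2)) (fun i => ⟨H, ht _ _⟩)
  choose w hwφ using hφ
  have hsz : ∀ i, Sz ((H : ℝ) ^ 2) (w i) := fun i =>
    ((ht _ _).sz φ (w i) (hwφ i)).mono (succ_le_sq hH)
  have hwφ' : ∀ j p, φ (w (idx.symm (j, p))) = Complex.exp (t j p) := by
    intro j p
    rw [hwφ, Equiv.apply_symm_apply]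
  obtain ⟨Af, Rm, G0, h1, h2, h3⟩ := hmain H hH F φ hDg
    (fun i _ => i.elim0) (fun i _ => i.elim0) (fun j p => w (idx.symm (j, p)))
    x y (fun i _ => i.elim0)
    (fun i => i.elim0) (fun i => i.elim0) (fun j p => hsz _)
    (fun ρ j => (hx ρ j).trans (by rw [hMdef]; linarith))
    (fun ρ p => (hy ρ p).trans hM1)
    (fun i => i.elim0) (fun i => i.elim0) (fun i => i.elim0)
    (by
      intro j p
      rw [hwφ']
      simp only [Finset.univ_eq_empty, Finset.sum_empty, add_zero]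
      rw [← hxy j p]
      refine (exp_near (htB j p) hε1 (hcon j p)).trans ?_
      exact habs)
    (by
      intro j p
      rw [hwφ']
      exact Complex.exp_ne_zero _)
  have h4 := h3 (kSpan ℂ Rm) (fun m hm _ => hm)
  rw [finrank_kSpan] at h4
  have h5 : finrank ℤ Rm ≤ b := by
    have := finrank_le_card Rm univ (by
      intro s _ hs
      funext i
      exact hs i (mem_univ i))
    simpa using this
  have h6 : 1 ≤ finrank ℤ Rm := by
    by_contra h
    have h0 : finrank ℤ Rm = 0 := by omega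
    rw [h0, zero_mul] at h4
    omega
  obtain ⟨m, hm, hm0⟩ := exists_ne_zero_of_finrank Rm h6
  have hrel : ∀ m ∈ Rm, ∀ s ∈ G0, ∃ k : ℤ,
      ∑ j, ∑ p, ((m j * s p : ℤ) : ℂ) * t j p = k * (2 * Real.pi * Complex.I) := by
    intro m hm s hs
    have h8 := ((h2 s).mp hs).2 m hm
    have h9 : Complex.exp (∑ j, ∑ p, ((m j * s p : ℤ) : ℂ) * t j p) = 1 := by
      rw [Complex.exp_sum, ← h8]
      apply Finset.prod_congr rfl
      intro j _
      rw [Complex.exp_sum, ← Finset.prod_zpow]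
      apply Finset.prod_congr rfl
      intro p _
      rw [hwφ', ← zpow_mul, ← Complex.exp_int_mul, mul_comm (s p)]
    exact Complex.exp_eq_one_iff.mp h9
  have hbl : b + l < b * l := by
    calc b + l = 1 * (b + l) := (one_mul _).symm
      _ ≤ r * (b + l) := Nat.mul_le_mul_right _ hr1
      _ < b * l := hr
  rcases Nat.eq_zero_or_pos (finrank ℤ G0) with h7 | h7
  · rw [h7, Nat.sub_zero] at h4
    have h8 : (l + finrank ℤ Rm) * (b * (r + 1)) = (r + 1) * (l * b) + finrank ℤ Rm * (b * (r + 1)) := by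
      ring
    have h9 : finrank ℤ Rm * κ = (r + 1) * (l * finrank ℤ Rm) + finrank ℤ Rm * (b * (r + 1)) := by
      rw [hκ]; ring
    rw [h8, h9] at h4
    have h10 : (r + 1) * (l * finrank ℤ Rm) ≤ (r + 1) * (l * b) :=
      Nat.mul_le_mul_left _ (Nat.mul_le_mul_left _ h5)
    omega
  · obtain ⟨s, hs, hs0⟩ := exists_ne_zero_of_finrank G0 h7
    have e1 : finrank ℤ Rm ≤ 1 := rank_one t hind _ Rm s hs0 (fun m hm => hrel m hm s hs)
    have e2 : finrank ℤ G0 ≤ 1 := by
      refine rank_one (fun p j => t j p) (fun n hn => ?_) (2 * Real.pi * Complex.I) G0 m hm0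
        (fun s hs => ?_)
      · have h8 := hind (fun j p => n p j) (by rw [Finset.sum_comm]; exact hn)
        funext p j
        exact congrFun (congrFun h8 j) p
      · obtain ⟨k, hk⟩ := hrel m hm s hs
        refine ⟨k, ?_⟩
        rw [← hk, Finset.sum_comm]
        exact Finset.sum_congr rfl fun j _ => Finset.sum_congr rfl fun p _ => by rw [mul_comm (s p)]
    have e3 : finrank ℤ Rm = 1 := le_antisymm e1 h6
    have e4 : finrank ℤ G0 = 1 := le_antisymm e2 h7
    rw [e3, e4, one_mul, Nat.sub_add_cancel hl] at h4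
    have h8 : l * (b * (r + 1)) = (r + 1) * (b * l) := by ring
    have h9 : κ = (r + 1) * (b + l) := by rw [hκ]; ring
    rw [h8, h9] at h4
    have := lt_of_mul_lt_mul_left h4 (Nat.zero_le _)
    omega

end Pool.Agent.H12
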