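import Pool.Agent.H12.RB

/-!
# Matrices with small minors are close to matrices of small rank
-/

set_option autoImplicit false

namespace Pool.Agent.H12

open Matrix

theorem bordered {b l k : ℕ} (M : Matrix (Fin b) (Fin l) ℂ) (f : Fin k → Fin b) (g : Fin k → Fin l)
    (hU : (M.submatrix f g).det ≠ 0) (j : Fin b) (p : Fin l) :
    ∃ (f' : Fin (k + 1) → Fin b) (g' : Fin (k + 1) → Fin l),
      (M.submatrix f' g').det = (M.submatrix f g).det *
        (M j p - (M.submatrix id g * (M.submatrix f g)⁻¹ * M.submatrix f id) j p) := by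
  classical
  let e : Fin (k + 1) ≃ Fin k ⊕ Fin 1 := finSumFinEquiv.symm
  refine ⟨fun i => Sum.elim f (fun _ => j) (e i), fun i => Sum.elim g (fun _ => p) (e i), ?_⟩
  have h1 : M.submatrix (fun i => Sum.elim f (fun _ => j) (e i)) (fun i => Sum.elim g (fun _ => p) (e i)) =
      (M.submatrix (Sum.elim f (fun _ : Fin 1 => j)) (Sum.elim g (fun _ : Fin 1 => p))).submatrix e e := rfl
  have h2 : M.submatrix (Sum.elim f (fun _ : Fin 1 => j)) (Sum.elim g (fun _ : Fin 1 => p)) =
      fromBlocks (M.submatrix f g) (M.submatrix f (fun _ : Fin 1 => p))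
        (M.submatrix (fun _ : Fin 1 => j) g) (M.submatrix (fun _ : Fin 1 => j) (fun _ : Fin 1 => p)) := by
    ext x y
    rcases x with x | x <;> rcases y with y | y <;> rfl
  have : Invertible (M.submatrix f g) :=
    Matrix.invertibleOfIsUnitDet _ (isUnit_iff_ne_zero.mpr hU)
  rw [h1, Matrix.det_submatrix_equiv_self, h2, Matrix.det_fromBlocks₁₁, Matrix.det_fin_one,
    Matrix.invOf_eq_nonsing_inv]
  congr 1

theorem near_rank {b l r : ℕ} (M : Matrix (Fin b) (Fin l) ℂ) (ε : ℝ) (hε : 0 < ε)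
    (h : ∀ (f : Fin (r + 1) → Fin b) (g : Fin (r + 1) → Fin l),
      ‖(M.submatrix f g).det‖ ≤ ε ^ (r + 1)) :
    ∃ A : Matrix (Fin b) (Fin l) ℂ, A.rank ≤ r ∧ ∀ j p, ‖M j p - A j p‖ ≤ ε := by
  classical
  let P : ℕ → Prop := fun k => ∃ (f : Fin k → Fin b) (g : Fin k → Fin l),
    ε ^ k ≤ ‖(M.submatrix f g).det‖
  have hP0 : P 0 := ⟨fun i => i.elim0, fun i => i.elim0, by
    rw [Matrix.det_fin_zero, norm_one, pow_zero]⟩
  set k := Nat.findGreatest P r with hk
  have hkr : k ≤ r := Nat.findGreatest_le r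
  have hPk : P k := Nat.findGreatest_spec (Nat.zero_le r) hP0
  have hsmall : ∀ (f : Fin (k + 1) → Fin b) (g : Fin (k + 1) → Fin l),
      ‖(M.submatrix f g).det‖ ≤ ε ^ (k + 1) := by
    intro f g
    rcases Nat.lt_or_ge k r with h1 | h1
    · have h2 : ¬ P (k + 1) := Nat.findGreatest_is_greatest (P := P) (n := r) (k := k + 1) (by omega) (by omega)
      by_contra h3
      exact h2 ⟨f, g, (not_le.mp h3).le⟩
    · have h2 : k = r := le_antisymm hkr h1
      clear_value k
      subst h2
      exact h f g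
  obtain ⟨f, g, hfg⟩ := hPk
  have hU : (M.submatrix f g).det ≠ 0 := by
    intro h0
    rw [h0, norm_zero] at hfg
    exact absurd hfg (not_le.mpr (pow_pos hε k))
  refine ⟨M.submatrix id g * (M.submatrix f g)⁻¹ * M.submatrix f id, ?_, fun j p => ?_⟩
  · refine (Matrix.rank_mul_le_left _ _).trans ?_
    refine (Matrix.rank_mul_le_left _ _).trans ?_
    refine (Matrix.rank_le_card_width _).trans ?_
    rw [Fintype.card_fin]
    exact hkr
  · obtain ⟨f', g', h1⟩ := bordered M f g hU j p
    have h2 := hsmall f' g'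
    rw [h1, norm_mul] at h2
    have h3 : ε ^ k * ‖M j p - (M.submatrix id g * (M.submatrix f g)⁻¹ * M.submatrix f id) j p‖ ≤
        ε ^ k * ε := by
      rw [← pow_succ]
      exact (mul_le_mul_of_nonneg_right hfg (norm_nonneg _)).trans h2
    exact le_of_mul_le_mul_left h3 (pow_pos hε k)

end Pool.Agent.H12
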